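import Pool.Agent.TH905.VF.Prod

set_option autoImplicit false

/-!
Primes above rational primes.
-/

namespace Pool.Agent.TH905.VF

open NumberField IsDedekindDomain Height Pool.Agent.H691R3
open scoped Classical

variable (K : Type) [Field K] [NumberField K]

lemma above_finite (S : Finset ℕ) (hS : ∀ p ∈ S, p.Prime) :
    {v : HeightOneSpectrum (𝓞 K) | ∃ p ∈ S, (p : 𝓞 K) ∈ v.asIdeal}.Finite := by
  have h : {v : HeightOneSpectrum (𝓞 K) | ∃ p ∈ S, (p : 𝓞 K) ∈ v.asIdeal} =
      ⋃ p ∈ S, {v : HeightOneSpectrum (𝓞 K) | (p : 𝓞 K) ∈ v.asIdeal} := by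
    ext w
    simp
  rw [h]
  exact Set.Finite.biUnion S.finite_toSet fun p hp => nat_mem_finite p (hS p hp).ne_zero

lemma sum_above (S : Finset ℕ) (hS : ∀ p ∈ S, p.Prime)
    (T : Finset (HeightOneSpectrum (𝓞 K))) (hT : ∀ v ∈ T, ∃ p ∈ S, (p : 𝓞 K) ∈ v.asIdeal) :
    ∑ v ∈ T, Real.log (Ideal.absNorm v.asIdeal) ≤ Module.finrank ℚ K * ∑ p ∈ S, Real.log p := by
  set N : ℕ := ∏ p ∈ S, p with hN
  have hN0 : N ≠ 0 := Finset.prod_ne_zero_iff.2 fun p hp => (hS p hp).ne_zero
  have hNK : (N : K) ≠ 0 := by exact_mod_cast hN0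
  obtain ⟨T', hT'⟩ := exists_supp (L := K) (fun _ : Fin 1 => (N : K)) fun _ => hNK
  have h1 := product_formula hNK (T' ∪ T) fun v hv => hT' v
    (fun h => hv (Finset.mem_union_left _ h)) 0
  have h2 : ∑ w : InfinitePlace K, (w.mult : ℝ) * Real.log (w.1 (N : K)) =
      Module.finrank ℚ K * ∑ p ∈ S, Real.log p := by
    have h3 : ∀ w : InfinitePlace K, w.1 (N : K) = N := by
      intro w
      have : w (N : K) = N := by
        rw [← InfinitePlace.norm_embedding_eq w, map_natCast, Complex.norm_natCast]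
      exact this
    have h4 : Real.log (N : ℝ) = ∑ p ∈ S, Real.log p := by
      rw [hN, Nat.cast_prod]
      exact Real.log_prod fun p hp => by exact_mod_cast (hS p hp).ne_zero
    simp only [h3]
    rw [← Finset.sum_mul, h4]
    congr 1
    exact_mod_cast InfinitePlace.sum_mult_eq (K := K)
  have h3 : ∀ v : HeightOneSpectrum (𝓞 K), Real.log (fv v (N : K)) ≤ 0 := by
    intro v
    refine Real.log_nonpos ((fv v).nonneg _) ?_
    have : fv v (((N : ℕ) : ℤ) : K) ≤ 1 := Pool.Agent.W125.CV.fv_int v (N : ℤ)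
    simpa using this
  have h4 : ∑ v ∈ T' ∪ T, Real.log (fv v (N : K)) ≤
      ∑ v ∈ T, -Real.log (Ideal.absNorm v.asIdeal) := by
    refine le_trans (b := ∑ v ∈ T, Real.log (fv v (N : K))) ?_ ?_
    · rw [← Finset.sum_sdiff (Finset.subset_union_right (s₁ := T') (s₂ := T))]
      have : ∑ v ∈ (T' ∪ T) \ T, Real.log (fv v (N : K)) ≤ 0 :=
        Finset.sum_nonpos fun v _ => h3 v
      linarith
    · refine Finset.sum_le_sum fun v hv => ?_
      obtain ⟨p, hp, hpv⟩ := hT v hv
      have h5 : ((N : ℕ) : 𝓞 K) ∈ v.asIdeal := by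
        obtain ⟨c, hc⟩ := Finset.dvd_prod_of_mem (fun p => p) hp
        rw [hN, hc]
        push_cast
        exact Ideal.mul_mem_right _ _ hpv
      have h6 : v.valuation K (((N : ℕ) : 𝓞 K) : K) < 1 := (v.valuation_lt_one_iff_mem _).mpr h5
      have h7 : (((N : ℕ) : 𝓞 K) : K) = ((N : ℕ) : K) := by simp
      rw [h7, ← map_one (v.valuation K), ← fv_lt_iff, map_one] at h6
      obtain ⟨a, ha⟩ := log_fv v hNK
      have h8 := Real.log_lt_log ((fv v).pos hNK) h6
      rw [Real.log_one, ha] at h8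
      rw [ha]
      have hNv := log_Nv_pos v
      have h9 : a < 0 := by
        by_contra hc
        push Not at hc
        have : (0 : ℝ) ≤ a := by exact_mod_cast hc
        nlinarith
      have h10 : (a : ℝ) ≤ -1 := by
        have : a ≤ -1 := by omega
        exact_mod_cast this
      have h11 : Real.log (Ideal.absNorm v.asIdeal) = Real.log (Nv v) := rfl
      rw [h11]
      nlinarith
  rw [Finset.sum_neg_distrib] at h4
  linarith

variable {K} {L : Type} [Field L] [NumberField L] [Algebra K L]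

omit [NumberField L] in
lemma above_eq (S : Finset ℕ) (hS : ∀ p ∈ S, p.Prime) :
    {w : HeightOneSpectrum (𝓞 L) | ∃ v ∈ (above_finite K S hS).toFinset,
      w.asIdeal.LiesOver v.asIdeal} =
    {w : HeightOneSpectrum (𝓞 L) | ∃ p ∈ S, (p : 𝓞 L) ∈ w.asIdeal} := by
  ext w
  constructor
  · rintro ⟨v, hv, hvw⟩
    obtain ⟨p, hp, hpv⟩ := (Set.Finite.mem_toFinset _).1 hv
    refine ⟨p, hp, ?_⟩
    by_contra hc
    have := hvw.over
    rw [this, Ideal.mem_under] at hpv
    exact hc (by simpa using hpv)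
  · rintro ⟨p, hp, hpw⟩
    have h1 : w.asIdeal.under (𝓞 K) ≠ ⊥ := by
      intro h
      have h2 : (p : 𝓞 K) ∈ w.asIdeal.under (𝓞 K) := by
        rw [Ideal.mem_under]
        simpa using hpw
      rw [h, Ideal.mem_bot] at h2
      exact (hS p hp).ne_zero (by exact_mod_cast h2)
    refine ⟨⟨w.asIdeal.under (𝓞 K), Ideal.IsPrime.under _ _, h1⟩, ?_, ⟨rfl⟩⟩
    rw [Set.Finite.mem_toFinset]
    refine ⟨p, hp, ?_⟩
    show (p : 𝓞 K) ∈ w.asIdeal.under (𝓞 K)
    rw [Ideal.mem_under]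
    simpa using hpw

end Pool.Agent.TH905.VF
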