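import Pool.Agent.TH905.VF.Prox
import Pool.Agent.Results.MP_9ec3f0_nt.HyperplaneExceptions
import Pool.Agent.H951R3.V.V5

set_option autoImplicit false

/-!
Points of Fermat intersections and of diagonal hypersurfaces.
-/

namespace Pool.Agent.TH905.VF

open NumberField IsDedekindDomain Height Pool.Agent.H691R3 LinearAlgebra.Projectivization
open scoped Classical

section gen

open Pool.Agent.H57R3.VJ (lin GenPos N1 sv Meets bad_exists)
open Pool.Agent.Results.MP_9ec3f0_nt.HyperplaneExceptions (expo Exc)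

/-- the exceptional points: general position -/
def E1 {k : Type} [Field k] [NumberField k] {n q : ℕ} (S : Finset (HeightOneSpectrum (𝓞 k)))
    (a : Fin q → Fin (n + 1) → k) (θ c B : ℝ) : Set (ℙ k (Fin (n + 1) → k)) :=
  {P | (∀ i, lin (a i) P.rep ≠ 0) ∧ P.mulHeight ≤ B ∧
    ∃ (m : ℕ) (L : Type) (_ : Field L) (_ : NumberField L) (_ : Algebra k L) (y : Fin q → L) (t : L),
      m ≠ 0 ∧ t ≠ 0 ∧ (∀ i, y i ^ m = t * algebraMap k L (lin (a i) P.rep)) ∧
      ld k L + c < (θ * m - q) * ht k y + prox S y}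

lemma rep_height {K : Type*} [Field K] [NumberField K] {ι : Type*} [Finite ι]
    (P : ℙ K (ι → K)) : P.mulHeight = mulHeight P.rep := by
  conv_lhs => rw [← P.mk_rep]
  rw [Projectivization.mulHeight_mk]

theorem gen_main (k : Type) [Field k] [NumberField k] (n q : ℕ) (hn : 1 ≤ n) (hq : n + 1 ≤ q)
    (a : Fin q → Fin (n + 1) → k)
    (ha : ∀ I : Finset (Fin q), I.card = n + 1 → LinearIndependent k (fun i : I => a i))
    (S : Finset (HeightOneSpectrum (𝓞 k))) (θ c δ : ℝ) (hθ : 0 ≤ θ) (hδ : 0 < δ) :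
    ∃ M : ℝ, ∀ B : ℝ, 1 ≤ B →
      (E1 S a θ c B).Finite ∧ ((E1 S a θ c B).ncard : ℝ) ≤ M * B ^ (expo n q θ + δ) := by
  have ha0 : ∀ i, a i ≠ 0 := GenPos.ne_zero ha hq
  obtain ⟨S0, hS, hs1, hs2⟩ := bad_exists (a := a) ha ha0 (S.image FinitePlace.mk)
  -- the height of the values
  have hne : Nonempty (Fin (n + 1)) := ⟨0⟩
  obtain ⟨Ca, hCa⟩ : ∃ Ca : ℝ, ∀ x : Fin (n + 1) → k,
      logHeight (fun i => lin (a i) x) ≤ Ca + logHeight x := by
    refine ⟨totalWeight k * Real.log (Nat.card (Fin (n + 1))) +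
      logHeight (fun p : Fin q × Fin (n + 1) => a p.1 p.2), fun x => ?_⟩
    exact logHeight_linearMap_apply_le (fun p : Fin q × Fin (n + 1) => a p.1 p.2) x
  obtain ⟨-, M, hM⟩ := Pool.Agent.Results.MP_9ec3f0_nt.HyperplaneExceptions.result k n q hn hq a ha
    S0 θ (θ * Ca - c) δ hθ hδ
  refine ⟨M, fun B hB => ?_⟩
  obtain ⟨h1, h2⟩ := hM B hB
  have hsub : E1 S a θ c B ⊆ Exc S0 a θ (θ * Ca - c) B := by
    rintro P ⟨hl, hB', m, L, _, _, _, y, t, hm, ht', hy, hv⟩
    refine ⟨hl, hB', ?_⟩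
    have hP0 : P.rep ≠ 0 := P.rep_nonzero
    have hyne : ∀ i, y i ≠ 0 := by
      intro i h0
      have h3 := hy i
      rw [h0, zero_pow hm] at h3
      have h4 : algebraMap k L (lin (a i) P.rep) ≠ 0 := by
        rw [Ne, map_eq_zero]
        exact hl i
      exact mul_ne_zero ht' h4 h3.symm
    refine N1_le hq ha0 S0 hs1 hs2 P.rep hP0 hl _ fun R hR => ?_
    have h3 := key' (k := k) (by omega) m hm (fun i => lin (a i) P.rep) y hyne t ht' hy S R
      (fun v hv' => ⟨fun hvS => (hR v hv').1 (hS (Finset.mem_image_of_mem _ hvS)), (hR v hv').2⟩)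
    have h4 := ht_pow (k := k) m (fun i => lin (a i) P.rep) y t ht' hy
    have h5 := hCa P.rep
    have h6 : Real.log P.mulHeight = logHeight P.rep := by
      rw [rep_height, logHeight_eq_log_mulHeight]
    rw [h6]
    have h7 : θ * (m * ht k y) ≤ θ * (Ca + logHeight P.rep) := by
      rw [h4]
      exact mul_le_mul_of_nonneg_left h5 hθ
    nlinarith
  refine ⟨h1.subset hsub, le_trans ?_ h2⟩
  exact_mod_cast Set.ncard_le_ncard hsub h1

end gen

section hyp

/-- the exceptional points: diagonal hypersurfaces -/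
def E2 {k : Type} [Field k] [NumberField k] {q : ℕ} (S : Finset (HeightOneSpectrum (𝓞 k)))
    (a : Fin q → k) (θ c B : ℝ) : Set (ℙ k (Fin q → k)) :=
  {P | ∑ i, a i * P.rep i = 0 ∧
    (∀ I : Finset (Fin q), I.Nonempty → I ≠ Finset.univ → ∑ i ∈ I, a i * P.rep i ≠ 0) ∧
    P.mulHeight ≤ B ∧
    ∃ (m : ℕ) (L : Type) (_ : Field L) (_ : NumberField L) (_ : Algebra k L) (y : Fin q → L) (t : L),
      m ≠ 0 ∧ t ≠ 0 ∧ (∀ i, y i ^ m = t * algebraMap k L (P.rep i)) ∧
      ld k L + c < (θ * m - q) * ht k y + prox S y}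

lemma logHeight_mul_le {K : Type*} [Field K] [NumberField K] {q : ℕ} (a x : Fin q → K)
    (ha : a ≠ 0) (hx : x ≠ 0) :
    logHeight (fun i => a i * x i) ≤ logHeight a + logHeight x := by
  rw [← logHeight_fun_mul_eq ha hx]
  exact logHeight_comp_le (fun i : Fin q => (i, i)) (fun p : Fin q × Fin q => a p.1 * x p.2)

theorem hyp_main (k : Type) [Field k] [NumberField k] (q : ℕ) (hq : 3 ≤ q)
    (a : Fin q → k) (ha : ∀ i, a i ≠ 0)
    (S : Finset (HeightOneSpectrum (𝓞 k))) (θ c δ : ℝ) (hθ : 0 ≤ θ) (hδ : 0 < δ) :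
    ∃ M : ℝ, ∀ B : ℝ, 1 ≤ B →
      (E2 S a θ c B).Finite ∧
      ((E2 S a θ c B).ncard : ℝ) ≤ M * B ^ (θ * (1 - 1 / (q.choose (q / 2) : ℝ)) + δ) := by
  obtain ⟨m', rfl⟩ : ∃ m', q = m' + 1 := ⟨q - 1, by omega⟩
  have ha0 : a ≠ 0 := fun h => ha 0 (by rw [h]; rfl)
  have hai0 : (fun i => (a i)⁻¹) ≠ 0 := fun h => inv_ne_zero (ha 0) (congrFun h 0)
  set S' : Set (HeightOneSpectrum (𝓞 k)) := (S : Set _) ∪ ⋃ i, {v | fv v (a i) ≠ 1} with hS'
  have hS'fin : S'.Finite := S.finite_toSet.union (Set.finite_iUnion fun i =>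
    fv_support_finite (ha i))
  set Ca := logHeight a with hCa
  set Cb := logHeight (fun i => (a i)⁻¹) with hCb
  have hCa0 : 0 ≤ Ca := logHeight_nonneg a
  obtain ⟨C, hC, hmain⟩ := Pool.Agent.H951R3.V.main_count (K := k) m' S' hS'fin
    (c := θ * Cb - c) hθ hδ
  set ex : ℝ := θ * (1 - 1 / ((m' + 1).choose ((m' + 1) / 2) : ℝ)) + δ with hex
  refine ⟨C * (Real.exp Ca) ^ ex, fun B hB => ?_⟩
  have hB0 : 0 < B := by linarith
  refine Pool.Agent.H951R3.V.ncard_le_of_finset _ _ (by positivity) fun E hE => ?_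
  have hinj : Function.Injective
      (fun P : Projectivization k (Fin (m' + 1) → k) => fun i => a i * P.rep i) := by
    intro P Q h
    have h1 := P.mk_rep
    have h2 := Q.mk_rep
    have h3 : P.rep = Q.rep := by
      funext i
      exact mul_left_cancel₀ (ha i) (congrFun h i)
    rw [← h1, ← h2]
    congr 1
  have hcard : (E.card : ℝ) = ((E.image fun P : Projectivization k (Fin (m' + 1) → k) =>
      fun i => a i * P.rep i).card : ℝ) := by
    rw [Finset.card_image_of_injective _ hinj]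
  have hne : ∀ P ∈ E, ∀ i, P.rep i ≠ 0 := by
    intro P hP i
    have h := (hE hP).2.1 {i} (Finset.singleton_nonempty i) ?_
    · rw [Finset.sum_singleton] at h
      exact right_ne_zero_of_mul h
    · intro h
      have h1 := congrArg Finset.card h
      rw [Finset.card_singleton, Finset.card_univ, Fintype.card_fin] at h1
      omega
  have hexpB : 1 ≤ Real.exp Ca * B := one_le_mul_of_one_le_of_one_le (Real.one_le_exp hCa0) hB
  have hfinal : C * (Real.exp Ca * B) ^ ex = C * (Real.exp Ca) ^ ex * B ^ ex := by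
    rw [Real.mul_rpow (Real.exp_pos _).le hB0.le, mul_assoc]
  rw [hcard, ← hfinal]
  refine hmain (Real.exp Ca * B) hexpB _ ?_ ?_ ?_ ?_ ?_ ?_
  · intro x hx
    obtain ⟨P, hP, rfl⟩ := Finset.mem_image.mp hx
    exact (hE hP).1
  · intro x hx
    obtain ⟨P, hP, rfl⟩ := Finset.mem_image.mp hx
    exact (hE hP).2.1
  · intro x hx i
    obtain ⟨P, hP, rfl⟩ := Finset.mem_image.mp hx
    exact mul_ne_zero (ha i) (hne P hP i)
  · intro x hx y hy t ht hxy
    obtain ⟨P, hP, rfl⟩ := Finset.mem_image.mp hx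
    obtain ⟨Q, hQ, rfl⟩ := Finset.mem_image.mp hy
    have h : P = Q := by
      rw [← P.mk_rep, ← Q.mk_rep]
      rw [Projectivization.mk_eq_mk_iff']
      refine ⟨t, ?_⟩
      funext i
      have h1 := congrFun hxy i
      simp only [Pi.smul_apply, smul_eq_mul] at h1 ⊢
      refine mul_left_cancel₀ (ha i) ?_
      rw [h1]
      ring
    rw [h]
  · intro x hx
    obtain ⟨P, hP, rfl⟩ := Finset.mem_image.mp hx
    rw [Real.log_mul (Real.exp_pos _).ne' hB0.ne', Real.log_exp]
    refine (logHeight_mul_le a P.rep ha0 P.rep_nonzero).trans ?_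
    have h1 : logHeight P.rep ≤ Real.log B := by
      rw [logHeight_eq_log_mulHeight, ← rep_height]
      exact Real.log_le_log P.mulHeight_pos (hE hP).2.2.1
    linarith
  · intro x hx R hR
    obtain ⟨P, hP, rfl⟩ := Finset.mem_image.mp hx
    obtain ⟨-, -, -, m, L, _, _, _, y, t, hm, ht', hy, hv⟩ := hE hP
    have hyne : ∀ i, y i ≠ 0 := by
      intro i h0
      have h3 := hy i
      rw [h0, zero_pow hm] at h3
      have h4 : algebraMap k L (P.rep i) ≠ 0 := by
        rw [Ne, map_eq_zero]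
        exact hne P hP i
      exact mul_ne_zero ht' h4 h3.symm
    have h3 := key' (k := k) (by omega) m hm P.rep y hyne t ht' hy S R (by
      intro v hv'
      obtain ⟨hvS, i, j, hij⟩ := hR v hv'
      refine ⟨fun h => hvS (Or.inl h), ?_⟩
      have h1 : ∀ i, fv v (a i) = 1 := by
        intro i
        by_contra hc
        exact hvS (Or.inr (Set.mem_iUnion.2 ⟨i, hc⟩))
      have h2 : fv v (P.rep i) ≠ fv v (P.rep j) := by
        intro h
        apply hij
        rw [map_mul, map_mul, h1, h1, h]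
      rcases lt_or_gt_of_ne h2 with h | h
      · exact ⟨i, j, h⟩
      · exact ⟨j, i, h⟩)
    have h4 := ht_pow (k := k) m P.rep y t ht' hy
    have h5 : logHeight P.rep ≤ Cb + logHeight (fun i => a i * P.rep i) := by
      have h6 : (fun i => a i * P.rep i) ≠ 0 := fun h =>
        mul_ne_zero (ha 0) (hne P hP 0) (congrFun h 0)
      have h7 := logHeight_mul_le (fun i => (a i)⁻¹) (fun i => a i * P.rep i) hai0 h6
      have h8 : (fun i => (a i)⁻¹ * (a i * P.rep i)) = P.rep := by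
        funext i
        rw [← mul_assoc, inv_mul_cancel₀ (ha i), one_mul]
      rwa [h8] at h7
    have h7 : θ * (m * ht k y) ≤ θ * (Cb + logHeight (fun i => a i * P.rep i)) := by
      rw [h4]
      exact mul_le_mul_of_nonneg_left h5 hθ
    have h8 : ∑ v ∈ R, Pool.Agent.H951R3.V.ell v =
        ∑ v ∈ R, Real.log (Ideal.absNorm v.asIdeal) := rfl
    rw [h8]
    push_cast at h3 hv ⊢
    nlinarith

end hyp

end Pool.Agent.TH905.VF
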