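import Pool.Agent.TH905.VF.Prox
import Pool.Agent.Results.MP_9ec3f0_nt.HyperplaneArrangements

set_option autoImplicit false

/-!
Kummer covers of arbitrary hyperplane arrangements.
-/

namespace Pool.Agent.TH905.VF

open NumberField IsDedekindDomain Height Pool.Agent.H691R3 LinearAlgebra.Projectivization
open scoped Classical

section defs

variable {L : Type*} [Field L] [NumberField L]

/-- the local height with respect to the union of the coordinate hyperplanes of the resolution -/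
noncomputable def wm {r : ℕ} (f : AbsoluteValue L ℝ) (y : Fin r → L) : ℝ :=
  ⨆ i, Real.log ((⨆ j, f (y j)) / f (y i))

omit [NumberField L] in
lemma le_wm {r : ℕ} (f : AbsoluteValue L ℝ) (y : Fin r → L) (i : Fin r) :
    Real.log ((⨆ j, f (y j)) / f (y i)) ≤ wm f y :=
  le_ciSup (f := fun i => Real.log ((⨆ j, f (y j)) / f (y i))) (Set.finite_range _).bddAbove i

lemma wm_nonneg {r : ℕ} (hr : 0 < r) (f : AbsoluteValue L ℝ) (y : Fin r → L)
    (hy : ∀ i, y i ≠ 0) : 0 ≤ wm f y :=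
  (term_nonneg f y hy ⟨0, hr⟩).trans (le_wm f y ⟨0, hr⟩)

lemma wm_ge {r : ℕ} (w : HeightOneSpectrum (𝓞 L)) (y : Fin r → L) (hy : ∀ i, y i ≠ 0)
    (i j : Fin r) (h : fv w (y i) < fv w (y j)) :
    Real.log (Ideal.absNorm w.asIdeal) ≤ wm (fv w) y := by
  refine le_trans ?_ (le_wm (fv w) y i)
  have hi := (fv w).pos (hy i)
  have hj := (fv w).pos (hy j)
  have h2 : Real.log (fv w (y j) / fv w (y i)) ≤ Real.log ((⨆ j, fv w (y j)) / fv w (y i)) :=
    Real.log_le_log (div_pos hj hi) (div_le_div_of_nonneg_right (le_sup _ y j) hi.le)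
  refine le_trans ?_ h2
  obtain ⟨a, ha⟩ := log_fv w (hy i)
  obtain ⟨b, hb⟩ := log_fv w (hy j)
  have h3 := Real.log_lt_log hi h
  rw [Real.log_div hj.ne' hi.ne', ha, hb]
  rw [ha, hb] at h3
  have hN := log_Nv_pos w
  have h4 : a < b := by
    by_contra hc
    push Not at hc
    have : (b : ℝ) ≤ a := by exact_mod_cast hc
    nlinarith
  have h5 : (1 : ℝ) ≤ (b : ℝ) - a := by
    have : a + 1 ≤ b := h4
    have : ((a + 1 : ℤ) : ℝ) ≤ b := by exact_mod_cast this
    push_cast at this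
    linarith
  have h6 : Real.log (Ideal.absNorm w.asIdeal) = Real.log (Nv w) := rfl
  rw [h6]
  nlinarith

lemma wm_support {r : ℕ} (hr : 0 < r) (y : Fin r → L)
    (T : Finset (HeightOneSpectrum (𝓞 L))) (hT : ∀ v, v ∉ T → ∀ i, fv v (y i) = 1) :
    ∀ v, wm (fv v) y ≠ 0 → v ∈ T := by
  intro v hv
  by_contra hc
  apply hv
  have hne : Nonempty (Fin r) := ⟨⟨0, hr⟩⟩
  unfold wm
  simp only [hT v hc, ciSup_const, div_one, Real.log_one]

variable (k : Type*) [Field k] [NumberField k] [Algebra k L]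

/-- the height with respect to the boundary -/
noncomputable def hB {r : ℕ} (y : Fin r → L) : ℝ :=
  (∑ w : InfinitePlace L, (w.mult : ℝ) * wm w.1 y + ∑ᶠ w : HeightOneSpectrum (𝓞 L), wm (fv w) y) /
    Module.finrank k L

variable {k}

/-- the proximity function of the boundary -/
noncomputable def proxB {r : ℕ} (S : Finset (HeightOneSpectrum (𝓞 k))) (y : Fin r → L) : ℝ :=
  (∑ w : InfinitePlace L, (w.mult : ℝ) * wm w.1 y +
    ∑ᶠ w ∈ {w : HeightOneSpectrum (𝓞 L) | ∃ v ∈ S, w.asIdeal.LiesOver v.asIdeal}, wm (fv w) y) /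
    Module.finrank k L

end defs

section

variable {k L : Type*} [Field k] [NumberField k] [Field L] [NumberField L] [Algebra k L]

theorem keyB {r : ℕ} (hr : 0 < r) (m : ℕ) (x : Fin r → k) (y : Fin r → L)
    (hy : ∀ i, y i ≠ 0) (t : L) (ht' : t ≠ 0) (h : ∀ i, y i ^ m = t * algebraMap k L (x i))
    (S : Finset (HeightOneSpectrum (𝓞 k)))
    (R : Finset (HeightOneSpectrum (𝓞 k)))
    (hR : ∀ v ∈ R, v ∉ S ∧ ∃ i j, fv v (x i) < fv v (x j)) :
    ∑ v ∈ R, Real.log (Ideal.absNorm v.asIdeal) + proxB S y ≤ ld k L + hB k y := by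
  have hL := finrank_pos' (k := k) (L := L)
  obtain ⟨W, hW1, hW2⟩ := rel (k := k) (L := L) R
  obtain ⟨T, hT⟩ := exists_supp y hy
  set U := (over_finite (L := L) S).toFinset with hU
  have hdisj : Disjoint U W := by
    rw [Finset.disjoint_left]
    intro w hwU hwW
    obtain ⟨v, hv, hvw⟩ := hW1 w hwW
    rw [hU, Set.Finite.mem_toFinset] at hwU
    obtain ⟨v', hv', hvw'⟩ := hwU
    have h4 : v = v' := HeightOneSpectrum.ext (hvw.over.trans hvw'.over.symm)
    exact (hR v hv).1 (h4 ▸ hv')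
  have h1 : ∑ w ∈ W, Real.log (Ideal.absNorm w.asIdeal) ≤ ∑ w ∈ W, wm (fv w) y := by
    refine Finset.sum_le_sum fun w hw => ?_
    obtain ⟨v, hv, hvw⟩ := hW1 w hw
    obtain ⟨-, i, j, hij⟩ := hR v hv
    refine wm_ge w y hy i j ?_
    have h4 := (fv_lt_ext v w hvw (x i) (x j)).2 hij
    have h5 : fv w (y i) ^ m < fv w (y j) ^ m := by
      rw [← map_pow, ← map_pow, h, h, map_mul, map_mul]
      exact mul_lt_mul_of_pos_left h4 ((fv w).pos ht')
    exact lt_of_pow_lt_pow_left₀ m ((fv w).nonneg _) h5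
  have h2 : ∑ w ∈ U, wm (fv w) y + ∑ w ∈ W, wm (fv w) y ≤
      ∑ᶠ w : HeightOneSpectrum (𝓞 L), wm (fv w) y := by
    rw [← Finset.sum_union hdisj, finsum_eq_sum_of_support_subset (s := T ∪ (U ∪ W))]
    · exact Finset.sum_le_sum_of_subset_of_nonneg Finset.subset_union_right
        fun v _ _ => wm_nonneg hr _ y hy
    · intro v hv
      rw [Finset.mem_coe]
      exact Finset.mem_union_left _ (wm_support hr y T hT v hv)
  unfold proxB hB ld
  rw [finsum_mem_eq_finite_toFinset_sum _ (over_finite (L := L) S)]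
  have h5 : (Module.finrank k L : ℝ) * (Real.log |(discr k : ℝ)| +
        ∑ v ∈ R, Real.log (Ideal.absNorm v.asIdeal)) +
      (∑ w : InfinitePlace L, (w.mult : ℝ) * wm w.1 y + ∑ w ∈ U, wm (fv w) y) ≤
      Real.log |(discr L : ℝ)| + (∑ w : InfinitePlace L, (w.mult : ℝ) * wm w.1 y +
        ∑ᶠ w : HeightOneSpectrum (𝓞 L), wm (fv w) y) := by linarith
  have h6 : ∑ v ∈ R, Real.log (Ideal.absNorm v.asIdeal) +
      (∑ w : InfinitePlace L, (w.mult : ℝ) * wm w.1 y + ∑ w ∈ U, wm (fv w) y) /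
        Module.finrank k L =
      ((Module.finrank k L : ℝ) * (Real.log |(discr k : ℝ)| +
        ∑ v ∈ R, Real.log (Ideal.absNorm v.asIdeal)) +
      (∑ w : InfinitePlace L, (w.mult : ℝ) * wm w.1 y + ∑ w ∈ U, wm (fv w) y)) /
        Module.finrank k L - Real.log |(discr k : ℝ)| := by
    field_simp
    ring
  have h7 : Real.log |(discr L : ℝ)| / Module.finrank k L - Real.log |(discr k : ℝ)| +
      (∑ w : InfinitePlace L, (w.mult : ℝ) * wm w.1 y +
        ∑ᶠ w : HeightOneSpectrum (𝓞 L), wm (fv w) y) / Module.finrank k L =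
      (Real.log |(discr L : ℝ)| + (∑ w : InfinitePlace L, (w.mult : ℝ) * wm w.1 y +
        ∑ᶠ w : HeightOneSpectrum (𝓞 L), wm (fv w) y)) / Module.finrank k L -
        Real.log |(discr k : ℝ)| := by
    field_simp
    ring
  rw [h6, h7]
  exact sub_le_sub_right (div_le_div_of_nonneg_right h5 hL.le) _

end

section arr

open Pool.Agent.Results.MP_9ec3f0_nt.HyperplaneArrangements

variable {K : Type*} [Field K] [NumberField K] {n r : ℕ}

/-- For an essential arrangement, outside a finite set of primes, the primes of the truncated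
counting function are those at which the values of the forms have different absolute values. -/
lemma exists_S0 (a : Fin r → Fin (n + 1) → K) (hspan : Submodule.span K (Set.range a) = ⊤) :
    ∃ S₀ : Finset (HeightOneSpectrum (𝓞 K)), ∀ v ∉ S₀, ∀ x : Fin (n + 1) → K, x ≠ 0 →
      ∀ i, lin (a i) x ≠ 0 →
      0 < lam (Pool.Agent.Results.MP_9ec3f0_nt.HyperplaneArrangements.fv v) (a i) x →
      ∃ j, Pool.Agent.H691R3.fv v (lin (a i) x) < Pool.Agent.H691R3.fv v (lin (a j) x) := by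
  -- coefficients
  have hc : ∀ l : Fin (n + 1), ∃ c : Fin r → K, ∑ i, c i • a i = Pi.single l 1 := by
    intro l
    have h1 : (Pi.single l 1 : Fin (n + 1) → K) ∈ Submodule.span K (Set.range a) := by
      rw [hspan]; exact Submodule.mem_top
    exact (Submodule.mem_span_range_iff_exists_fun K).1 h1
  choose c hc using hc
  -- the primes at which a coefficient is not integral
  have hfin : ∀ z : K, {v : HeightOneSpectrum (𝓞 K) |
      ¬ Pool.Agent.H691R3.fv v z ≤ 1}.Finite := by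
    intro z
    by_cases hz : z = 0
    · refine Set.Finite.subset Set.finite_empty ?_
      intro v hv
      apply hv
      rw [hz, map_zero]
      exact zero_le_one
    · refine (Pool.Agent.H691R3.fv_support_finite hz).subset fun v hv h => hv ?_
      rw [h]
  refine ⟨(Finset.univ.biUnion fun l => Finset.univ.biUnion fun i => (hfin (c l i)).toFinset) ∪
    (Finset.univ.biUnion fun i => Finset.univ.biUnion fun l => (hfin (a i l)).toFinset), ?_⟩
  intro v hv x hx i hi hlam
  have hv1 : ∀ l i, Pool.Agent.H691R3.fv v (c l i) ≤ 1 := by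
    intro l i
    by_contra h
    apply hv
    refine Finset.mem_union_left _ ?_
    rw [Finset.mem_biUnion]
    refine ⟨l, Finset.mem_univ l, ?_⟩
    rw [Finset.mem_biUnion]
    exact ⟨i, Finset.mem_univ i, (Set.Finite.mem_toFinset _).2 h⟩
  have hv2 : ∀ i l, Pool.Agent.H691R3.fv v (a i l) ≤ 1 := by
    intro i l
    by_contra h
    apply hv
    refine Finset.mem_union_right _ ?_
    rw [Finset.mem_biUnion]
    refine ⟨i, Finset.mem_univ i, ?_⟩
    rw [Finset.mem_biUnion]
    exact ⟨l, Finset.mem_univ l, (Set.Finite.mem_toFinset _).2 h⟩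
  by_contra hcon
  push Not at hcon
  -- so all values are at most the value of `a i`
  have h1 : ∀ l, Pool.Agent.H691R3.fv v (x l) ≤ Pool.Agent.H691R3.fv v (lin (a i) x) := by
    intro l
    have h2 : x l = ∑ i, c l i * lin (a i) x := by
      have h3 : ∑ i, c l i * lin (a i) x = ∑ j, (∑ i, c l i • a i) j * x j := by
        unfold lin
        simp only [Finset.mul_sum, Finset.sum_apply, Pi.smul_apply, smul_eq_mul, Finset.sum_mul]
        rw [Finset.sum_comm]
        refine Finset.sum_congr rfl fun j _ => Finset.sum_congr rfl fun i _ => ?_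
        ring
      rw [h3, hc l]
      simp [Pi.single_apply]
    rw [h2]
    have h3 : IsNonarchimedean (Pool.Agent.H691R3.fv v) := fun a b =>
      Pool.Agent.H691R3.fv_na v a b
    obtain ⟨j, hj⟩ : ∃ j, Pool.Agent.H691R3.fv v (∑ i, c l i * lin (a i) x) ≤
        Pool.Agent.H691R3.fv v (c l j * lin (a j) x) := by
      have hne : (Finset.univ : Finset (Fin r)).Nonempty := ⟨i, Finset.mem_univ i⟩
      obtain ⟨j, -, hj⟩ := h3.finset_image_add_of_nonempty (fun i => c l i * lin (a i) x) hne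
      exact ⟨j, hj⟩
    refine hj.trans ?_
    rw [map_mul]
    have h4 := hcon j
    have h5 := hv1 l j
    calc Pool.Agent.H691R3.fv v (c l j) * Pool.Agent.H691R3.fv v (lin (a j) x)
        ≤ 1 * Pool.Agent.H691R3.fv v (lin (a j) x) :=
          mul_le_mul_of_nonneg_right h5 ((Pool.Agent.H691R3.fv v).nonneg _)
      _ ≤ _ := by rw [one_mul]; exact h4
  have h2 : (⨆ l, Pool.Agent.H691R3.fv v (x l)) ≤ Pool.Agent.H691R3.fv v (lin (a i) x) :=
    ciSup_le h1
  have h3 : (⨆ l, Pool.Agent.H691R3.fv v (a i l)) ≤ 1 := ciSup_le (hv2 i)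
  have h4 : lam (Pool.Agent.Results.MP_9ec3f0_nt.HyperplaneArrangements.fv v) (a i) x ≤ 0 := by
    unfold Pool.Agent.Results.MP_9ec3f0_nt.HyperplaneArrangements.lam
    refine Real.log_nonpos ?_ ?_
    · refine div_nonneg (mul_nonneg ?_ ?_) ((Pool.Agent.H691R3.fv v).nonneg _)
      · exact Real.iSup_nonneg fun l => (Pool.Agent.H691R3.fv v).nonneg _
      · exact Real.iSup_nonneg fun l => (Pool.Agent.H691R3.fv v).nonneg _
    · have hpos : 0 < Pool.Agent.H691R3.fv v (lin (a i) x) := (Pool.Agent.H691R3.fv v).pos hi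
      have h5 : (⨆ l, Pool.Agent.H691R3.fv v (a i l)) * (⨆ l, Pool.Agent.H691R3.fv v (x l)) ≤
          1 * Pool.Agent.H691R3.fv v (lin (a i) x) :=
        mul_le_mul h3 h2 (Real.iSup_nonneg fun l => (Pool.Agent.H691R3.fv v).nonneg _) zero_le_one
      rw [one_mul] at h5
      exact (div_le_one hpos).2 h5
  linarith

/-- bounding the truncated counting function -/
lemma N1_le' {a : Fin r → Fin (n + 1) → K} (ha0 : ∀ i, a i ≠ 0)
    (S₀ : Finset (HeightOneSpectrum (𝓞 K)))
    (hS₀ : ∀ v ∉ S₀, ∀ x : Fin (n + 1) → K, x ≠ 0 →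
      ∀ i, lin (a i) x ≠ 0 →
      0 < lam (Pool.Agent.Results.MP_9ec3f0_nt.HyperplaneArrangements.fv v) (a i) x →
      ∃ j, Pool.Agent.H691R3.fv v (lin (a i) x) < Pool.Agent.H691R3.fv v (lin (a j) x))
    (x : Fin (n + 1) → K) (hx : x ≠ 0) (hl : ∀ i, lin (a i) x ≠ 0) (X : ℝ)
    (hX : ∀ R : Finset (HeightOneSpectrum (𝓞 K)),
      (∀ v ∈ R, ∃ i j, Pool.Agent.H691R3.fv v (lin (a i) x) <
        Pool.Agent.H691R3.fv v (lin (a j) x)) →
      ∑ v ∈ R, Real.log (Ideal.absNorm v.asIdeal) ≤ X) :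
    Pool.Agent.Results.MP_9ec3f0_nt.HyperplaneArrangements.N1 S₀ a x ≤ X := by
  have hfin : {v : HeightOneSpectrum (𝓞 K) | v ∉ S₀ ∧ ∃ i, 0 < lam
      (Pool.Agent.Results.MP_9ec3f0_nt.HyperplaneArrangements.fv v) (a i) x}.Finite := by
    refine (Set.finite_iUnion fun i =>
      Pool.Agent.W232.VA.lam_support (ha0 i) hx (hl i)).subset ?_
    rintro v ⟨-, i, hi⟩
    exact Set.mem_iUnion.2 ⟨i, hi.ne'⟩
  have h1 : Pool.Agent.Results.MP_9ec3f0_nt.HyperplaneArrangements.N1 S₀ a x =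
      ∑ v ∈ hfin.toFinset, Real.log (Ideal.absNorm v.asIdeal) := by
    unfold Pool.Agent.Results.MP_9ec3f0_nt.HyperplaneArrangements.N1
    rw [finsum_eq_sum_of_support_subset (s := hfin.toFinset)]
    · refine Finset.sum_congr rfl fun v hv => ?_
      exact if_pos ((Set.Finite.mem_toFinset hfin).1 hv)
    · intro v hv
      rw [Finset.mem_coe, Set.Finite.mem_toFinset]
      by_contra hc
      exact hv (if_neg hc)
  rw [h1]
  refine hX _ fun v hv => ?_
  obtain ⟨hvS, i, hi⟩ := (Set.Finite.mem_toFinset hfin).1 hv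
  obtain ⟨j, hj⟩ := hS₀ v hvS x hx i (hl i) hi
  exact ⟨i, j, hj⟩

/-- The exceptional points. -/
def EK (a : Fin r → Fin (n + 1) → K) (κ c B : ℝ) : Set (ℙ K (Fin (n + 1) → K)) :=
  {x | (∀ i, lin (a i) x.rep ≠ 0) ∧ x.mulHeight ≤ B ∧
    ∃ (m : ℕ) (L : Type) (_ : Field L) (_ : NumberField L) (_ : Algebra K L) (y : Fin r → L) (t : L)
      (S : Finset (HeightOneSpectrum (𝓞 K))),
      m ≠ 0 ∧ t ≠ 0 ∧ (∀ i, y i ^ m = t * algebraMap K L (lin (a i) x.rep)) ∧
        ld K L + ∑ v ∈ S, Real.log (Ideal.absNorm v.asIdeal) + c <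
          proxB S y + (hW a x.rep - κ * Real.log x.mulHeight - hB K y)}

theorem kum_main (hn : 1 ≤ n) (hr : 1 ≤ r) (a : Fin r → Fin (n + 1) → K) (ha : ∀ i, a i ≠ 0)
    (hspan : Submodule.span K (Set.range a) = ⊤)
    (κ c δ : ℝ) (hκ0 : 0 ≤ κ) (hκ : κ ≤ 1 / 2) (hδ : 0 < δ) :
    ∃ M : ℝ, ∀ B : ℝ, 1 ≤ B → (EK a κ c B).Finite ∧
      ((EK a κ c B).ncard : ℝ) ≤ M * B ^ ((n : ℝ) + 1 - κ + δ) := by
  obtain ⟨S₀, hS₀⟩ := exists_S0 a hspan
  obtain ⟨M, hM⟩ := (Pool.Agent.Results.MP_9ec3f0_nt.HyperplaneArrangements.result K n r hn hr a ha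
    S₀ κ hκ0 hκ).1 (-c) δ hδ
  refine ⟨M, fun B hB' => ?_⟩
  obtain ⟨h1, h2⟩ := hM B hB'
  have hsub : EK a κ c B ⊆
      Pool.Agent.Results.MP_9ec3f0_nt.HyperplaneArrangements.Exc S₀ a κ (-c) B := by
    rintro x ⟨hne, hBx, m, L, i1, i2, i3, y, t, S, hm, ht, hy, hv⟩
    refine ⟨hne, hBx, ?_⟩
    have hy0 : ∀ i, y i ≠ 0 := by
      intro i h
      have := hy i
      rw [h, zero_pow hm, eq_comm, mul_eq_zero, map_eq_zero] at this
      rcases this with h | h
      · exact ht h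
      · exact hne i h
    refine N1_le' ha S₀ hS₀ x.rep x.rep_nonzero hne _ fun R hR => ?_
    have h3 := keyB (by omega) m (fun i => lin (a i) x.rep) y hy0 t ht hy S (R \ S) (by
      intro v hv
      rw [Finset.mem_sdiff] at hv
      exact ⟨hv.2, hR v hv.1⟩)
    have h4 : ∑ v ∈ R, Real.log (Ideal.absNorm v.asIdeal) ≤
        ∑ v ∈ R \ S, Real.log (Ideal.absNorm v.asIdeal) +
          ∑ v ∈ S, Real.log (Ideal.absNorm v.asIdeal) := by
      have h5 : R ⊆ (R \ S) ∪ S := fun v hv => by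
        by_cases h : v ∈ S
        · exact Finset.mem_union_right _ h
        · exact Finset.mem_union_left _ (Finset.mem_sdiff.2 ⟨hv, h⟩)
      rw [← Finset.sum_union Finset.sdiff_disjoint]
      exact Finset.sum_le_sum_of_subset_of_nonneg h5 fun v _ _ => Real.log_natCast_nonneg _
    linarith
  refine ⟨h1.subset hsub, ?_⟩
  exact le_trans (Nat.cast_le.2 (Set.ncard_le_ncard hsub h1)) h2

end arr

end Pool.Agent.TH905.VF
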