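import Mathlib
import Pool.Agent.TH905.VF.Abs
import Pool.Agent.TH905.VF.Kum

/-!
# Vojta's inequality on the Kummer covers of all hyperplane arrangements

Let `a_0, …, a_{r-1}` be linear forms in `n + 1` variables over a number field `K` which span the
space of linear forms: an arbitrary essential arrangement of hyperplanes in `ℙ^n`, without any
condition on their intersections. Let `M → ℙ^n` be the blow-up of all the flats of the arrangement and
`D_M ⊂ M` the reduced preimage of the arrangement, a divisor with normal crossings (for the braid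
arrangement `M` is a space of stable pointed rational curves). For `m ≥ 1` let `X_m → M` be the
normalisation of `M` in the field generated by the `m`-th roots of all `a_i / a_j`. Locally `D_M` is
`z_1 ⋯ z_k = 0`, with `a_i / a_j` units times monomials, and these monomials generate all monomials;
so `X_m` is smooth with local coordinates `z_i^(1/m)`, and the reduced preimage `D` of `D_M` has
normal crossings (`n = 2`: Hirzebruch's surfaces, among them compact ball quotients). The points of
`X_m` off `D` over a number field `L` are the `P = (y_0 : … : y_{r-1})` such that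
`(y_0 ^ m : … : y_{r-1} ^ m) = (a_0(x) : … : a_{r-1}(x))` for some `x ∈ ℙ^n`.

Weil functions. At a place `v`, `max_i log (max_j |y_j| / |y_i|)` is one for `D`, and the largest sum of
local heights `log (|a_i| |x| / |a_i(x)|)` over a linearly independent subfamily of the arrangement is
one for `K_M + D_M + (n + 1) H`, `H` = hyperplane. As `K_{X_m} + D` is the pullback of `K_M + D_M`, the
height `h_K(P)` is the sum over all places of the latter, minus `(n + 1) h(x)`, minus `h_D(P)`.

We prove for all `x ∈ ℙ^n(K)` outside a set with `O(B ^ ([K : ℚ] (n + 1 - κ) + δ))` elements of height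
at most `B`, `0 ≤ κ ≤ 1 / 2`: for ALL `m ≥ 1`, ALL points `P` of `X_m` above `x` (of degree at most
`[K : ℚ] m ^ (r - 1)`) and ALL finite sets `S` of primes
`∑_{v ∈ S ∪ {∞}} λ_{D, v}(P) + h_K(P) + (n + 1 - κ) h(x) ≤ d(P) + ∑_{p ∈ S} log p + c`.

Proof: the truncated counting function of the arrangement over `K` is at most the logarithmic
discriminant of `P` plus the part of `h_D(P)` outside `S`, plus `∑_{p ∈ S} log p`. For the `x` with a
small truncated counting function see `HyperplaneArrangements` (MP_9ec3f0_nt), a starting file.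
-/

set_option autoImplicit false

namespace Pool.Agent.TH905.VF.KumAbs

open NumberField IsDedekindDomain LinearAlgebra.Projectivization

/-- The value of the linear form with coefficients `a` at `x`. -/
def lin {K : Type} [Field K] {n : ℕ} (a x : Fin (n + 1) → K) : K := ∑ j, a j * x j

/-- The local height of the hyperplane `a = 0` at `x` for an absolute value. -/
noncomputable def lam {K : Type} [Field K] {n : ℕ} (f : AbsoluteValue K ℝ)
    (a x : Fin (n + 1) → K) : ℝ :=
  Real.log ((⨆ j, f (a j)) * (⨆ j, f (x j)) / f (lin a x))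

/-- The largest sum of local heights over a linearly independent subfamily of the arrangement. -/
noncomputable def largest {K : Type} [Field K] {n r : ℕ} (f : AbsoluteValue K ℝ)
    (a : Fin r → Fin (n + 1) → K) (x : Fin (n + 1) → K) : ℝ :=
  ⨆ I : {I : Finset (Fin r) // LinearIndependent K (fun i : I => a i)}, ∑ i ∈ I.1, lam f (a i) x

/-- The absolute logarithmic height of a point of `ℙ^n(K)`. -/
noncomputable def height {K : Type} [Field K] [NumberField K] {n : ℕ}
    (x : ℙ K (Fin (n + 1) → K)) : ℝ := Real.log x.mulHeight / Module.finrank ℚ K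

/-- The height with respect to `K_M + D_M + (n + 1) H`. -/
noncomputable def logCanonical {K : Type} [Field K] [NumberField K] {n r : ℕ}
    (a : Fin r → Fin (n + 1) → K) (x : ℙ K (Fin (n + 1) → K)) : ℝ :=
  (∑ w : InfinitePlace K, (w.mult : ℝ) * largest w.1 a x.rep +
    ∑ᶠ v : HeightOneSpectrum (𝓞 K), largest (FinitePlace.mk v).1 a x.rep) / Module.finrank ℚ K

/-- The local height of `P = (y_0 : … : y_{r-1})` with respect to `D` for an absolute value. -/
noncomputable def weil {L : Type} [Field L] {r : ℕ} (f : AbsoluteValue L ℝ) (y : Fin r → L) : ℝ :=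
  ⨆ i, Real.log ((⨆ j, f (y j)) / f (y i))

/-- The height `h_D(P)`. -/
noncomputable def heightD {L : Type} [Field L] [NumberField L] {r : ℕ} (y : Fin r → L) : ℝ :=
  (∑ w : InfinitePlace L, (w.mult : ℝ) * weil w.1 y +
    ∑ᶠ w : HeightOneSpectrum (𝓞 L), weil (FinitePlace.mk w).1 y) / Module.finrank ℚ L

/-- The proximity function `∑_{v ∈ S ∪ {∞}} λ_{D, v}(P)`. The absolute values are normalised so that
the product formula holds: `|b|_w = N(w) ^ (- w(b))`. -/
noncomputable def proximity (S : Finset ℕ) {L : Type} [Field L] [NumberField L] {r : ℕ}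
    (y : Fin r → L) : ℝ :=
  (∑ w : InfinitePlace L, (w.mult : ℝ) * weil w.1 y +
    ∑ᶠ w ∈ {w : HeightOneSpectrum (𝓞 L) | ∃ p ∈ S, (p : 𝓞 L) ∈ w.asIdeal},
      weil (FinitePlace.mk w).1 y) / Module.finrank ℚ L

/-- The height `h_K(P)` with respect to the canonical divisor of `X_m`. -/
noncomputable def canonicalHeight {K L : Type} [Field K] [NumberField K] [Field L] [NumberField L]
    {n r : ℕ} (a : Fin r → Fin (n + 1) → K) (x : ℙ K (Fin (n + 1) → K)) (y : Fin r → L) : ℝ :=
  logCanonical a x - (n + 1) * height x - heightD y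

/-- The logarithmic discriminant `log |disc L| / [L : ℚ]`. -/
noncomputable def logDisc (L : Type) [Field L] [NumberField L] : ℝ :=
  Real.log |(discr L : ℝ)| / Module.finrank ℚ L

/-- The exceptional points `x ∈ ℙ^n(K)` off the arrangement, of height at most `log B`: for some
`m ≥ 1`, some number field `L` which contains `K`, some point `P` of `X_m` over `L` above `x` and some
finite set `S` of primes the inequality
`∑_{v ∈ S ∪ {∞}} λ_{D, v}(P) + h_K(P) + (n + 1 - κ) h(x) ≤ d(L) + ∑_{p ∈ S} log p + c` fails. -/
def exceptional {K : Type} [Field K] [NumberField K] {n r : ℕ} (a : Fin r → Fin (n + 1) → K)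
    (κ c B : ℝ) : Set (ℙ K (Fin (n + 1) → K)) :=
  {x | (∀ i, lin (a i) x.rep ≠ 0) ∧ Real.exp (height x) ≤ B ∧
    ∃ (m : ℕ) (L : Type) (_ : Field L) (_ : NumberField L) (_ : Algebra K L) (y : Fin r → L) (t : L)
      (S : Finset ℕ), 1 ≤ m ∧ t ≠ 0 ∧ (∀ i, y i ^ m = t * algebraMap K L (lin (a i) x.rep)) ∧
        (∀ p ∈ S, p.Prime) ∧
        logDisc L + ∑ p ∈ S, Real.log p + c <
          proximity S y + canonicalHeight a x y + (n + 1 - κ) * height x}

/-- **Vojta's inequality with proximity and discriminant on the Kummer covers of all hyperplane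
arrangements.** Let `K` be a number field, `n ≥ 1`, and let `a_0, …, a_{r-1}` be nonzero linear forms
in `n + 1` variables over `K` which span the space of linear forms. Let `0 ≤ κ ≤ 1 / 2`, `c` real and
`δ > 0`. For all but `M B ^ ([K : ℚ] (n + 1 - κ) + δ)` of the points `x ∈ ℙ^n(K)` of height at most `B`
off the arrangement, for ALL `m ≥ 1`, ALL points `P` of the Kummer cover `X_m` above `x`, over any
number field `L`, and ALL finite sets `S` of primes
`∑_{v ∈ S ∪ {∞}} λ_{D, v}(P) + h_K(P) + (n + 1 - κ) h(x) ≤ d(L) + ∑_{p ∈ S} log p + c`. -/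
theorem result (K : Type) [Field K] [NumberField K] (n r : ℕ) (hn : 1 ≤ n)
    (a : Fin r → Fin (n + 1) → K) (ha : ∀ i, a i ≠ 0)
    (hspan : Submodule.span K (Set.range a) = ⊤)
    (κ c δ : ℝ) (hκ0 : 0 ≤ κ) (hκ : κ ≤ 1 / 2) (hδ : 0 < δ) :
    ∃ M : ℝ, ∀ B : ℝ, 1 ≤ B → (exceptional a κ c B).Finite ∧
      ((exceptional a κ c B).ncard : ℝ) ≤
        M * B ^ ((Module.finrank ℚ K : ℝ) * ((n : ℝ) + 1 - κ) + δ) := by
  classical
  have hr : 1 ≤ r := by
    by_contra h
    have hr0 : r = 0 := by omega
    subst hr0
    rw [Set.range_eq_empty, Submodule.span_empty] at hspan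
    have h1 : (Pi.single 0 1 : Fin (n + 1) → K) ∈ (⊤ : Submodule K (Fin (n + 1) → K)) :=
      Submodule.mem_top
    rw [← hspan, Submodule.mem_bot] at h1
    have h2 := congrFun h1 0
    simp at h2
  have hd : (0 : ℝ) < Module.finrank ℚ K := by exact_mod_cast Module.finrank_pos
  set d : ℝ := (Module.finrank ℚ K : ℝ) with hdd
  obtain ⟨M, hM⟩ := Pool.Agent.TH905.VF.kum_main hn hr a ha hspan κ
    (d * c + Real.log |(discr K : ℝ)|) (δ / d) hκ0 hκ (by positivity)
  refine ⟨M, fun B hB => ?_⟩
  have hB0 : 0 < B := by linarith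
  obtain ⟨h1, h2⟩ := hM (B ^ d) (Real.one_le_rpow hB hd.le)
  have hsub : exceptional a κ c B ⊆ Pool.Agent.TH905.VF.EK a κ
      (d * c + Real.log |(discr K : ℝ)|) (B ^ d) := by
    rintro x ⟨hne, hB', m, L, i1, i2, i3, y, t, S, hm, ht, hy, hS, hv⟩
    refine ⟨hne, ?_, m, L, i1, i2, i3, y, t,
      (Pool.Agent.TH905.VF.above_finite K S hS).toFinset, by omega, ht, hy, ?_⟩
    · have h3 := hB'
      rw [← Real.le_log_iff_exp_le hB0] at h3
      unfold height at h3
      rw [← hdd, div_le_iff₀ hd, mul_comm, ← Real.log_rpow hB0] at h3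
      have hpos : 0 < x.mulHeight := lt_of_lt_of_le one_pos x.one_le_mulHeight
      exact (Real.log_le_log_iff hpos (Real.rpow_pos_of_pos hB0 _)).1 h3
    · have hL : (0 : ℝ) < Module.finrank K L := Pool.Agent.TH905.VF.finrank_pos'
      have htow : (Module.finrank ℚ L : ℝ) = d * Module.finrank K L := by
        rw [hdd]
        exact_mod_cast (Module.finrank_mul_finrank ℚ K L).symm
      have h3 := Pool.Agent.TH905.VF.sum_above K S hS
        (Pool.Agent.TH905.VF.above_finite K S hS).toFinset fun v hv =>
          (Set.Finite.mem_toFinset (Pool.Agent.TH905.VF.above_finite K S hS)).1 hv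
      have h4 : Pool.Agent.Results.MP_9ec3f0_nt.HyperplaneArrangements.hW a x.rep =
          d * logCanonical a x := by
        have : logCanonical a x =
          Pool.Agent.Results.MP_9ec3f0_nt.HyperplaneArrangements.hW a x.rep / d := rfl
        rw [this]
        field_simp
      have h5 : Pool.Agent.TH905.VF.proxB
          (Pool.Agent.TH905.VF.above_finite K S hS).toFinset y = d * proximity S y := by
        unfold Pool.Agent.TH905.VF.proxB proximity
        rw [Pool.Agent.TH905.VF.above_eq S hS, htow]
        have e1 : ∀ w : HeightOneSpectrum (𝓞 L),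
            Pool.Agent.TH905.VF.wm (Pool.Agent.H691R3.fv w) y = weil (FinitePlace.mk w).1 y :=
          fun w => rfl
        have e2 : ∀ w : InfinitePlace L, Pool.Agent.TH905.VF.wm w.1 y = weil w.1 y := fun w => rfl
        simp only [e1, e2]
        rw [mul_div_assoc', mul_div_mul_left _ _ hd.ne']
      have h6 : Pool.Agent.TH905.VF.ld K L = d * logDisc L - Real.log |(discr K : ℝ)| := by
        unfold Pool.Agent.TH905.VF.ld logDisc
        rw [htow]
        field_simp
      have h7 : Pool.Agent.TH905.VF.hB K y = d * heightD y := by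
        unfold Pool.Agent.TH905.VF.hB heightD
        rw [htow]
        have e1 : ∀ w : HeightOneSpectrum (𝓞 L),
            Pool.Agent.TH905.VF.wm (Pool.Agent.H691R3.fv w) y = weil (FinitePlace.mk w).1 y :=
          fun w => rfl
        have e2 : ∀ w : InfinitePlace L, Pool.Agent.TH905.VF.wm w.1 y = weil w.1 y := fun w => rfl
        simp only [e1, e2]
        rw [mul_div_assoc', mul_div_mul_left _ _ hd.ne']
      have h8 : Real.log x.mulHeight = d * height x := by
        unfold height
        rw [← hdd]
        field_simp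
      rw [h4, h5, h6, h7, h8]
      unfold canonicalHeight at hv
      have h9 := mul_lt_mul_of_pos_left hv hd
      rw [← hdd] at h3
      linarith
  refine ⟨h1.subset hsub, ?_⟩
  refine le_trans (Nat.cast_le.2 (Set.ncard_le_ncard hsub h1)) (h2.trans (le_of_eq ?_))
  rw [← Real.rpow_mul hB0.le]
  congr 2
  field_simp

end Pool.Agent.TH905.VF.KumAbs
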