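import Pool.Agent.TH905.VF.Mono
import Pool.Agent.TH905.VF.KumAbs

set_option autoImplicit false

/-!
Monomial ideals on the Kummer covers of hyperplane arrangements.
-/

namespace Pool.Agent.TH905.VF

open NumberField IsDedekindDomain Height Pool.Agent.H691R3
open scoped Classical

section gen

variable {ι : Type*} [Fintype ι]

/-- the Newton polyhedron -/
def newtonG (E : Finset (ι → ℕ)) : Set (ι → ℝ) :=
  {t | ∃ s ∈ convexHull ℝ ((fun (e : ι → ℕ) i => (e i : ℝ)) '' (E : Set (ι → ℕ))), ∀ i, s i ≤ t i}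

lemma ideal_le (lam : ι → ℝ) (h0 : ∀ i, 0 ≤ lam i) (E : Finset (ι → ℕ)) (hE : E.Nonempty) :
    (⨅ e : E, ∑ i, (e.1 i : ℝ) * lam i) -
      (⨅ u : {u : ι → ℕ | (fun i => (u i : ℝ) + 1) ∈ newtonG E}, ∑ i, (u.1 i : ℝ) * lam i) ≤
      ∑ i, lam i := by
  obtain ⟨e0, he0⟩ := hE
  have : Nonempty {u : ι → ℕ | (fun i => (u i : ℝ) + 1) ∈ newtonG E} := by
    refine ⟨⟨e0, ?_⟩⟩
    refine ⟨fun i => (e0 i : ℝ), subset_convexHull ℝ _ ⟨e0, he0, rfl⟩, fun i => ?_⟩
    show (e0 i : ℝ) ≤ (e0 i : ℝ) + 1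
    linarith
  set I0 : ℝ := ⨅ e : E, ∑ i, (e.1 i : ℝ) * lam i with hI0
  have hconv : Convex ℝ {t : ι → ℝ | I0 ≤ ∑ i, t i * lam i} := by
    intro s hs t ht α β hα hβ hαβ
    show I0 ≤ ∑ i, (α • s + β • t) i * lam i
    have e1 : ∑ i, (α • s + β • t) i * lam i =
        α * ∑ i, s i * lam i + β * ∑ i, t i * lam i := by
      rw [Finset.mul_sum, Finset.mul_sum, ← Finset.sum_add_distrib]
      refine Finset.sum_congr rfl fun i _ => ?_
      simp only [Pi.add_apply, Pi.smul_apply, smul_eq_mul]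
      ring
    rw [e1]
    have h1 : I0 ≤ ∑ i, s i * lam i := hs
    have h2 : I0 ≤ ∑ i, t i * lam i := ht
    calc I0 = α * I0 + β * I0 := by rw [← add_mul, hαβ, one_mul]
      _ ≤ _ := add_le_add (mul_le_mul_of_nonneg_left h1 hα) (mul_le_mul_of_nonneg_left h2 hβ)
  have hbdd : BddBelow (Set.range fun e : E => ∑ i, (e.1 i : ℝ) * lam i) :=
    (Set.finite_range _).bddBelow
  have hsub : (fun (e : ι → ℕ) i => (e i : ℝ)) '' (E : Set (ι → ℕ)) ⊆
      {t : ι → ℝ | I0 ≤ ∑ i, t i * lam i} := by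
    rintro _ ⟨e, he, rfl⟩
    exact ciInf_le hbdd (⟨e, he⟩ : E)
  have hhull := convexHull_min hsub hconv
  have h3 : I0 - ∑ i, lam i ≤
      ⨅ u : {u : ι → ℕ | (fun i => (u i : ℝ) + 1) ∈ newtonG E}, ∑ i, (u.1 i : ℝ) * lam i := by
    refine le_ciInf fun u => ?_
    obtain ⟨s, hs, hsu⟩ := u.2
    have h4 : I0 ≤ ∑ i, s i * lam i := hhull hs
    have h5 : ∑ i, s i * lam i ≤ ∑ i, ((u.1 i : ℝ) + 1) * lam i :=
      Finset.sum_le_sum fun i _ => mul_le_mul_of_nonneg_right (hsu i) (h0 i)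
    have h6 : ∑ i, ((u.1 i : ℝ) + 1) * lam i = ∑ i, (u.1 i : ℝ) * lam i + ∑ i, lam i := by
      rw [← Finset.sum_add_distrib]
      refine Finset.sum_congr rfl fun i _ => ?_
      ring
    linarith
  linarith

end gen

section comb

open MeasureTheory

/-- The lengths of the level sets of a nonnegative function add up to at most its maximum. -/
lemma sum_level_le {r : ℕ} (w : Fin r → ℝ) (hw : ∀ i, 0 ≤ w i) :
    ∑ F : Finset (Fin r), max 0 ((⨅ i : F, w i) - ⨆ i : {i // i ∉ F}, w i) ≤ ⨆ i, w i := by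
  set J : Finset (Fin r) → Set ℝ := fun F =>
    Set.Ioc (⨆ i : {i // i ∉ F}, w i) (⨅ i : F, w i) with hJ
  have hbA : ∀ F : Finset (Fin r), BddAbove (Set.range fun i : {i // i ∉ F} => w i) :=
    fun F => (Set.finite_range _).bddAbove
  have hbB : ∀ F : Finset (Fin r), BddBelow (Set.range fun i : F => w i) :=
    fun F => (Set.finite_range _).bddBelow
  have hlev : ∀ F t, t ∈ J F → ∀ i, i ∈ F ↔ t ≤ w i := by
    intro F t ht i
    constructor
    · intro hi
      exact ht.2.trans (ciInf_le (hbB F) (⟨i, hi⟩ : F))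
    · intro hi
      by_contra hc
      have h1 := le_ciSup (hbA F) (⟨i, hc⟩ : {i // i ∉ F})
      exact absurd (lt_of_lt_of_le ht.1 hi) (not_lt.2 h1)
  have hdisj : (↑(Finset.univ : Finset (Finset (Fin r))) : Set _).PairwiseDisjoint J := by
    intro F _ G _ hFG
    refine Set.disjoint_left.2 fun t hF hG => hFG ?_
    ext i
    rw [hlev F t hF, hlev G t hG]
  have hsub : ⋃ F ∈ (Finset.univ : Finset (Finset (Fin r))), J F ⊆ Set.Ioc 0 (⨆ i, w i) := by
    intro t ht
    simp only [Finset.mem_univ, Set.iUnion_true, Set.mem_iUnion] at ht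
    obtain ⟨F, hF⟩ := ht
    have h1 : 0 ≤ ⨆ i : {i // i ∉ F}, w i := Real.iSup_nonneg fun i => hw i
    have h2 : 0 < t := lt_of_le_of_lt h1 hF.1
    refine ⟨h2, ?_⟩
    have hne : F.Nonempty := by
      by_contra hc
      rw [Finset.not_nonempty_iff_eq_empty] at hc
      subst hc
      have h3 := hF.2
      have : IsEmpty ((∅ : Finset (Fin r)) : Type) := by
        refine ⟨fun i => ?_⟩
        exact absurd i.2 (Finset.notMem_empty _)
      rw [Real.iInf_of_isEmpty] at h3
      linarith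
    obtain ⟨i, hi⟩ := hne
    exact ((hlev F t hF i).1 hi).trans (le_ciSup (Set.finite_range w).bddAbove i)
  have h1 : volume (⋃ F ∈ (Finset.univ : Finset (Finset (Fin r))), J F) =
      ∑ F : Finset (Fin r), volume (J F) :=
    measure_biUnion_finset hdisj fun F _ => measurableSet_Ioc
  have h2 := measure_mono (μ := volume) hsub
  rw [h1] at h2
  simp only [hJ, Real.volume_Ioc, sub_zero] at h2
  have hW : 0 ≤ ⨆ i, w i := Real.iSup_nonneg hw
  have h3 : ∀ x : ℝ, ENNReal.ofReal x = ENNReal.ofReal (max 0 x) := by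
    intro x
    rcases le_total 0 x with h | h
    · rw [max_eq_right h]
    · rw [max_eq_left h, ENNReal.ofReal_of_nonpos h, ENNReal.ofReal_zero]
  have h4 : ∑ F : Finset (Fin r), ENNReal.ofReal ((⨅ i : F, w i) - ⨆ i : {i // i ∉ F}, w i) =
      ENNReal.ofReal (∑ F : Finset (Fin r), max 0 ((⨅ i : F, w i) - ⨆ i : {i // i ∉ F}, w i)) := by
    rw [ENNReal.ofReal_sum_of_nonneg fun F _ => le_max_left _ _]
    exact Finset.sum_congr rfl fun F _ => h3 _
  rw [h4] at h2
  exact (ENNReal.ofReal_le_ofReal_iff hW).1 h2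

end comb

section loc

variable {L : Type*} [Field L]

/-- the local height with respect to the component over the flat `F` -/
noncomputable def comp {r : ℕ} (f : AbsoluteValue L ℝ) (y : Fin r → L) (F : Finset (Fin r)) : ℝ :=
  max 0 ((⨅ i : F, lc f y i) - ⨆ i : {i // i ∉ F}, lc f y i)

/-- `λ_I - λ_{I⁻}` for the monomial ideal `I` in the components over the sets with `p`. -/
noncomputable def dif {r : ℕ} (p : Finset (Fin r) → Prop) [Fintype {F : Finset (Fin r) // p F}] (f : AbsoluteValue L ℝ) (y : Fin r → L)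
    (E : Finset ({F : Finset (Fin r) // p F} → ℕ)) : ℝ :=
  (⨅ e : E, ∑ F : {F : Finset (Fin r) // p F}, (e.1 F : ℝ) * comp f y F) -
    ⨅ u : {u : {F : Finset (Fin r) // p F} → ℕ | (fun F => (u F : ℝ) + 1) ∈ newtonG E},
      ∑ F : {F : Finset (Fin r) // p F}, (u.1 F : ℝ) * comp f y F

lemma dif_le [NumberField L] {r : ℕ} (p : Finset (Fin r) → Prop)
    [i1 : Fintype {F : Finset (Fin r) // p F}] (f : AbsoluteValue L ℝ)
    (y : Fin r → L) (hy : ∀ i, y i ≠ 0) (E : Finset ({F : Finset (Fin r) // p F} → ℕ))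
    (hE : E.Nonempty) : dif p f y E ≤ wm f y := by
  have h1 := ideal_le (ι := {F : Finset (Fin r) // p F})
    (fun F : {F : Finset (Fin r) // p F} => comp f y F)
    (fun F => le_max_left _ _) E hE
  have e1 : i1 = Subtype.fintype p := Subsingleton.elim _ _
  subst e1
  have h2 := sum_level_le (fun i => lc f y i) fun i => term_nonneg f y hy i
  have h3 : ∑ F : {F : Finset (Fin r) // p F}, comp f y F ≤ ∑ F : Finset (Fin r), comp f y F := by
    have h4 := Fintype.sum_subtype_add_sum_subtype p (fun F => comp f y F)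
    have h5 : 0 ≤ ∑ F : {F : Finset (Fin r) // ¬ p F}, comp f y F :=
      Finset.sum_nonneg fun F _ => le_max_left _ _
    linarith
  exact h1.trans (h3.trans h2)

end loc

end Pool.Agent.TH905.VF
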