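import Pool.Agent.TH905.VF.Stk

set_option autoImplicit false

/-!
Monomial ideals on Fermat intersections.
-/

namespace Pool.Agent.TH905.VF

open NumberField IsDedekindDomain Height Pool.Agent.H691R3 LinearAlgebra.Projectivization
open scoped Classical

section ideal

variable {L : Type*} [Field L]

/-- the local height with respect to the `i`-th coordinate hyperplane -/
noncomputable def lc {q : ℕ} (f : AbsoluteValue L ℝ) (y : Fin q → L) (i : Fin q) : ℝ :=
  Real.log ((⨆ j, f (y j)) / f (y i))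

/-- the Newton polyhedron -/
def newton {q : ℕ} (E : Finset (Fin q → ℕ)) : Set (Fin q → ℝ) :=
  {t | ∃ s ∈ convexHull ℝ ((fun (e : Fin q → ℕ) i => (e i : ℝ)) '' (E : Set (Fin q → ℕ))),
    ∀ i, s i ≤ t i}

/-- the local height with respect to the monomial ideal -/
noncomputable def lamI {q : ℕ} (f : AbsoluteValue L ℝ) (y : Fin q → L) (E : Finset (Fin q → ℕ)) : ℝ :=
  ⨅ e : E, ∑ i, (e.1 i : ℝ) * lc f y i

/-- the local height with respect to `I⁻` -/
noncomputable def lamM {q : ℕ} (f : AbsoluteValue L ℝ) (y : Fin q → L) (E : Finset (Fin q → ℕ)) : ℝ :=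
  ⨅ u : {u : Fin q → ℕ | (fun i => (u i : ℝ) + 1) ∈ newton E}, ∑ i, (u.1 i : ℝ) * lc f y i

lemma lamI_le [NumberField L] {q : ℕ} (f : AbsoluteValue L ℝ) (y : Fin q → L) (hy : ∀ i, y i ≠ 0)
    (E : Finset (Fin q → ℕ)) (hE : E.Nonempty) : lamI f y E - lamM f y E ≤ loc f y := by
  have h0 : ∀ i, 0 ≤ lc f y i := fun i => term_nonneg f y hy i
  obtain ⟨e0, he0⟩ := hE
  have : Nonempty {u : Fin q → ℕ | (fun i => (u i : ℝ) + 1) ∈ newton E} := by
    refine ⟨⟨e0, ?_⟩⟩
    refine ⟨fun i => (e0 i : ℝ), subset_convexHull ℝ _ ⟨e0, he0, rfl⟩, fun i => ?_⟩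
    show (e0 i : ℝ) ≤ (e0 i : ℝ) + 1
    linarith
  have hconv : Convex ℝ {t : Fin q → ℝ | lamI f y E ≤ ∑ i, t i * lc f y i} := by
    intro s hs t ht α β hα hβ hαβ
    show lamI f y E ≤ ∑ i, (α • s + β • t) i * lc f y i
    have e1 : ∑ i, (α • s + β • t) i * lc f y i =
        α * ∑ i, s i * lc f y i + β * ∑ i, t i * lc f y i := by
      rw [Finset.mul_sum, Finset.mul_sum, ← Finset.sum_add_distrib]
      refine Finset.sum_congr rfl fun i _ => ?_
      simp only [Pi.add_apply, Pi.smul_apply, smul_eq_mul]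
      ring
    rw [e1]
    have h1 : lamI f y E ≤ ∑ i, s i * lc f y i := hs
    have h2 : lamI f y E ≤ ∑ i, t i * lc f y i := ht
    calc lamI f y E = α * lamI f y E + β * lamI f y E := by rw [← add_mul, hαβ, one_mul]
      _ ≤ _ := add_le_add (mul_le_mul_of_nonneg_left h1 hα) (mul_le_mul_of_nonneg_left h2 hβ)
  have hbdd : BddBelow (Set.range fun e : E => ∑ i, (e.1 i : ℝ) * lc f y i) :=
    (Set.finite_range _).bddBelow
  have hsub : (fun (e : Fin q → ℕ) i => (e i : ℝ)) '' (E : Set (Fin q → ℕ)) ⊆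
      {t : Fin q → ℝ | lamI f y E ≤ ∑ i, t i * lc f y i} := by
    rintro _ ⟨e, he, rfl⟩
    exact ciInf_le hbdd (⟨e, he⟩ : E)
  have hhull := convexHull_min hsub hconv
  have h3 : lamI f y E - loc f y ≤ lamM f y E := by
    refine le_ciInf fun u => ?_
    obtain ⟨s, hs, hsu⟩ := u.2
    have h4 : lamI f y E ≤ ∑ i, s i * lc f y i := hhull hs
    have h5 : ∑ i, s i * lc f y i ≤ ∑ i, ((u.1 i : ℝ) + 1) * lc f y i :=
      Finset.sum_le_sum fun i _ => mul_le_mul_of_nonneg_right (hsu i) (h0 i)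
    have h6 : ∑ i, ((u.1 i : ℝ) + 1) * lc f y i = ∑ i, (u.1 i : ℝ) * lc f y i + loc f y := by
      unfold loc
      rw [← Finset.sum_add_distrib]
      refine Finset.sum_congr rfl fun i _ => ?_
      unfold lc
      ring
    linarith
  linarith

end ideal

section main

open Pool.Agent.H57R3.VJ (lin GenPos N1 sv Meets bad_exists)
open Pool.Agent.Results.MP_9ec3f0_nt.HyperplaneExceptions (expo Exc)

/-- the proximity function of the pair of ideals -/
noncomputable def proxI {k L : Type*} [Field k] [NumberField k] [Field L] [NumberField L]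
    [Algebra k L] {q : ℕ} (S : Finset (HeightOneSpectrum (𝓞 k))) (y : Fin q → L)
    (E : Finset (Fin q → ℕ)) : ℝ :=
  (∑ w : InfinitePlace L, (w.mult : ℝ) * (lamI w.1 y E - lamM w.1 y E) +
    ∑ᶠ w ∈ {w : HeightOneSpectrum (𝓞 L) | ∃ v ∈ S, w.asIdeal.LiesOver v.asIdeal},
      (lamI (fv w) y E - lamM (fv w) y E)) / Module.finrank k L

lemma proxI_le {k L : Type*} [Field k] [NumberField k] [Field L] [NumberField L]
    [Algebra k L] {q : ℕ} (S : Finset (HeightOneSpectrum (𝓞 k))) (y : Fin q → L)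
    (hy : ∀ i, y i ≠ 0) (E : Finset (Fin q → ℕ)) (hE : E.Nonempty) : proxI S y E ≤ prox S y := by
  have hL := finrank_pos' (k := k) (L := L)
  rw [prox_eq]
  unfold proxI
  rw [finsum_mem_eq_finite_toFinset_sum _ (over_finite (L := L) S)]
  refine div_le_div_of_nonneg_right (add_le_add ?_ ?_) hL.le
  · exact Finset.sum_le_sum fun w _ =>
      mul_le_mul_of_nonneg_left (lamI_le w.1 y hy E hE) (Nat.cast_nonneg _)
  · exact Finset.sum_le_sum fun w _ => lamI_le (fv w) y hy E hE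

/-- the exceptional points -/
def EM {k : Type} [Field k] [NumberField k] {n q : ℕ}
    (a : Fin q → Fin (n + 1) → k) (θ c B : ℝ) : Set (ℙ k (Fin (n + 1) → k)) :=
  {P | (∀ i, lin (a i) P.rep ≠ 0) ∧ P.mulHeight ≤ B ∧
    ∃ (m : ℕ) (L : Type) (_ : Field L) (_ : NumberField L) (_ : Algebra k L) (y : Fin q → L) (t : L)
      (E : Finset (Fin q → ℕ)) (S : Finset (HeightOneSpectrum (𝓞 k))),
      m ≠ 0 ∧ t ≠ 0 ∧ (∀ i, y i ^ m = t * algebraMap k L (lin (a i) P.rep)) ∧ E.Nonempty ∧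
      ld k L + ∑ v ∈ S, Real.log (Ideal.absNorm v.asIdeal) + c <
        (θ * m - q) * ht k y + proxI S y E}

theorem mono_main (k : Type) [Field k] [NumberField k] (n q : ℕ) (hn : 1 ≤ n) (hq : n + 1 ≤ q)
    (a : Fin q → Fin (n + 1) → k)
    (ha : ∀ I : Finset (Fin q), I.card = n + 1 → LinearIndependent k (fun i : I => a i))
    (θ c δ : ℝ) (hθ : 0 ≤ θ) (hδ : 0 < δ) :
    ∃ M : ℝ, ∀ B : ℝ, 1 ≤ B →
      (EM a θ c B).Finite ∧ ((EM a θ c B).ncard : ℝ) ≤ M * B ^ (expo n q θ + δ) := by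
  have ha0 : ∀ i, a i ≠ 0 := GenPos.ne_zero ha hq
  obtain ⟨S0, hS, hs1, hs2⟩ := bad_exists (a := a) ha ha0 ∅
  -- the height of the values
  have hne : Nonempty (Fin (n + 1)) := ⟨0⟩
  obtain ⟨Ca, hCa⟩ : ∃ Ca : ℝ, ∀ x : Fin (n + 1) → k,
      logHeight (fun i => lin (a i) x) ≤ Ca + logHeight x := by
    refine ⟨totalWeight k * Real.log (Nat.card (Fin (n + 1))) +
      logHeight (fun p : Fin q × Fin (n + 1) => a p.1 p.2), fun x => ?_⟩
    exact logHeight_linearMap_apply_le (fun p : Fin q × Fin (n + 1) => a p.1 p.2) x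
  obtain ⟨-, M, hM⟩ := Pool.Agent.Results.MP_9ec3f0_nt.HyperplaneExceptions.result k n q hn hq a ha
    S0 θ (θ * Ca - c) δ hθ hδ
  refine ⟨M, fun B hB => ?_⟩
  obtain ⟨h1, h2⟩ := hM B hB
  have hsub : EM a θ c B ⊆ Exc S0 a θ (θ * Ca - c) B := by
    rintro P ⟨hl, hB', m, L, _, _, _, y, t, E, S, hm, ht', hy, hE, hv⟩
    refine ⟨hl, hB', ?_⟩
    have hP0 : P.rep ≠ 0 := P.rep_nonzero
    have hyne : ∀ i, y i ≠ 0 := by
      intro i h0
      have h3 := hy i
      rw [h0, zero_pow hm] at h3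
      have h4 : algebraMap k L (lin (a i) P.rep) ≠ 0 := by
        rw [Ne, map_eq_zero]
        exact hl i
      exact mul_ne_zero ht' h4 h3.symm
    have hprox := proxI_le S y hyne E hE
    refine N1_le hq ha0 S0 hs1 hs2 P.rep hP0 hl _ fun R hR => ?_
    have h3 := key' (k := k) (by omega) m hm (fun i => lin (a i) P.rep) y hyne t ht' hy S (R \ S)
      (fun v hv' => ⟨(Finset.mem_sdiff.1 hv').2, (hR v (Finset.mem_sdiff.1 hv').1).2⟩)
    have h8 : ∑ v ∈ R, Real.log (Ideal.absNorm v.asIdeal) ≤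
        ∑ v ∈ R \ S, Real.log (Ideal.absNorm v.asIdeal) +
          ∑ v ∈ S, Real.log (Ideal.absNorm v.asIdeal) := by
      have h5 : R ⊆ (R \ S) ∪ S := fun v hv => by
        by_cases h : v ∈ S
        · exact Finset.mem_union_right _ h
        · exact Finset.mem_union_left _ (Finset.mem_sdiff.2 ⟨hv, h⟩)
      rw [← Finset.sum_union Finset.sdiff_disjoint]
      exact Finset.sum_le_sum_of_subset_of_nonneg h5 fun v _ _ => Real.log_natCast_nonneg _
    have h4 := ht_pow (k := k) m (fun i => lin (a i) P.rep) y t ht' hy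
    have h5 := hCa P.rep
    have h6 : Real.log P.mulHeight = logHeight P.rep := by
      rw [rep_height, logHeight_eq_log_mulHeight]
    rw [h6]
    have h7 : θ * (m * ht k y) ≤ θ * (Ca + logHeight P.rep) := by
      rw [h4]
      exact mul_le_mul_of_nonneg_left h5 hθ
    nlinarith
  refine ⟨h1.subset hsub, le_trans ?_ h2⟩
  exact_mod_cast Set.ncard_le_ncard hsub h1

end main

end Pool.Agent.TH905.VF
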