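import Pool.Agent.TH905.VF.Core
import Pool.Agent.H57R3.VJ.L

set_option autoImplicit false

/-!
The truncated counting function and the proximity function.
-/

namespace Pool.Agent.TH905.VF

open NumberField IsDedekindDomain Height Pool.Agent.H691R3
open scoped Classical

section defs

variable (k : Type*) {L : Type*} [Field k] [NumberField k] [Field L] [NumberField L] [Algebra k L]

/-- the height relative to `k` -/
noncomputable def ht {q : ℕ} (y : Fin q → L) : ℝ := logHeight y / Module.finrank k L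

/-- the logarithmic discriminant of `L` over `k` -/
noncomputable def ld (L : Type*) [Field L] [NumberField L] [Algebra k L] : ℝ :=
  Real.log |(discr L : ℝ)| / Module.finrank k L - Real.log |(discr k : ℝ)|

variable {k}

/-- the proximity function of the divisor of the coordinates -/
noncomputable def prox {q : ℕ} (S : Finset (HeightOneSpectrum (𝓞 k))) (y : Fin q → L) : ℝ :=
  (∑ w : InfinitePlace L, (w.mult : ℝ) * loc w.1 y +
    ∑ᶠ w ∈ {w : HeightOneSpectrum (𝓞 L) | ∃ v ∈ S, w.asIdeal.LiesOver v.asIdeal}, loc (fv w) y) /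
    Module.finrank k L

end defs

section

variable {k L : Type*} [Field k] [NumberField k] [Field L] [NumberField L] [Algebra k L]

lemma finrank_pos' : (0 : ℝ) < Module.finrank k L := by exact_mod_cast Module.finrank_pos

lemma over_finite (S : Finset (HeightOneSpectrum (𝓞 k))) :
    {w : HeightOneSpectrum (𝓞 L) | ∃ v ∈ S, w.asIdeal.LiesOver v.asIdeal}.Finite := by
  have h : {w : HeightOneSpectrum (𝓞 L) | ∃ v ∈ S, w.asIdeal.LiesOver v.asIdeal} =
      ⋃ v ∈ S, {w : HeightOneSpectrum (𝓞 L) | w.asIdeal.LiesOver v.asIdeal} := by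
    ext w
    simp
  rw [h]
  refine Set.Finite.biUnion S.finite_toSet fun v _ => ?_
  have hm : v.asIdeal.IsMaximal := v.isMaximal
  have h2 : ((v.asIdeal.primesOver (𝓞 L))).Finite := IsDedekindDomain.primesOver_finite v.asIdeal _
  refine Set.Finite.of_finite_image (f := HeightOneSpectrum.asIdeal) (h2.subset ?_) ?_
  · rintro _ ⟨w, hw, rfl⟩
    exact ⟨w.isPrime, hw⟩
  · intro w _ w' _ h
    exact HeightOneSpectrum.ext h

lemma prox_eq {q : ℕ} (S : Finset (HeightOneSpectrum (𝓞 k))) (y : Fin q → L) :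
    prox S y = (∑ w : InfinitePlace L, (w.mult : ℝ) * loc w.1 y +
      ∑ w ∈ (over_finite (L := L) S).toFinset, loc (fv w) y) / Module.finrank k L := by
  unfold prox
  rw [finsum_mem_eq_finite_toFinset_sum _ (over_finite (L := L) S)]

lemma prox_nonneg {q : ℕ} (S : Finset (HeightOneSpectrum (𝓞 k))) (y : Fin q → L)
    (hy : ∀ i, y i ≠ 0) : 0 ≤ prox S y := by
  rw [prox_eq]
  refine div_nonneg (add_nonneg (Finset.sum_nonneg fun w _ => mul_nonneg (Nat.cast_nonneg _)
    (loc_nonneg _ y hy)) (Finset.sum_nonneg fun w _ => loc_nonneg _ y hy)) (Nat.cast_nonneg _)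

/-- the key inequality in normalised form -/
theorem key' {q : ℕ} (hq : 0 < q) (m : ℕ) (hm : m ≠ 0) (x : Fin q → k) (y : Fin q → L)
    (hy : ∀ i, y i ≠ 0) (t : L) (ht' : t ≠ 0) (h : ∀ i, y i ^ m = t * algebraMap k L (x i))
    (S : Finset (HeightOneSpectrum (𝓞 k)))
    (R : Finset (HeightOneSpectrum (𝓞 k)))
    (hR : ∀ v ∈ R, v ∉ S ∧ ∃ i j, fv v (x i) < fv v (x j)) :
    ∑ v ∈ R, Real.log (Ideal.absNorm v.asIdeal) + prox S y ≤ ld k L + q * ht k y := by
  have hL := finrank_pos' (k := k) (L := L)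
  have h1 := key hq m hm x y hy t ht' h R (fun v hv => (hR v hv).2)
    (over_finite (L := L) S).toFinset (by
      intro w hw v hv hwv
      rw [Set.Finite.mem_toFinset] at hw
      obtain ⟨v', hv', hwv'⟩ := hw
      have h2 := hwv.over
      have h3 := hwv'.over
      have h4 : v = v' := HeightOneSpectrum.ext (h2.trans h3.symm)
      exact (hR v hv).1 (h4 ▸ hv'))
  rw [prox_eq]
  unfold ld ht
  have h2 : ∑ v ∈ R, Real.log (Ideal.absNorm v.asIdeal) +
      (∑ w : InfinitePlace L, (w.mult : ℝ) * loc w.1 y +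
        ∑ w ∈ (over_finite (L := L) S).toFinset, loc (fv w) y) / Module.finrank k L =
      ((Module.finrank k L : ℝ) * (Real.log |(discr k : ℝ)| +
        ∑ v ∈ R, Real.log (Ideal.absNorm v.asIdeal)) +
      (∑ w : InfinitePlace L, (w.mult : ℝ) * loc w.1 y +
        ∑ w ∈ (over_finite (L := L) S).toFinset, loc (fv w) y)) / Module.finrank k L -
        Real.log |(discr k : ℝ)| := by
    field_simp
    ring
  have h3 : Real.log |(discr L : ℝ)| / Module.finrank k L - Real.log |(discr k : ℝ)| +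
      q * (logHeight y / Module.finrank k L) =
      (Real.log |(discr L : ℝ)| + q * logHeight y) / Module.finrank k L -
        Real.log |(discr k : ℝ)| := by
    field_simp
    ring
  rw [h2, h3]
  exact sub_le_sub_right (div_le_div_of_nonneg_right h1 hL.le) _

lemma ht_pow {q : ℕ} (m : ℕ) (x : Fin q → k) (y : Fin q → L) (t : L) (ht' : t ≠ 0)
    (h : ∀ i, y i ^ m = t * algebraMap k L (x i)) :
    (m : ℝ) * ht k y = logHeight x := by
  have hL := finrank_pos' (k := k) (L := L)
  unfold ht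
  have h1 := height_pow m x y t ht' h
  rw [← mul_div_assoc, h1]
  field_simp

end

section count

open Pool.Agent.H57R3.VJ

variable {K : Type*} [Field K] [NumberField K] {n r : ℕ}

lemma log_NN (v : FinitePlace K) : Real.log (NN v) =
    Real.log (Ideal.absNorm v.maximalIdeal.asIdeal) := rfl

lemma fv_max (v : FinitePlace K) (x : K) : fv v.maximalIdeal x = v x := by
  rw [fv_apply, FinitePlace.mk_maximalIdeal]

/-- bounding the truncated counting function -/
lemma N1_le {a : Fin r → Fin (n + 1) → K} (hr : n + 1 ≤ r) (ha0 : ∀ i, a i ≠ 0)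
    (S0 : Finset (FinitePlace K)) (hs1 : ∀ v ∉ S0, ∀ i, sv v (a i) = 1)
    (hs2 : ∀ v ∉ S0, ∀ x : Fin (n + 1) → K, x ≠ 0 →
      (Finset.univ.filter fun i => Meets (a i) x v).card ≤ n)
    (x : Fin (n + 1) → K) (hx : x ≠ 0) (hl : ∀ i, lin (a i) x ≠ 0) (X : ℝ)
    (hX : ∀ R : Finset (HeightOneSpectrum (𝓞 K)),
      (∀ v ∈ R, FinitePlace.mk v ∉ S0 ∧
        ∃ i j, fv v (lin (a i) x) < fv v (lin (a j) x)) →
      ∑ v ∈ R, Real.log (Ideal.absNorm v.asIdeal) ≤ X) :
    N1 S0 a x ≤ X := by
  have hfin : {v : FinitePlace K | v ∉ S0 ∧ ∃ i, Meets (a i) x v}.Finite := by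
    refine (Set.finite_iUnion fun i => meets_fin (ha0 i) hx (hl i)).subset ?_
    rintro v ⟨-, i, hi⟩
    exact Set.mem_iUnion.2 ⟨i, hi⟩
  have h1 : N1 S0 a x = ∑ v ∈ hfin.toFinset, Real.log (NN v) := by
    unfold N1
    rw [finsum_eq_sum_of_support_subset (s := hfin.toFinset)]
    · refine Finset.sum_congr rfl fun v hv => ?_
      exact if_pos ((Set.Finite.mem_toFinset _).1 hv)
    · intro v hv
      rw [Finset.mem_coe, Set.Finite.mem_toFinset]
      by_contra hc
      exact hv (if_neg hc)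
  have h2 : ∑ v ∈ hfin.toFinset, Real.log (NN v) =
      ∑ w ∈ hfin.toFinset.image FinitePlace.maximalIdeal, Real.log (Ideal.absNorm w.asIdeal) := by
    rw [Finset.sum_image]
    · exact Finset.sum_congr rfl fun v _ => log_NN v
    · intro v _ w _ h
      rw [← FinitePlace.mk_maximalIdeal v, ← FinitePlace.mk_maximalIdeal w]
      exact congrArg _ h
  rw [h1, h2]
  refine hX _ fun w hw => ?_
  obtain ⟨v, hv, rfl⟩ := Finset.mem_image.1 hw
  obtain ⟨hvS, i, hi⟩ := (Set.Finite.mem_toFinset _).1 hv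
  rw [FinitePlace.mk_maximalIdeal]
  refine ⟨hvS, ?_⟩
  -- some form does not meet
  have h3 := hs2 v hvS x hx
  obtain ⟨j, hj⟩ : ∃ j, ¬ Meets (a j) x v := by
    by_contra hc
    push Not at hc
    rw [Finset.filter_true_of_mem fun i _ => hc i, Finset.card_univ, Fintype.card_fin] at h3
    omega
  refine ⟨i, j, ?_⟩
  rw [fv_max, fv_max, not_meets (hs1 v hvS j) hj]
  have h4 := hi
  unfold Meets at h4
  rwa [hs1 v hvS i, one_mul] at h4

end count

end Pool.Agent.TH905.VF
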