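import Pool.Agent.TH905.VF.Curve
import Pool.Agent.TH905.VF.Prox
import Pool.Agent.Results.MP_9ec3f0_nt.ProductFibres

set_option autoImplicit false

/-!
Points of products of curves above the elements of `K ^ n`.
-/

namespace Pool.Agent.TH905.VF

open NumberField IsDedekindDomain Height Pool.Agent.H691R3 Polynomial
open Pool.Agent.W223.AC (tt)
open Pool.Agent.TH905.VF.AC (NearP lamF lamI lamF_nonneg lamI_nonneg)
open Pool.Agent.Results.MP_9ec3f0_nt.ProductFibres (exponent counting localHeight)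
open scoped Classical

section defs

variable {K L : Type} [Field K] [NumberField K] [Field L] [NumberField L] [Algebra K L]

/-- the sum of the local heights at a prime -/
noncomputable def lF {n : ℕ} {q : Fin n → ℕ} {A : Fin n → Type} [∀ i, CommRing (A i)]
    {u : ∀ i, Fin (q i) → ℕ} (y : ∀ i j, Fin (u i j + 1) → A i) (φ : ∀ i, A i →+* L)
    (w : HeightOneSpectrum (𝓞 L)) : ℝ := ∑ i, ∑ j, lamF (y i j) (φ i) w

/-- the sum of the local heights at an infinite place -/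
noncomputable def lI {n : ℕ} {q : Fin n → ℕ} {A : Fin n → Type} [∀ i, CommRing (A i)]
    {u : ∀ i, Fin (q i) → ℕ} (y : ∀ i j, Fin (u i j + 1) → A i) (φ : ∀ i, A i →+* L)
    (w : InfinitePlace L) : ℝ := ∑ i, ∑ j, lamI (y i j) (φ i) w

/-- the proximity function -/
noncomputable def proxC (S : Finset (HeightOneSpectrum (𝓞 K))) {n : ℕ} {q : Fin n → ℕ}
    {A : Fin n → Type} [∀ i, CommRing (A i)]
    {u : ∀ i, Fin (q i) → ℕ} (y : ∀ i j, Fin (u i j + 1) → A i) (φ : ∀ i, A i →+* L) : ℝ :=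
  (∑ w : InfinitePlace L, (w.mult : ℝ) * lI y φ w +
    ∑ᶠ w ∈ {w : HeightOneSpectrum (𝓞 L) | ∃ v ∈ S, w.asIdeal.LiesOver v.asIdeal}, lF y φ w) /
    Module.finrank K L

lemma lF_nonneg {n : ℕ} {q : Fin n → ℕ} {A : Fin n → Type} [∀ i, CommRing (A i)]
    {u : ∀ i, Fin (q i) → ℕ} (y : ∀ i j, Fin (u i j + 1) → A i) (φ : ∀ i, A i →+* L)
    (w : HeightOneSpectrum (𝓞 L)) : 0 ≤ lF y φ w :=
  Finset.sum_nonneg fun _ _ => Finset.sum_nonneg fun _ _ => lamF_nonneg _ _ _

lemma le_lF {n : ℕ} {q : Fin n → ℕ} {A : Fin n → Type} [∀ i, CommRing (A i)]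
    {u : ∀ i, Fin (q i) → ℕ} (y : ∀ i j, Fin (u i j + 1) → A i) (φ : ∀ i, A i →+* L)
    (w : HeightOneSpectrum (𝓞 L)) (i : Fin n) (j : Fin (q i)) :
    lamF (y i j) (φ i) w ≤ lF y φ w := by
  refine le_trans (Finset.single_le_sum (f := fun j => lamF (y i j) (φ i) w)
    (fun j _ => lamF_nonneg _ _ _) (Finset.mem_univ j)) ?_
  exact Finset.single_le_sum (f := fun i => ∑ j, lamF (y i j) (φ i) w)
    (fun i _ => Finset.sum_nonneg fun _ _ => lamF_nonneg _ _ _) (Finset.mem_univ i)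

lemma proxC_nonneg (S : Finset (HeightOneSpectrum (𝓞 K))) {n : ℕ} {q : Fin n → ℕ}
    {A : Fin n → Type} [∀ i, CommRing (A i)]
    {u : ∀ i, Fin (q i) → ℕ} (y : ∀ i j, Fin (u i j + 1) → A i) (φ : ∀ i, A i →+* L) :
    0 ≤ proxC S y φ := by
  unfold proxC
  rw [finsum_mem_eq_finite_toFinset_sum _ (over_finite (L := L) S)]
  refine div_nonneg (add_nonneg (Finset.sum_nonneg fun w _ => mul_nonneg (Nat.cast_nonneg _)
    (Finset.sum_nonneg fun _ _ => Finset.sum_nonneg fun _ _ => lamI_nonneg _ _ _))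
    (Finset.sum_nonneg fun w _ => lF_nonneg y φ w)) (Nat.cast_nonneg _)

end defs

theorem prod_key (K : Type) [Field K] [NumberField K] {n : ℕ} {q : Fin n → ℕ} (A : Fin n → Type)
    [∀ i, CommRing (A i)] [∀ i, IsDedekindDomain (A i)] [∀ i, Algebra ℚ (A i)]
    [∀ i, Algebra ℚ[X] (A i)] [∀ i, IsScalarTower ℚ ℚ[X] (A i)] [∀ i, Module.Finite ℚ[X] (A i)]
    [∀ i, FaithfulSMul ℚ[X] (A i)] (a : ∀ i, Fin (q i) → ℚ) (u : ∀ i, Fin (q i) → ℕ)
    (y : ∀ i j, Fin (u i j + 1) → A i)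
    (hy0 : ∀ i j, y i j 0 = tt (A i) - algebraMap ℚ[X] (A i) (C (a i j)))
    (hyr : ∀ i j l, y i j l ∈
      (Ideal.span {tt (A i) - algebraMap ℚ[X] (A i) (C (a i j))}).radical)
    (ε : ℝ) (hε : 0 < ε) :
    ∃ (T : Finset (HeightOneSpectrum (𝓞 K))) (c : ℝ),
      ∀ (L : Type) [Field L] [NumberField L] [Algebra K L] (φ : ∀ i, A i →+* L) (x : Fin n → K),
        (∀ i, φ i (tt (A i)) = algebraMap K L (x i)) → (∀ i j, x i ≠ (a i j : K)) →
        ∀ S R : Finset (HeightOneSpectrum (𝓞 K)),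
        (∀ v ∈ R, v ∉ S ∧ v ∉ T ∧ ∃ i j, fv v (x i - (a i j : K)) < max (fv v (x i)) 1) →
        ∑ v ∈ R, Real.log (Ideal.absNorm v.asIdeal) + proxC S y φ ≤
          ld K L + ∑ i, ((∑ j, (Module.finrank ℚ (A i ⧸ Ideal.span (Set.range (y i j))) : ℝ)) /
            Module.finrank ℚ[X] (A i) + ε) * logHeight₁ (x i) + c := by
  have hk := fun i => curve_key K (A i) (a i) (u i) (y i) (hy0 i) (hyr i) (ε / ((q i : ℝ) + 1))
    (by positivity)
  choose T c hc hk using hk
  refine ⟨Finset.univ.biUnion T, ∑ i, (q i : ℝ) * c i, ?_⟩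
  intro L _ _ _ φ x hφ hne S R hR
  have hk' := fun i => hk i L (φ i) (x i) (hφ i) (hne i)
  have hL := finrank_pos' (k := K) (L := L)
  obtain ⟨W, hW1, hW2⟩ := rel (k := K) (L := L) R
  set U := (over_finite (L := L) S).toFinset with hU
  have hdisj : Disjoint U W := by
    rw [Finset.disjoint_left]
    intro w hwU hwW
    obtain ⟨v, hv, hvw⟩ := hW1 w hwW
    rw [hU, Set.Finite.mem_toFinset] at hwU
    obtain ⟨v', hv', hvw'⟩ := hwU
    have h4 : v = v' := HeightOneSpectrum.ext (hvw.over.trans hvw'.over.symm)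
    exact (hR v hv).1 (h4 ▸ hv')
  -- the primes in `W`
  have h1 : ∑ w ∈ W, Real.log (Ideal.absNorm w.asIdeal) ≤ ∑ w ∈ W, lF y φ w := by
    refine Finset.sum_le_sum fun w hw => ?_
    obtain ⟨v, hv, hvw⟩ := hW1 w hw
    obtain ⟨-, hvT, i, j, hij⟩ := hR v hv
    have hvT' : v ∉ T i := fun h => hvT (Finset.mem_biUnion.2 ⟨i, Finset.mem_univ i, h⟩)
    obtain ⟨j', hj'⟩ := (hk' i).1 v w hvT' hvw ⟨j, hij⟩
    exact (hj'.le_lamF (y i j') (φ i) w ((hk' i).2 j').1).trans (le_lF y φ w i j')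
  -- all primes
  have h2 : ∑ w ∈ U, lF y φ w + ∑ w ∈ W, lF y φ w ≤
      ∑ i, ∑ j, ∑ᶠ w : HeightOneSpectrum (𝓞 L), lamF (y i j) (φ i) w := by
    rw [← Finset.sum_union hdisj]
    unfold lF
    rw [Finset.sum_comm]
    refine Finset.sum_le_sum fun i _ => ?_
    rw [Finset.sum_comm]
    refine Finset.sum_le_sum fun j _ => ?_
    have hf := ((hk' i).2 j).2.1
    rw [finsum_eq_sum_of_support_subset (s := hf.toFinset ∪ (U ∪ W))]
    · exact Finset.sum_le_sum_of_subset_of_nonneg Finset.subset_union_right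
        fun v _ _ => lamF_nonneg _ _ _
    · intro w hw
      rw [Finset.mem_coe]
      exact Finset.mem_union_left _ ((Set.Finite.mem_toFinset _).2 hw)
  have h3 : ∑ w : InfinitePlace L, (w.mult : ℝ) * lI y φ w =
      ∑ i, ∑ j, ∑ w : InfinitePlace L, (w.mult : ℝ) * lamI (y i j) (φ i) w := by
    unfold lI
    simp only [Finset.mul_sum]
    rw [Finset.sum_comm]
    refine Finset.sum_congr rfl fun i _ => ?_
    rw [Finset.sum_comm]
  have h4 : ∑ i, ∑ j, ((∑ᶠ w : HeightOneSpectrum (𝓞 L), lamF (y i j) (φ i) w) +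
      ∑ w : InfinitePlace L, (w.mult : ℝ) * lamI (y i j) (φ i) w) ≤
      (Module.finrank K L : ℝ) * (∑ i, ((∑ j, (Module.finrank ℚ
        (A i ⧸ Ideal.span (Set.range (y i j))) : ℝ)) /
            Module.finrank ℚ[X] (A i) + ε) * logHeight₁ (x i) + ∑ i, (q i : ℝ) * c i) := by
    rw [← Finset.sum_add_distrib, Finset.mul_sum]
    refine Finset.sum_le_sum fun i _ => ?_
    refine le_trans (Finset.sum_le_sum fun j _ => ((hk' i).2 j).2.2) ?_
    rw [← Finset.mul_sum]
    refine mul_le_mul_of_nonneg_left ?_ hL.le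
    rw [Finset.sum_add_distrib, Finset.sum_const, Finset.card_univ, Fintype.card_fin,
      nsmul_eq_mul, ← Finset.sum_mul, Finset.sum_add_distrib, Finset.sum_const, Finset.card_univ,
      Fintype.card_fin, nsmul_eq_mul, ← Finset.sum_div]
    refine add_le_add (mul_le_mul_of_nonneg_right (add_le_add le_rfl ?_)
      (zero_le_logHeight₁ _)) le_rfl
    rw [mul_div_assoc', div_le_iff₀ (by positivity)]
    nlinarith [Nat.cast_nonneg (α := ℝ) (q i)]
  rw [Finset.sum_congr rfl fun i _ => Finset.sum_add_distrib (s := Finset.univ)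
      (f := fun j => ∑ᶠ w : HeightOneSpectrum (𝓞 L), lamF (y i j) (φ i) w)
      (g := fun j => ∑ w : InfinitePlace L, (w.mult : ℝ) * lamI (y i j) (φ i) w),
    Finset.sum_add_distrib, ← h3] at h4
  -- assembly
  set X := ∑ i, ((∑ j, (Module.finrank ℚ
        (A i ⧸ Ideal.span (Set.range (y i j))) : ℝ)) /
            Module.finrank ℚ[X] (A i) + ε) * logHeight₁ (x i) + ∑ i, (q i : ℝ) * c i with hX
  have h5 : (Module.finrank K L : ℝ) * (Real.log |(discr K : ℝ)| +
        ∑ v ∈ R, Real.log (Ideal.absNorm v.asIdeal)) +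
      (∑ w : InfinitePlace L, (w.mult : ℝ) * lI y φ w + ∑ w ∈ U, lF y φ w) ≤
      Real.log |(discr L : ℝ)| + Module.finrank K L * X := by linarith
  unfold proxC ld
  rw [finsum_mem_eq_finite_toFinset_sum _ (over_finite (L := L) S), add_assoc (_ - _), ← hX]
  have h6 : ∑ v ∈ R, Real.log (Ideal.absNorm v.asIdeal) +
      (∑ w : InfinitePlace L, (w.mult : ℝ) * lI y φ w + ∑ w ∈ U, lF y φ w) /
        Module.finrank K L =
      ((Module.finrank K L : ℝ) * (Real.log |(discr K : ℝ)| +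
        ∑ v ∈ R, Real.log (Ideal.absNorm v.asIdeal)) +
      (∑ w : InfinitePlace L, (w.mult : ℝ) * lI y φ w + ∑ w ∈ U, lF y φ w)) /
        Module.finrank K L - Real.log |(discr K : ℝ)| := by
    field_simp
    ring
  have h7 : Real.log |(discr L : ℝ)| / Module.finrank K L - Real.log |(discr K : ℝ)| + X =
      (Real.log |(discr L : ℝ)| + Module.finrank K L * X) / Module.finrank K L -
        Real.log |(discr K : ℝ)| := by
    field_simp
    ring
  rw [h6, h7]
  exact sub_le_sub_right (div_le_div_of_nonneg_right h5 hL.le) _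

lemma exponent_lip (n Q : ℕ) (hQ : 2 ≤ Q) (κ ε : ℝ) (hε : 0 ≤ ε) :
    exponent n Q (κ - ε) ≤ exponent n Q κ + n * ε := by
  have hQ' : (2 : ℝ) ≤ Q := by exact_mod_cast hQ
  have hn : (0 : ℝ) ≤ n := Nat.cast_nonneg n
  have hnε : 0 ≤ n * ε := mul_nonneg hn hε
  have hβ0 : 0 ≤ 1 - 2 / (Q : ℝ) := by
    rw [sub_nonneg, div_le_one (by linarith)]
    exact hQ'
  have hβ1 : 1 - 2 / (Q : ℝ) ≤ 1 := by
    have : 0 ≤ 2 / (Q : ℝ) := by positivity
    linarith
  unfold exponent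
  rw [← min_add_add_right, ← min_add_add_right]
  refine min_le_min ?_ (min_le_min ?_ ?_)
  · rw [← max_add_add_right]
    refine max_le_max ?_ ?_
    · nlinarith
    · linarith
  · have h1 : 4 / (Q : ℝ) ^ 2 ≤ 1 := by
      rw [div_le_one (by positivity)]
      nlinarith
    have h2 : 4 * (κ - ε) / (Q : ℝ) ^ 2 = 4 * κ / (Q : ℝ) ^ 2 - 4 / (Q : ℝ) ^ 2 * ε := by ring
    rw [h2]
    have h3 : 4 / (Q : ℝ) ^ 2 * ε ≤ ε := by nlinarith
    nlinarith
  · have h1 : 1 - (1 - 2 / (Q : ℝ)) ^ n ≤ 1 := by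
      have := pow_nonneg hβ0 n
      linarith
    have h2 : 0 ≤ 1 - (1 - 2 / (Q : ℝ)) ^ n := by
      have := pow_le_one₀ (n := n) hβ0 hβ1
      linarith
    have h3 : ((Q : ℝ) - (κ - ε)) * (1 - (1 - 2 / (Q : ℝ)) ^ n) * n =
      ((Q : ℝ) - κ) * (1 - (1 - 2 / (Q : ℝ)) ^ n) * n +
        (1 - (1 - 2 / (Q : ℝ)) ^ n) * (n * ε) := by ring
    rw [h3]
    have h4 : (1 - (1 - 2 / (Q : ℝ)) ^ n) * (n * ε) ≤ n * ε := by nlinarith
    linarith

lemma exponent_lt (n Q : ℕ) (hn : 1 ≤ n) (hQ : 2 ≤ Q) (κ : ℝ) (hκ : 0 < κ) :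
    exponent n Q κ < 2 * n := by
  have hQ' : (0 : ℝ) < Q := by
    have : 0 < Q := by omega
    exact_mod_cast this
  have hn' : (0 : ℝ) < n := by exact_mod_cast hn
  unfold exponent
  refine lt_of_le_of_lt ((min_le_right _ _).trans (min_le_left _ _)) ?_
  have h1 : 0 < 4 * κ / (Q : ℝ) ^ 2 := by positivity
  nlinarith

section count

variable {K : Type} [Field K] [NumberField K]

lemma hr_eq (x : K) : Pool.Agent.Results.MP_9ec3f0_nt.ProductFibres.height x = logHeight₁ x := by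
  have h := Pool.Agent.W125.CV.height_sum x
    (Pool.Agent.W125.CV.max_support_finite x).toFinset
    (fun v hv => (Set.Finite.mem_toFinset _).2 hv)
  have h' : logHeight₁ x = Real.log (mulHeight₁ x) := rfl
  rw [h', h]
  unfold Pool.Agent.Results.MP_9ec3f0_nt.ProductFibres.height
  congr 1
  · refine Finset.sum_congr rfl fun w _ => ?_
    rw [map_one]
  · rw [finsum_eq_sum_of_support_subset]
    · refine Finset.sum_congr rfl fun v _ => ?_
      have : (FinitePlace.mk v : FinitePlace K) (1 : K) = 1 := map_one (FinitePlace.mk v).1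
      rw [this]
      rfl
    · intro v hv
      rw [Finset.mem_coe, Set.Finite.mem_toFinset]
      intro h1
      apply hv
      have : (FinitePlace.mk v : FinitePlace K) (1 : K) = 1 := map_one (FinitePlace.mk v).1
      show Real.log (max (FinitePlace.mk v x) ((FinitePlace.mk v : FinitePlace K) 1)) = 0
      rw [this]
      have h2 : max (FinitePlace.mk v x) 1 = 1 := h1
      rw [h2, Real.log_one]

lemma local_near (v : HeightOneSpectrum (𝓞 K)) (a : ℚ) (x : K) (hv : fv v (a : K) ≤ 1)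
    (h : localHeight v ((a : K), (1 : K)) x ≠ 0) :
    fv v (x - (a : K)) < max (fv v x) 1 := by
  have h1 : fv v (x - (a : K)) ≤ max (fv v x) 1 := by
    have := fv_na v x (-(a : K))
    rw [← sub_eq_add_neg, (fv v).map_neg] at this
    exact this.trans (max_le_max le_rfl hv)
  refine lt_of_le_of_ne h1 fun h2 => h ?_
  unfold localHeight
  have e1 : (FinitePlace.mk v : FinitePlace K) (1 : K) = 1 := map_one (FinitePlace.mk v).1
  show Real.log (max (FinitePlace.mk v x) ((FinitePlace.mk v : FinitePlace K) 1) *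
    max (FinitePlace.mk v (a : K)) ((FinitePlace.mk v : FinitePlace K) 1) /
      FinitePlace.mk v (x * 1 - 1 * (a : K))) = 0
  rw [e1, mul_one, one_mul]
  have e2 : max ((FinitePlace.mk v : FinitePlace K) (a : K)) 1 = 1 := max_eq_right hv
  have e3 : (FinitePlace.mk v : FinitePlace K) (x - (a : K)) = max (FinitePlace.mk v x) 1 := h2
  rw [e2, mul_one, e3, div_self, Real.log_one]
  exact (lt_of_lt_of_le one_pos (le_max_right _ _)).ne'

lemma near_finite' (a : ℚ) (x : K) (hx : x ≠ (a : K)) :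
    {v : HeightOneSpectrum (𝓞 K) | fv v (a : K) ≤ 1 ∧
      fv v (x - (a : K)) < max (fv v x) 1}.Finite := by
  refine (Pool.Agent.W125.CV.fv_support_finite (sub_ne_zero.2 hx)).subset ?_
  rintro v ⟨h1, h2⟩
  exact ((near_fibre v a x h1 h2).2).ne

lemma counting_le {n : ℕ} {q : Fin n → ℕ} (a : ∀ i, Fin (q i) → ℚ)
    (T : Finset (HeightOneSpectrum (𝓞 K))) (hT : ∀ v ∉ T, ∀ i j, fv v ((a i j : ℚ) : K) ≤ 1)
    (x : Fin n → K) (hx : ∀ i j, x i ≠ (a i j : K)) (X : ℝ)
    (hX : ∀ R : Finset (HeightOneSpectrum (𝓞 K)),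
      (∀ v ∈ R, v ∉ T ∧ ∃ i j, fv v (x i - (a i j : K)) < max (fv v (x i)) 1) →
      ∑ v ∈ R, Real.log (Ideal.absNorm v.asIdeal) ≤ X) :
    counting (T : Set (HeightOneSpectrum (𝓞 K))) (fun i l => (((a i l : ℚ) : K), (1 : K))) x ≤
      X := by
  have hfin : {v : HeightOneSpectrum (𝓞 K) | v ∉ T ∧
      ∃ i j, fv v (x i - (a i j : K)) < max (fv v (x i)) 1}.Finite := by
    refine (Set.finite_iUnion fun i => Set.finite_iUnion fun j =>
      near_finite' (a i j) (x i) (hx i j)).subset ?_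
    rintro v ⟨hv, i, j, hij⟩
    exact Set.mem_iUnion.2 ⟨i, Set.mem_iUnion.2 ⟨j, hT v hv i j, hij⟩⟩
  have h0 : ∀ v : HeightOneSpectrum (𝓞 K), 0 ≤ Real.log (Ideal.absNorm v.asIdeal : ℝ) :=
    fun v => Real.log_natCast_nonneg _
  refine le_trans ?_ (hX hfin.toFinset fun v hv => (Set.Finite.mem_toFinset hfin).1 hv)
  unfold counting
  rw [finsum_eq_sum_of_support_subset (s := hfin.toFinset)]
  · refine Finset.sum_le_sum fun v _ => ?_
    by_cases hv : v ∉ (T : Set (HeightOneSpectrum (𝓞 K)))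
    · rw [finsum_eq_if, if_pos hv]
      exact min_le_right _ _
    · rw [finsum_eq_if, if_neg hv]
      exact h0 v
  · intro v hv
    rw [Finset.mem_coe, Set.Finite.mem_toFinset]
    rw [Function.mem_support, finsum_eq_if] at hv
    by_cases hvT : v ∉ (T : Set (HeightOneSpectrum (𝓞 K)))
    · rw [if_pos hvT] at hv
      refine ⟨hvT, ?_⟩
      by_contra hc
      push Not at hc
      apply hv
      have h1 : ∑ i, ∑ l : Fin (q i), localHeight v (((a i l : ℚ) : K), (1 : K)) (x i) = 0 := by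
        refine Finset.sum_eq_zero fun i _ => Finset.sum_eq_zero fun l _ => ?_
        by_contra h2
        exact absurd (local_near v (a i l) (x i) (hT v hvT i l) h2)
          (not_lt.2 (hc i l))
      show min (∑ i, ∑ l : Fin (q i), localHeight v (((a i l : ℚ) : K), (1 : K)) (x i)) _ = 0
      rw [h1]
      exact min_eq_left (h0 v)
    · rw [if_neg hvT] at hv
      exact absurd rfl hv

lemma den_finset {n : ℕ} {q : Fin n → ℕ} (a : ∀ i, Fin (q i) → ℚ) :
    ∃ T : Finset (HeightOneSpectrum (𝓞 K)), ∀ v ∉ T, ∀ i j, fv v ((a i j : ℚ) : K) ≤ 1 := by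
  refine ⟨Finset.univ.biUnion fun i => Finset.univ.biUnion fun j =>
    (nat_mem_finite (K := K) (a i j).den (a i j).den_nz).toFinset, ?_⟩
  intro v hv i j
  refine fv_le_one_of_den v (a i j) fun h => hv ?_
  rw [Finset.mem_biUnion]
  refine ⟨i, Finset.mem_univ i, ?_⟩
  rw [Finset.mem_biUnion]
  exact ⟨j, Finset.mem_univ j, (Set.Finite.mem_toFinset _).2 h⟩

end count

section main

/-- The set of exceptional `x`. -/
def EC (K : Type) [Field K] [NumberField K] {n : ℕ} {q : Fin n → ℕ} {A : Fin n → Type}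
    [∀ i, CommRing (A i)] [∀ i, Algebra ℚ (A i)] [∀ i, Algebra ℚ[X] (A i)]
    (a : ∀ i, Fin (q i) → ℚ) (u : ∀ i, Fin (q i) → ℕ) (y : ∀ i j, Fin (u i j + 1) → A i)
    (κ c B : ℝ) : Set (Fin n → K) :=
  {x | (∀ i j, x i ≠ (a i j : K)) ∧ (∀ i, logHeight₁ (x i) ≤ Real.log B) ∧
    ∃ (L : Type) (_ : Field L) (_ : NumberField L) (_ : Algebra K L) (φ : ∀ i, A i →+* L)
      (S : Finset (HeightOneSpectrum (𝓞 K))), (∀ i, φ i (tt (A i)) = algebraMap K L (x i)) ∧
      ld K L + ∑ v ∈ S, Real.log (Ideal.absNorm v.asIdeal) + c <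
        ∑ i, ((q i : ℝ) - (∑ j, (Module.finrank ℚ
          (A i ⧸ Ideal.span (Set.range (y i j))) : ℝ)) / Module.finrank ℚ[X] (A i) - κ) *
            logHeight₁ (x i) + proxC S y φ}

theorem main_prod (K : Type) [Field K] [NumberField K] {n : ℕ} (hn : 1 ≤ n) {q : Fin n → ℕ}
    (Q : ℕ) (hQ : 2 ≤ Q) (hq1 : ∀ i, 1 ≤ q i) (hqQ : ∀ i, q i ≤ Q) (A : Fin n → Type)
    [∀ i, CommRing (A i)] [∀ i, IsDedekindDomain (A i)] [∀ i, Algebra ℚ (A i)]
    [∀ i, Algebra ℚ[X] (A i)] [∀ i, IsScalarTower ℚ ℚ[X] (A i)] [∀ i, Module.Finite ℚ[X] (A i)]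
    [∀ i, FaithfulSMul ℚ[X] (A i)] (a : ∀ i, Fin (q i) → ℚ) (ha : ∀ i, Function.Injective (a i))
    (u : ∀ i, Fin (q i) → ℕ) (y : ∀ i j, Fin (u i j + 1) → A i)
    (hy0 : ∀ i j, y i j 0 = tt (A i) - algebraMap ℚ[X] (A i) (C (a i j)))
    (hyr : ∀ i j l, y i j l ∈
      (Ideal.span {tt (A i) - algebraMap ℚ[X] (A i) (C (a i j))}).radical)
    (κ c δ : ℝ) (hκ0 : 0 < κ) (hκ2 : κ ≤ 2) (hδ : 0 < δ) :
    ∃ M : ℝ, ∀ B : ℝ, 1 ≤ B → (EC K a u y κ c B).Finite ∧
      ((EC K a u y κ c B).ncard : ℝ) ≤ M * B ^ (exponent n Q κ + δ) := by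
  obtain ⟨ε, hεd⟩ : ∃ ε, ε = min κ (δ / (2 * n)) := ⟨_, rfl⟩
  have hn' : (0 : ℝ) < n := by exact_mod_cast hn
  have hε : 0 < ε := by
    rw [hεd]
    exact lt_min hκ0 (by positivity)
  have hε1 : ε ≤ κ := by rw [hεd]; exact min_le_left _ _
  have hε2 : n * ε ≤ δ / 2 := by
    have h1 : ε ≤ δ / (2 * n) := by rw [hεd]; exact min_le_right _ _
    have h2 := mul_le_mul_of_nonneg_left h1 hn'.le
    have h3 : (n : ℝ) * (δ / (2 * n)) = δ / 2 := by field_simp
    linarith
  obtain ⟨T, C₀, hkey⟩ := prod_key K A a u y hy0 hyr ε hε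
  obtain ⟨T', hT'⟩ := den_finset (K := K) a
  obtain ⟨M, hM⟩ := Pool.Agent.Results.MP_9ec3f0_nt.ProductFibres.result K
    ((T ∪ T' : Finset (HeightOneSpectrum (𝓞 K))) : Set (HeightOneSpectrum (𝓞 K)))
    (Finset.finite_toSet _) n hn q hq1 Q hQ hqQ (fun i l => (((a i l : ℚ) : K), (1 : K)))
    (fun i l h => one_ne_zero (α := K) (congrArg Prod.snd h))
    (by
      intro i l j hlj h
      simp only [mul_one, one_mul] at h
      exact hlj (ha i (by exact_mod_cast sub_eq_zero.1 h))) (κ - ε) (C₀ - c) (δ / 2)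
    (by linarith) (by linarith) (by linarith)
  refine ⟨max M 0, fun B hB => ?_⟩
  obtain ⟨h1, h2⟩ := hM B hB
  have hsub : EC K a u y κ c B ⊆ {x : Fin n → K |
      (∀ i, ∀ l, x i * (((a i l : ℚ) : K), (1 : K)).2 - 1 * (((a i l : ℚ) : K), (1 : K)).1 ≠ 0) ∧
      (∀ i, Pool.Agent.Results.MP_9ec3f0_nt.ProductFibres.height (x i) ≤ Real.log B) ∧
      counting ((T ∪ T' : Finset (HeightOneSpectrum (𝓞 K))) : Set (HeightOneSpectrum (𝓞 K)))
        (fun i l => (((a i l : ℚ) : K), (1 : K))) x <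
        ∑ i, ((q i : ℝ) - (κ - ε)) *
          Pool.Agent.Results.MP_9ec3f0_nt.ProductFibres.height (x i) + (C₀ - c)} := by
    rintro x ⟨hne, hB', L, i1, i2, i3, φ, S, hφ, hv⟩
    refine ⟨fun i l => ?_, fun i => ?_, ?_⟩
    · simp only [mul_one, one_mul]
      exact sub_ne_zero.2 (hne i l)
    · rw [hr_eq]
      exact hB' i
    · simp only [hr_eq]
      refine lt_of_le_of_lt (counting_le a (T ∪ T') (fun v hv => hT' v fun h =>
        hv (Finset.mem_union_right _ h)) x hne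
        (ld K L + ∑ i, ((∑ j, (Module.finrank ℚ (A i ⧸ Ideal.span (Set.range (y i j))) : ℝ)) /
            Module.finrank ℚ[X] (A i) + ε) * logHeight₁ (x i) + C₀ - proxC S y φ +
          ∑ v ∈ S, Real.log (Ideal.absNorm v.asIdeal)) ?_) ?_
      · intro R hR
        have h3 := hkey L φ x hφ hne S (R \ S) (by
          intro v hv
          rw [Finset.mem_sdiff] at hv
          obtain ⟨h4, h5⟩ := hR v hv.1
          exact ⟨hv.2, fun h => h4 (Finset.mem_union_left _ h), h5⟩)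
        have h4 : ∑ v ∈ R, Real.log (Ideal.absNorm v.asIdeal) ≤
            ∑ v ∈ R \ S, Real.log (Ideal.absNorm v.asIdeal) +
              ∑ v ∈ S, Real.log (Ideal.absNorm v.asIdeal) := by
          have h5 : R ⊆ (R \ S) ∪ S := fun v hv => by
            by_cases h : v ∈ S
            · exact Finset.mem_union_right _ h
            · exact Finset.mem_union_left _ (Finset.mem_sdiff.2 ⟨hv, h⟩)
          rw [← Finset.sum_union Finset.sdiff_disjoint]
          exact Finset.sum_le_sum_of_subset_of_nonneg h5 fun v _ _ => Real.log_natCast_nonneg _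
        linarith
      · have h3 : ∑ i, ((q i : ℝ) - (κ - ε)) * logHeight₁ (x i) =
            ∑ i, ((q i : ℝ) - (∑ j, (Module.finrank ℚ
              (A i ⧸ Ideal.span (Set.range (y i j))) : ℝ)) / Module.finrank ℚ[X] (A i) - κ) *
              logHeight₁ (x i) +
            ∑ i, ((∑ j, (Module.finrank ℚ (A i ⧸ Ideal.span (Set.range (y i j))) : ℝ)) /
              Module.finrank ℚ[X] (A i) + ε) * logHeight₁ (x i) := by
          rw [← Finset.sum_add_distrib]
          refine Finset.sum_congr rfl fun i _ => ?_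
          ring
        rw [h3]
        linarith
  refine ⟨h1.subset hsub, ?_⟩
  refine le_trans (Nat.cast_le.2 (Set.ncard_le_ncard hsub h1)) (h2.trans ?_)
  have hB0 : 0 ≤ B := by linarith
  refine mul_le_mul (le_max_left _ _) ?_ (by positivity) (le_max_right _ _)
  refine Real.rpow_le_rpow_of_exponent_le hB ?_
  have := exponent_lip n Q hQ κ ε hε.le
  linarith

end main

end Pool.Agent.TH905.VF
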