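import Pool.Agent.TH905.VF.Deg

set_option autoImplicit false

/-!
Root stacks of the resolutions of hyperplane arrangements.
-/

namespace Pool.Agent.TH905.VF

open NumberField IsDedekindDomain Height Pool.Agent.H691R3 LinearAlgebra.Projectivization
open scoped Classical

section pre

variable {L : Type*} [Field L] [NumberField L]

omit [NumberField L] in
lemma comp_nonneg {r : ℕ} (f : AbsoluteValue L ℝ) (y : Fin r → L) (F : Finset (Fin r)) :
    0 ≤ comp f y F := le_max_left _ _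

lemma comp_support {r : ℕ} (y : Fin r → L)
    (T : Finset (HeightOneSpectrum (𝓞 L))) (hT : ∀ v, v ∉ T → ∀ i, fv v (y i) = 1)
    (F : Finset (Fin r)) : ∀ v, comp (fv v) y F ≠ 0 → v ∈ T := by
  intro v hv
  by_contra hc
  apply hv
  have h0 : ∀ i, lc (fv v) y i = 0 := by
    intro i
    have : Nonempty (Fin r) := ⟨i⟩
    unfold lc
    simp only [hT v hc, ciSup_const, div_one, Real.log_one]
  unfold comp
  simp only [h0]
  have h1 : (⨅ _ : F, (0 : ℝ)) = 0 := by
    rcases isEmpty_or_nonempty F with h | h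
    · exact Real.iInf_of_isEmpty _
    · exact ciInf_const
  have h2 : (⨆ _ : {i // i ∉ F}, (0 : ℝ)) = 0 := by
    rcases isEmpty_or_nonempty {i // i ∉ F} with h | h
    · exact Real.iSup_of_isEmpty _
    · exact ciSup_const
  rw [h1, h2, sub_zero, max_self]

/-- the height with respect to the component over the flat `F` -/
noncomputable def hF {r : ℕ} (l : Fin r → L) (F : Finset (Fin r)) : ℝ :=
  ∑ w : InfinitePlace L, (w.mult : ℝ) * comp w.1 l F +
    ∑ᶠ v : HeightOneSpectrum (𝓞 L), comp (fv v) l F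

/-- the proximity function of the component over the flat `F` -/
noncomputable def mF {r : ℕ} (S : Finset (HeightOneSpectrum (𝓞 L))) (l : Fin r → L)
    (F : Finset (Fin r)) : ℝ :=
  ∑ w : InfinitePlace L, (w.mult : ℝ) * comp w.1 l F + ∑ v ∈ S, comp (fv v) l F

lemma sum_le_hF {r : ℕ} (l : Fin r → L) (hl : ∀ i, l i ≠ 0) (F : Finset (Fin r))
    (S R : Finset (HeightOneSpectrum (𝓞 L))) (hR : Disjoint S R) :
    ∑ v ∈ R, comp (fv v) l F ≤ hF l F - mF S l F := by
  obtain ⟨T, hT⟩ := exists_supp l hl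
  unfold hF mF
  rw [finsum_eq_sum_of_support_subset (s := T ∪ (S ∪ R))]
  · have h1 : ∑ v ∈ S ∪ R, comp (fv v) l F ≤ ∑ v ∈ T ∪ (S ∪ R), comp (fv v) l F :=
      Finset.sum_le_sum_of_subset_of_nonneg Finset.subset_union_right
        fun v _ _ => comp_nonneg _ _ _
    rw [Finset.sum_union hR] at h1
    linarith
  · intro v hv
    rw [Finset.mem_coe]
    exact Finset.mem_union_left _ (comp_support l T hT F v hv)

end pre

section main

open Pool.Agent.Results.MP_9ec3f0_nt.HyperplaneArrangements (lin lam hW N1 Exc)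

variable {K : Type} [Field K] [NumberField K] {n r : ℕ}

/-- bounding the truncated counting function -/
lemma N1_le'' {a : Fin r → Fin (n + 1) → K} (ha0 : ∀ i, a i ≠ 0)
    (S₀ : Finset (HeightOneSpectrum (𝓞 K)))
    (hS₀ : ∀ v ∉ S₀, ∀ x : Fin (n + 1) → K, x ≠ 0 →
      ∀ i, lin (a i) x ≠ 0 →
      0 < lam (Pool.Agent.Results.MP_9ec3f0_nt.HyperplaneArrangements.fv v) (a i) x →
      ∃ j, Pool.Agent.H691R3.fv v (lin (a i) x) < Pool.Agent.H691R3.fv v (lin (a j) x))
    (x : Fin (n + 1) → K) (hx : x ≠ 0) (hl : ∀ i, lin (a i) x ≠ 0) (X : ℝ)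
    (hX : ∀ R : Finset (HeightOneSpectrum (𝓞 K)),
      (∀ v ∈ R, v ∉ S₀ ∧ ∃ i j, Pool.Agent.H691R3.fv v (lin (a i) x) <
        Pool.Agent.H691R3.fv v (lin (a j) x)) →
      ∑ v ∈ R, Real.log (Ideal.absNorm v.asIdeal) ≤ X) :
    N1 S₀ a x ≤ X := by
  have hfin : {v : HeightOneSpectrum (𝓞 K) | v ∉ S₀ ∧ ∃ i, 0 < lam
      (Pool.Agent.Results.MP_9ec3f0_nt.HyperplaneArrangements.fv v) (a i) x}.Finite := by
    refine (Set.finite_iUnion fun i =>
      Pool.Agent.W232.VA.lam_support (ha0 i) hx (hl i)).subset ?_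
    rintro v ⟨-, i, hi⟩
    exact Set.mem_iUnion.2 ⟨i, hi.ne'⟩
  have h1 : N1 S₀ a x = ∑ v ∈ hfin.toFinset, Real.log (Ideal.absNorm v.asIdeal) := by
    unfold Pool.Agent.Results.MP_9ec3f0_nt.HyperplaneArrangements.N1
    rw [finsum_eq_sum_of_support_subset (s := hfin.toFinset)]
    · refine Finset.sum_congr rfl fun v hv => ?_
      exact if_pos ((Set.Finite.mem_toFinset hfin).1 hv)
    · intro v hv
      rw [Finset.mem_coe, Set.Finite.mem_toFinset]
      by_contra hc
      exact hv (if_neg hc)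
  rw [h1]
  refine hX _ fun v hv => ?_
  obtain ⟨hvS, i, hi⟩ := (Set.Finite.mem_toFinset hfin).1 hv
  obtain ⟨j, hj⟩ := hS₀ v hvS x hx i (hl i) hi
  exact ⟨hvS, i, j, hj⟩

/-- the flats -/
abbrev Flt (a : Fin r → Fin (n + 1) → K) : Type :=
  {F : Finset (Fin r) // ∀ i, a i ∈ Submodule.span K (a '' (F : Set (Fin r))) → i ∈ F}

/-- the truncated counting function of the components in `J` over `L` -/
noncomputable def nF (L : Type) [Field L] [NumberField L]
    [Algebra K L] (S : Finset (HeightOneSpectrum (𝓞 K))) (a : Fin r → Fin (n + 1) → K)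
    (J : Finset (Flt a)) (x : Fin (n + 1) → K) : ℝ :=
  (∑ᶠ w : HeightOneSpectrum (𝓞 L),
    if (∀ v ∈ S, ¬ w.asIdeal.LiesOver v.asIdeal) ∧
      ∃ F ∈ J, 0 < comp (fv w) (fun i => algebraMap K L (lin (a i) x)) F.1
    then Real.log (Ideal.absNorm w.asIdeal) else 0) / Module.finrank K L

/-- the exceptional points -/
def ESA (a : Fin r → Fin (n + 1) → K) (κ c B : ℝ) : Set (ℙ K (Fin (n + 1) → K)) :=
  {P | (∀ i, lin (a i) P.rep ≠ 0) ∧ P.mulHeight ≤ B ∧
    ∃ (L : Type) (_ : Field L) (_ : NumberField L) (_ : Algebra K L)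
      (S : Finset (HeightOneSpectrum (𝓞 K))) (e : Flt a → ℕ) (J : Finset (Flt a)),
      (∀ F, 1 ≤ e F) ∧
      (∀ w : HeightOneSpectrum (𝓞 L), (∀ v ∈ S, ¬ w.asIdeal.LiesOver v.asIdeal) →
        ∀ F : Flt a, ∃ m : ℕ, comp (fv w) (fun i => algebraMap K L (lin (a i) P.rep)) F.1 =
          m * e F * Real.log (Ideal.absNorm w.asIdeal)) ∧
      nF L S a J P.rep + ld K L + ∑ v ∈ S, Real.log (Ideal.absNorm v.asIdeal) + c <
        hW a P.rep - κ * Real.log P.mulHeight -
          ∑ F ∈ Jᶜ, 1 / (e F : ℝ) * (hF (fun i => lin (a i) P.rep) F.1 -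
            mF S (fun i => lin (a i) P.rep) F.1)}

theorem stkarr_main (hn : 1 ≤ n) (hr : 1 ≤ r) (a : Fin r → Fin (n + 1) → K) (ha : ∀ i, a i ≠ 0)
    (hspan : Submodule.span K (Set.range a) = ⊤)
    (κ c δ : ℝ) (hκ0 : 0 ≤ κ) (hκ : κ ≤ 1 / 2) (hδ : 0 < δ) :
    ∃ M : ℝ, ∀ B : ℝ, 1 ≤ B → (ESA a κ c B).Finite ∧
      ((ESA a κ c B).ncard : ℝ) ≤ M * B ^ ((n : ℝ) + 1 - κ + δ) := by
  obtain ⟨S₀, hS₀⟩ := exists_S0 a hspan
  obtain ⟨S₁, hS₁⟩ := exists_S1 a
  obtain ⟨M, hM⟩ := (Pool.Agent.Results.MP_9ec3f0_nt.HyperplaneArrangements.result K n r hn hr a ha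
    (S₀ ∪ S₁) κ hκ0 hκ).1 (-c) δ hδ
  refine ⟨M, fun B hB' => ?_⟩
  obtain ⟨h1, h2⟩ := hM B hB'
  have hsub : ESA a κ c B ⊆ Exc (S₀ ∪ S₁) a κ (-c) B := by
    rintro P ⟨hl, hBx, L, i1, i2, i3, S, e, J, he, hint, hv⟩
    refine ⟨hl, hBx, ?_⟩
    set x := P.rep with hx
    have hP0 : x ≠ 0 := P.rep_nonzero
    have hLpos := finrank_pos' (k := K) (L := L)
    set l : Fin r → K := fun i => lin (a i) x with hldef
    set y : Fin r → L := fun i => algebraMap K L (lin (a i) x) with hy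
    have hyne : ∀ i, y i ≠ 0 := fun i => (map_ne_zero _).2 (hl i)
    obtain ⟨T, hT⟩ := exists_supp y hyne
    have hfin : {w : HeightOneSpectrum (𝓞 L) | (∀ v ∈ S, ¬ w.asIdeal.LiesOver v.asIdeal) ∧
        ∃ F ∈ J, 0 < comp (fv w) y F.1}.Finite := by
      refine T.finite_toSet.subset ?_
      rintro w ⟨-, F, -, hF⟩
      exact comp_support y T hT F.1 w hF.ne'
    have hnJ : nF L S a J x = (∑ w ∈ hfin.toFinset, Real.log (Ideal.absNorm w.asIdeal)) /
        Module.finrank K L := by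
      unfold nF
      rw [finsum_eq_sum_of_support_subset (s := hfin.toFinset)]
      · congr 1
        refine Finset.sum_congr rfl fun w hw => ?_
        exact if_pos ((Set.Finite.mem_toFinset _).1 hw)
      · intro w hw
        rw [Finset.mem_coe, Set.Finite.mem_toFinset]
        by_contra hc
        exact hw (if_neg hc)
    refine N1_le'' ha (S₀ ∪ S₁) (fun v hv => hS₀ v fun h => hv
      (Finset.mem_union_left _ h)) x hP0 hl _ fun R' hR' => ?_
    have hsplit : ∑ v ∈ R', Real.log (Ideal.absNorm v.asIdeal) ≤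
        ∑ v ∈ R' \ S, Real.log (Ideal.absNorm v.asIdeal) +
          ∑ v ∈ S, Real.log (Ideal.absNorm v.asIdeal) := by
      have h5 : R' ⊆ (R' \ S) ∪ S := fun v hv => by
        by_cases h : v ∈ S
        · exact Finset.mem_union_right _ h
        · exact Finset.mem_union_left _ (Finset.mem_sdiff.2 ⟨hv, h⟩)
      rw [← Finset.sum_union Finset.sdiff_disjoint]
      exact Finset.sum_le_sum_of_subset_of_nonneg h5 fun v _ _ => Real.log_natCast_nonneg _
    set R := R' \ S with hRdef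
    have hR : ∀ v ∈ R, (v ∉ S ∧ v ∉ S₀ ∪ S₁) ∧ ∃ i j, Pool.Agent.H691R3.fv v (lin (a i) x) <
        Pool.Agent.H691R3.fv v (lin (a j) x) := by
      intro v hv
      rw [hRdef, Finset.mem_sdiff] at hv
      obtain ⟨h3, h4⟩ := hR' v hv.1
      exact ⟨⟨hv.2, h3⟩, h4⟩
    have hSR : Disjoint S R := Finset.disjoint_sdiff
    have he0 : ∀ F, (0 : ℝ) < e F := fun F => by exact_mod_cast he F
    have key := keyW (k := K) (L := L) R hfin.toFinset
      (fun w => ∑ F ∈ Jᶜ, 1 / (e F : ℝ) * comp (fv w) y F.1)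
      (∑ F ∈ Jᶜ, 1 / (e F : ℝ) * (Module.finrank K L * (hF l F.1 - mF S l F.1))) ?_ ?_
    · have h7 : (∑ F ∈ Jᶜ, 1 / (e F : ℝ) * (Module.finrank K L * (hF l F.1 - mF S l F.1))) /
          Module.finrank K L = ∑ F ∈ Jᶜ, 1 / (e F : ℝ) * (hF l F.1 - mF S l F.1) := by
        rw [Finset.sum_div]
        refine Finset.sum_congr rfl fun F _ => ?_
        field_simp
      rw [add_div, ← hnJ, h7] at key
      linarith
    · rintro w ⟨v, hvR, hvw⟩
      have hterm : ∀ F : Flt a, 0 ≤ 1 / (e F : ℝ) * comp (fv w) y F.1 := fun F =>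
        mul_nonneg (by positivity) (comp_nonneg _ _ _)
      refine ⟨Finset.sum_nonneg fun F _ => hterm F, ?_⟩
      obtain ⟨⟨hvS, hvS'⟩, i, j, hij⟩ := hR v hvR
      have hwS : ∀ v' ∈ S, ¬ w.asIdeal.LiesOver v'.asIdeal := by
        intro v' hv' hvw'
        have h4 : v = v' := HeightOneSpectrum.ext (hvw.over.trans hvw'.over.symm)
        exact hvS (h4 ▸ hv')
      have hvS1 : v ∉ S₁ := fun h => hvS' (Finset.mem_union_right _ h)
      have hlt : fv w (y i) < fv w (y j) := (fv_lt_ext v w hvw _ _).2 hij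
      have hpos := comp_pos (fv w) y hyne i j hlt
      set F0 : Finset (Fin r) := Finset.univ.filter fun i' => fv w (y i') ≤ fv w (y i) with hF0
      have hflat : ∀ i', a i' ∈ Submodule.span K (a '' (F0 : Set (Fin r))) → i' ∈ F0 := by
        intro i' hi'
        have h3 := hS₁ v hvS1 x (fv v (lin (a i) x)) ((fv v).nonneg _) F0 (fun j' hj' => by
          have h4 := (Finset.mem_filter.1 hj').2
          by_contra hc
          push Not at hc
          exact absurd ((fv_lt_ext v w hvw _ _).2 hc) (not_lt.2 h4)) i' hi'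
        exact Finset.mem_filter.2 ⟨Finset.mem_univ _, fv_le_ext v w hvw _ _ h3⟩
      by_cases hFJ : (⟨F0, hflat⟩ : Flt a) ∈ J
      · left
        rw [Set.Finite.mem_toFinset]
        exact ⟨hwS, ⟨F0, hflat⟩, hFJ, hpos⟩
      · right
        obtain ⟨m, hm⟩ := hint w hwS ⟨F0, hflat⟩
        have hm' : comp (fv w) y F0 = m * e ⟨F0, hflat⟩ *
          Real.log (Ideal.absNorm w.asIdeal) := hm
        have hm1 : 1 ≤ m := by
          by_contra hc
          have : m = 0 := by omega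
          rw [hm', this, Nat.cast_zero, zero_mul, zero_mul] at hpos
          exact lt_irrefl _ hpos
        have h5 : Real.log (Ideal.absNorm w.asIdeal) ≤
            1 / (e ⟨F0, hflat⟩ : ℝ) * comp (fv w) y F0 := by
          rw [hm']
          have h0 : 0 ≤ Real.log (Ideal.absNorm w.asIdeal : ℝ) := Real.log_natCast_nonneg _
          have hm1' : (1 : ℝ) ≤ m := by exact_mod_cast hm1
          have he' := (he0 ⟨F0, hflat⟩).ne'
          have : 1 / (e ⟨F0, hflat⟩ : ℝ) * (m * e ⟨F0, hflat⟩ *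
              Real.log (Ideal.absNorm w.asIdeal)) = m * Real.log (Ideal.absNorm w.asIdeal) := by
            field_simp
          rw [this]
          nlinarith
        refine h5.trans ?_
        exact Finset.single_le_sum
          (f := fun F : Flt a => 1 / (e F : ℝ) * comp (fv w) y F.1)
          (fun F _ => hterm F) (Finset.mem_compl.2 hFJ)
    · intro W hW'
      rw [Finset.sum_comm]
      refine Finset.sum_le_sum fun F _ => ?_
      rw [← Finset.mul_sum]
      refine mul_le_mul_of_nonneg_left ?_ (by positivity)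
      refine (sum_comp_le R W hW' l hl F.1).trans ?_
      exact mul_le_mul_of_nonneg_left (sum_le_hF l hl F.1 S R hSR) hLpos.le
  refine ⟨h1.subset hsub, le_trans ?_ h2⟩
  exact_mod_cast Set.ncard_le_ncard hsub h1

end main

end Pool.Agent.TH905.VF
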