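import Pool.Agent.TH905.VF.Gen
import Pool.Agent.TH905.VF.Kum

set_option autoImplicit false

/-!
Root stacks of projective spaces along hyperplanes.
-/

namespace Pool.Agent.TH905.VF

open NumberField IsDedekindDomain Height Pool.Agent.H691R3 LinearAlgebra.Projectivization
open scoped Classical

section one

variable {L : Type*} [Field L] [NumberField L]

/-- the sum of all local heights with respect to one coordinate hyperplane -/
lemma sum_single {q : ℕ} (y : Fin q → L) (hy : ∀ i, y i ≠ 0) (hq : 0 < q) (i : Fin q)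
    (T : Finset (HeightOneSpectrum (𝓞 L))) (hT : ∀ v, v ∉ T → ∀ i, fv v (y i) = 1) :
    ∑ w : InfinitePlace L, (w.mult : ℝ) * Real.log ((⨆ j, w.1 (y j)) / w.1 (y i)) +
      ∑ v ∈ T, Real.log ((⨆ j, fv v (y j)) / fv v (y i)) = logHeight y := by
  rw [logHeight_eq_sum y hy hq T hT]
  have h0 := product_formula (hy i) T fun v hv => hT v hv i
  have h1 : ∑ w : InfinitePlace L, (w.mult : ℝ) * Real.log ((⨆ j, w.1 (y j)) / w.1 (y i)) =
      ∑ w : InfinitePlace L, (w.mult : ℝ) * Real.log (⨆ j, w.1 (y j)) -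
        ∑ w : InfinitePlace L, (w.mult : ℝ) * Real.log (w.1 (y i)) := by
    rw [← Finset.sum_sub_distrib]
    refine Finset.sum_congr rfl fun w _ => ?_
    rw [Real.log_div (sup_pos w.1 y i (hy i)).ne' (w.1.pos (hy i)).ne']
    ring
  have h2 : ∑ v ∈ T, Real.log ((⨆ j, fv v (y j)) / fv v (y i)) =
      ∑ v ∈ T, Real.log (⨆ j, fv v (y j)) - ∑ v ∈ T, Real.log (fv v (y i)) := by
    rw [← Finset.sum_sub_distrib]
    refine Finset.sum_congr rfl fun v _ => ?_
    rw [Real.log_div (sup_pos (fv v) y i (hy i)).ne' ((fv v).pos (hy i)).ne']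
  rw [h1, h2]
  linear_combination -h0

lemma sum_single_le {q : ℕ} (y : Fin q → L) (hy : ∀ i, y i ≠ 0) (i : Fin q)
    (W : Finset (HeightOneSpectrum (𝓞 L))) :
    ∑ w ∈ W, Real.log ((⨆ j, fv w (y j)) / fv w (y i)) ≤ logHeight y := by
  obtain ⟨T, hT⟩ := exists_supp y hy
  have h := sum_single y hy (Fin.pos i) i (T ∪ W) fun v hv => hT v
    fun h => hv (Finset.mem_union_left _ h)
  have h1 : 0 ≤ ∑ w : InfinitePlace L, (w.mult : ℝ) * Real.log ((⨆ j, w.1 (y j)) / w.1 (y i)) :=
    Finset.sum_nonneg fun w _ => mul_nonneg (Nat.cast_nonneg _) (term_nonneg w.1 y hy i)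
  have h2 : ∑ w ∈ W, Real.log ((⨆ j, fv w (y j)) / fv w (y i)) ≤
      ∑ w ∈ T ∪ W, Real.log ((⨆ j, fv w (y j)) / fv w (y i)) :=
    Finset.sum_le_sum_of_subset_of_nonneg Finset.subset_union_right
      fun v _ _ => term_nonneg (fv v) y hy i
  linarith

end one

section two

variable {k L : Type*} [Field k] [NumberField k] [Field L] [NumberField L] [Algebra k L]

/-- the key inequality in abstract form -/
theorem keyW (R : Finset (HeightOneSpectrum (𝓞 k))) (U : Finset (HeightOneSpectrum (𝓞 L)))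
    (g : HeightOneSpectrum (𝓞 L) → ℝ) (X : ℝ)
    (h : ∀ w : HeightOneSpectrum (𝓞 L), (∃ v ∈ R, w.asIdeal.LiesOver v.asIdeal) →
      0 ≤ g w ∧ (w ∈ U ∨ Real.log (Ideal.absNorm w.asIdeal) ≤ g w))
    (hX : ∀ W : Finset (HeightOneSpectrum (𝓞 L)),
      (∀ w ∈ W, ∃ v ∈ R, w.asIdeal.LiesOver v.asIdeal) → ∑ w ∈ W, g w ≤ X) :
    ∑ v ∈ R, Real.log (Ideal.absNorm v.asIdeal) ≤
      ld k L + ((∑ w ∈ U, Real.log (Ideal.absNorm w.asIdeal)) + X) / Module.finrank k L := by
  have hL := finrank_pos' (k := k) (L := L)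
  obtain ⟨W, hW1, hW2⟩ := rel (k := k) (L := L) R
  have h0 : ∀ w : HeightOneSpectrum (𝓞 L), 0 ≤ Real.log (Ideal.absNorm w.asIdeal : ℝ) :=
    fun w => Real.log_natCast_nonneg _
  have h1 : ∑ w ∈ W, Real.log (Ideal.absNorm w.asIdeal) ≤
      ∑ w ∈ U, Real.log (Ideal.absNorm w.asIdeal) + X := by
    have e1 := Finset.sum_filter_add_sum_filter_not W (fun w => w ∈ U)
      (fun w => Real.log (Ideal.absNorm w.asIdeal : ℝ))
    have e2 : ∑ w ∈ W with w ∈ U, Real.log (Ideal.absNorm w.asIdeal : ℝ) ≤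
        ∑ w ∈ U, Real.log (Ideal.absNorm w.asIdeal) :=
      Finset.sum_le_sum_of_subset_of_nonneg (fun w hw => (Finset.mem_filter.1 hw).2)
        fun w _ _ => h0 w
    have e3 : ∑ w ∈ W with w ∉ U, Real.log (Ideal.absNorm w.asIdeal : ℝ) ≤
        ∑ w ∈ W with w ∉ U, g w := by
      refine Finset.sum_le_sum fun w hw => ?_
      obtain ⟨hw1, hw2⟩ := Finset.mem_filter.1 hw
      rcases (h w (hW1 w hw1)).2 with h3 | h3
      · exact absurd h3 hw2
      · exact h3
    have e4 := hX (W.filter fun w => w ∉ U) fun w hw => hW1 w (Finset.mem_filter.1 hw).1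
    linarith
  unfold ld
  rw [show Real.log |(discr L : ℝ)| / Module.finrank k L - Real.log |(discr k : ℝ)| +
      ((∑ w ∈ U, Real.log (Ideal.absNorm w.asIdeal)) + X) / Module.finrank k L =
      (Real.log |(discr L : ℝ)| + ((∑ w ∈ U, Real.log (Ideal.absNorm w.asIdeal)) + X)) /
        Module.finrank k L - Real.log |(discr k : ℝ)| by ring]
  rw [le_sub_iff_add_le, le_div_iff₀ hL]
  linarith

end two

section ext

variable {k L : Type*} [Field k] [NumberField k] [Field L] [NumberField L] [Algebra k L]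

lemma fv_le_ext (v : HeightOneSpectrum (𝓞 k)) (w : HeightOneSpectrum (𝓞 L))
    (hw : w.asIdeal.LiesOver v.asIdeal) (a b : k) (h : fv v a ≤ fv v b) :
    fv w (algebraMap k L a) ≤ fv w (algebraMap k L b) := by
  by_contra hc
  push Not at hc
  exact absurd ((fv_lt_ext v w hw b a).1 hc) (not_lt.2 h)

lemma fv_eq_ext (v : HeightOneSpectrum (𝓞 k)) (w : HeightOneSpectrum (𝓞 L))
    (hw : w.asIdeal.LiesOver v.asIdeal) (a b : k) (h : fv v a = fv v b) :
    fv w (algebraMap k L a) = fv w (algebraMap k L b) :=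
  le_antisymm (fv_le_ext v w hw a b h.le) (fv_le_ext v w hw b a h.ge)

open Pool.Agent.H57R3.VJ (lin sv Meets not_meets sv_att le_sv)

variable {n r : ℕ}

lemma sup_att' {q : ℕ} (hq : 0 < q) (f : AbsoluteValue L ℝ) (y : Fin q → L) :
    ∃ j, (⨆ i, f (y i)) = f (y j) := by
  have : Nonempty (Fin q) := ⟨⟨0, hq⟩⟩
  obtain ⟨j, hj⟩ := exists_eq_ciSup_of_finite (f := fun j => f (y j))
  exact ⟨j, hj.symm⟩

/-- above a good prime the local height of the hyperplane is given by the values of the forms -/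
lemma lam_eq {a : Fin r → Fin (n + 1) → k} (hr : n + 1 ≤ r) (v : HeightOneSpectrum (𝓞 k))
    (h1 : ∀ i, sv (FinitePlace.mk v) (a i) = 1) (x : Fin (n + 1) → k) (hx : x ≠ 0)
    (h2 : (Finset.univ.filter fun i => Meets (a i) x (FinitePlace.mk v)).card ≤ n)
    (w : HeightOneSpectrum (𝓞 L)) (hw : w.asIdeal.LiesOver v.asIdeal) (i : Fin r) :
    Real.log ((⨆ j, fv w (algebraMap k L (a i j))) * (⨆ j, fv w (algebraMap k L (x j))) /
      fv w (algebraMap k L (lin (a i) x))) =
    Real.log ((⨆ j, fv w (algebraMap k L (lin (a j) x))) /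
      fv w (algebraMap k L (lin (a i) x))) := by
  have hfv : ∀ z : k, FinitePlace.mk v z = fv v z := fun z => rfl
  -- the sup of the coefficients
  have e1 : (⨆ j, fv w (algebraMap k L (a i j))) = 1 := by
    obtain ⟨j0, hj0⟩ := sv_att (FinitePlace.mk v) (a i)
    rw [h1 i] at hj0
    have e : fv w (algebraMap k L (a i j0)) = 1 := by
      have := fv_eq_ext (L := L) v w hw (a i j0) 1 (by rw [map_one, ← hfv, ← hj0])
      rwa [map_one, map_one] at this
    refine le_antisymm ?_ ?_
    · have : Nonempty (Fin (n + 1)) := ⟨0⟩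
      refine ciSup_le fun j => ?_
      have h3 := le_sv (FinitePlace.mk v) (a i) j
      rw [h1 i, hfv, ← map_one (fv v)] at h3
      have := fv_le_ext (L := L) v w hw (a i j) 1 h3
      rwa [map_one, map_one] at this
    · rw [← e]
      exact le_sup (fv w) (fun j => algebraMap k L (a i j)) j0
  -- the sup of the coordinates
  have e2 : (⨆ j, fv w (algebraMap k L (x j))) =
      ⨆ j, fv w (algebraMap k L (lin (a j) x)) := by
    obtain ⟨j1, hj1⟩ : ∃ j, ¬ Meets (a j) x (FinitePlace.mk v) := by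
      by_contra hc
      push Not at hc
      rw [Finset.filter_true_of_mem fun i _ => hc i, Finset.card_univ, Fintype.card_fin] at h2
      omega
    have h3 := not_meets (h1 j1) hj1
    obtain ⟨j0, hj0⟩ := sv_att (FinitePlace.mk v) x
    have h4 : fv w (algebraMap k L (lin (a j1) x)) = fv w (algebraMap k L (x j0)) :=
      fv_eq_ext v w hw _ _ (by rw [← hfv, ← hfv, h3, hj0])
    have : Nonempty (Fin (n + 1)) := ⟨0⟩
    have hne : Nonempty (Fin r) := ⟨i⟩
    refine le_antisymm (ciSup_le fun j => ?_) (ciSup_le fun j => ?_)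
    · refine le_trans ?_ (le_sup (fv w) (fun j => algebraMap k L (lin (a j) x)) j1)
      show fv w (algebraMap k L (x j)) ≤ fv w (algebraMap k L (lin (a j1) x))
      rw [h4]
      refine fv_le_ext v w hw _ _ ?_
      rw [← hfv, ← hfv, ← hj0]
      exact le_sv (FinitePlace.mk v) x j
    · refine le_trans ?_ (le_sup (fv w) (fun j => algebraMap k L (x j)) j0)
      show fv w (algebraMap k L (lin (a j) x)) ≤ fv w (algebraMap k L (x j0))
      refine fv_le_ext v w hw _ _ ?_
      rw [← hfv, ← hfv, ← hj0]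
      have h5 := Pool.Agent.H57R3.VJ.lin_le (FinitePlace.mk v) (a j) x
      rwa [h1 j, one_mul] at h5
  rw [e1, e2, one_mul]

end ext

section main

open Pool.Agent.H57R3.VJ (lin GenPos N1 sv Meets bad_exists)
open Pool.Agent.Results.MP_9ec3f0_nt.HyperplaneExceptions (expo Exc)

/-- the local height of the hyperplane `a = 0` at a point of `ℙ^n(k)` over an extension -/
noncomputable def lamL {k L : Type*} [Field k] [Field L] [NumberField L] [Algebra k L]
    {n : ℕ} (a x : Fin (n + 1) → k) (w : HeightOneSpectrum (𝓞 L)) : ℝ :=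
  Real.log ((⨆ j, fv w (algebraMap k L (a j))) * (⨆ j, fv w (algebraMap k L (x j))) /
    fv w (algebraMap k L (lin a x)))

/-- the truncated counting function of the hyperplanes in `J` over `L` -/
noncomputable def nJ {k : Type*} (L : Type*) [Field k] [NumberField k] [Field L] [NumberField L]
    [Algebra k L] {n r : ℕ} (S : Finset (HeightOneSpectrum (𝓞 k))) (a : Fin r → Fin (n + 1) → k)
    (J : Finset (Fin r)) (x : Fin (n + 1) → k) : ℝ :=
  (∑ᶠ w : HeightOneSpectrum (𝓞 L),
    if (∀ v ∈ S, ¬ w.asIdeal.LiesOver v.asIdeal) ∧ ∃ i ∈ J, 0 < lamL (a i) x w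
    then Real.log (Ideal.absNorm w.asIdeal) else 0) / Module.finrank k L

/-- the exceptional points -/
def ES {k : Type} [Field k] [NumberField k] {n r : ℕ} (S : Finset (HeightOneSpectrum (𝓞 k)))
    (a : Fin r → Fin (n + 1) → k) (θ c B : ℝ) : Set (ℙ k (Fin (n + 1) → k)) :=
  {P | (∀ i, lin (a i) P.rep ≠ 0) ∧ P.mulHeight ≤ B ∧
    ∃ (L : Type) (_ : Field L) (_ : NumberField L) (_ : Algebra k L) (e : Fin r → ℕ)
      (J : Finset (Fin r)), (∀ i, 1 ≤ e i) ∧
      (∀ w : HeightOneSpectrum (𝓞 L), (∀ v ∈ S, ¬ w.asIdeal.LiesOver v.asIdeal) →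
        ∀ i, ∃ m : ℕ, lamL (a i) P.rep w = m * e i * Real.log (Ideal.absNorm w.asIdeal)) ∧
      nJ L S a J P.rep + ld k L + c <
        (θ - ∑ i ∈ Jᶜ, 1 / (e i : ℝ)) * Real.log P.mulHeight}

lemma lamL_support {k L : Type*} [Field k] [Field L] [NumberField L] [Algebra k L] {n : ℕ}
    {a x : Fin (n + 1) → k} (ha : a ≠ 0) (hx : x ≠ 0) (hl : lin a x ≠ 0) :
    {w : HeightOneSpectrum (𝓞 L) | lamL a x w ≠ 0}.Finite := by
  have hinj := FaithfulSMul.algebraMap_injective k L
  have h1 : (fun j => algebraMap k L (a j)) ≠ 0 := by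
    intro h
    apply ha
    funext j
    have := congrFun h j
    exact (map_eq_zero _).1 this
  have h2 : (fun j => algebraMap k L (x j)) ≠ 0 := by
    intro h
    apply hx
    funext j
    have := congrFun h j
    exact (map_eq_zero _).1 this
  have h3 : Pool.Agent.W232.VA.lin
      (fun j => algebraMap k L (a j)) (fun j => algebraMap k L (x j)) = algebraMap k L (lin a x) := by
    unfold Pool.Agent.W232.VA.lin lin
    rw [map_sum]
    exact Finset.sum_congr rfl fun j _ => (map_mul _ _ _).symm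
  have h4 := Pool.Agent.W232.VA.lam_support h1 h2 (by rw [h3]; exact (map_ne_zero _).2 hl)
  refine h4.subset fun w hw => ?_
  have h5 : Pool.Agent.W232.VA.lam (fv w)
      (fun j => algebraMap k L (a j)) (fun j => algebraMap k L (x j)) = lamL a x w := by
    unfold Pool.Agent.W232.VA.lam lamL
    rw [h3]
  show Pool.Agent.W232.VA.lam _ _ _ ≠ 0
  rw [h5]
  exact hw

theorem stk_main (k : Type) [Field k] [NumberField k] (n r : ℕ) (hn : 1 ≤ n) (hr : n + 1 ≤ r)
    (a : Fin r → Fin (n + 1) → k)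
    (ha : ∀ I : Finset (Fin r), I.card = n + 1 → LinearIndependent k (fun i : I => a i))
    (S : Finset (HeightOneSpectrum (𝓞 k))) (θ c δ : ℝ) (hθ : 0 ≤ θ) (hδ : 0 < δ) :
    ∃ M : ℝ, ∀ B : ℝ, 1 ≤ B →
      (ES S a θ c B).Finite ∧ ((ES S a θ c B).ncard : ℝ) ≤ M * B ^ (expo n r θ + δ) := by
  have ha0 : ∀ i, a i ≠ 0 := GenPos.ne_zero ha hr
  obtain ⟨S0, hS, hs1, hs2⟩ := bad_exists (a := a) ha ha0 (S.image FinitePlace.mk)
  -- the height of the values
  have hne : Nonempty (Fin (n + 1)) := ⟨0⟩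
  obtain ⟨Ca, hCa⟩ : ∃ Ca : ℝ, ∀ x : Fin (n + 1) → k,
      logHeight (fun i => lin (a i) x) ≤ Ca + logHeight x := by
    refine ⟨totalWeight k * Real.log (Nat.card (Fin (n + 1))) +
      logHeight (fun p : Fin r × Fin (n + 1) => a p.1 p.2), fun x => ?_⟩
    exact logHeight_linearMap_apply_le (fun p : Fin r × Fin (n + 1) => a p.1 p.2) x
  obtain ⟨-, M, hM⟩ := Pool.Agent.Results.MP_9ec3f0_nt.HyperplaneExceptions.result k n r hn hr a ha
    S0 θ (r * |Ca| - c) δ hθ hδ
  refine ⟨M, fun B hB => ?_⟩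
  obtain ⟨h1, h2⟩ := hM B hB
  have hsub : ES S a θ c B ⊆ Exc S0 a θ (r * |Ca| - c) B := by
    rintro P ⟨hl, hB', L, _, _, _, e, J, he, hint, hv⟩
    refine ⟨hl, hB', ?_⟩
    have hP0 : P.rep ≠ 0 := P.rep_nonzero
    set x := P.rep with hx
    have hLpos := finrank_pos' (k := k) (L := L)
    set y : Fin r → L := fun i => algebraMap k L (lin (a i) x) with hy
    have hyne : ∀ i, y i ≠ 0 := fun i => (map_ne_zero _).2 (hl i)
    have hfin : {w : HeightOneSpectrum (𝓞 L) | (∀ v ∈ S, ¬ w.asIdeal.LiesOver v.asIdeal) ∧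
        ∃ i ∈ J, 0 < lamL (a i) x w}.Finite := by
      refine (Set.finite_iUnion fun i => lamL_support (L := L) (ha0 i) hP0 (hl i)).subset ?_
      rintro w ⟨-, i, -, hi⟩
      exact Set.mem_iUnion.2 ⟨i, hi.ne'⟩
    have hnJ : nJ L S a J x = (∑ w ∈ hfin.toFinset, Real.log (Ideal.absNorm w.asIdeal)) /
        Module.finrank k L := by
      unfold nJ
      rw [finsum_eq_sum_of_support_subset (s := hfin.toFinset)]
      · congr 1
        refine Finset.sum_congr rfl fun w hw => ?_
        exact if_pos ((Set.Finite.mem_toFinset _).1 hw)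
      · intro w hw
        rw [Finset.mem_coe, Set.Finite.mem_toFinset]
        by_contra hc
        exact hw (if_neg hc)
    refine N1_le hr ha0 S0 hs1 hs2 x hP0 hl _ fun R hR => ?_
    -- the weights
    have he0 : ∀ i, (0 : ℝ) < e i := fun i => by exact_mod_cast he i
    have key := keyW (k := k) (L := L) R hfin.toFinset
      (fun w => ∑ i ∈ Jᶜ, 1 / (e i : ℝ) * Real.log ((⨆ j, fv w (y j)) / fv w (y i)))
      (∑ i ∈ Jᶜ, 1 / (e i : ℝ) * logHeight y) ?_ ?_
    · have hext : logHeight y = Module.finrank k L * logHeight (fun i => lin (a i) x) :=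
        Pool.Agent.Helper259.HtExt.logHeight_ext (L := L) fun i => lin (a i) x
      have h4 := hCa x
      have h6 : Real.log P.mulHeight = logHeight x := by
        rw [rep_height, logHeight_eq_log_mulHeight]
      rw [h6] at hv ⊢
      have hs0 : 0 ≤ ∑ i ∈ Jᶜ, 1 / (e i : ℝ) := Finset.sum_nonneg fun i _ => by positivity
      have hs1' : ∑ i ∈ Jᶜ, 1 / (e i : ℝ) ≤ r := by
        refine (Finset.sum_le_card_nsmul _ _ 1 fun i _ => ?_).trans ?_
        · rw [div_le_one (he0 i)]
          exact_mod_cast he i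
        · rw [nsmul_eq_mul, mul_one]
          have : (Jᶜ).card ≤ Fintype.card (Fin r) := Finset.card_le_univ _
          rw [Fintype.card_fin] at this
          exact_mod_cast this
      have h7 : (∑ i ∈ Jᶜ, 1 / (e i : ℝ) * logHeight y) / Module.finrank k L =
          (∑ i ∈ Jᶜ, 1 / (e i : ℝ)) * logHeight (fun i => lin (a i) x) := by
        rw [← Finset.sum_mul, hext]
        field_simp
      rw [add_div, ← hnJ, h7] at key
      have h8 : (∑ i ∈ Jᶜ, 1 / (e i : ℝ)) * logHeight (fun i => lin (a i) x) ≤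
          (∑ i ∈ Jᶜ, 1 / (e i : ℝ)) * (|Ca| + logHeight x) := by
        refine mul_le_mul_of_nonneg_left ?_ hs0
        linarith [le_abs_self Ca]
      have h9 : (∑ i ∈ Jᶜ, 1 / (e i : ℝ)) * |Ca| ≤ r * |Ca| :=
        mul_le_mul_of_nonneg_right hs1' (abs_nonneg _)
      nlinarith
    · rintro w ⟨v, hvR, hvw⟩
      have hterm : ∀ i, 0 ≤ 1 / (e i : ℝ) * Real.log ((⨆ j, fv w (y j)) / fv w (y i)) := fun i =>
        mul_nonneg (by positivity) (term_nonneg (fv w) y hyne i)
      refine ⟨Finset.sum_nonneg fun i _ => hterm i, ?_⟩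
      obtain ⟨hvS, i, j, hij⟩ := hR v hvR
      have hwS : ∀ v' ∈ S, ¬ w.asIdeal.LiesOver v'.asIdeal := by
        intro v' hv' hvw'
        have h4 : v = v' := HeightOneSpectrum.ext (hvw.over.trans hvw'.over.symm)
        exact hvS (hS (Finset.mem_image_of_mem _ (h4 ▸ hv')))
      have hlam : lamL (a i) x w = Real.log ((⨆ j, fv w (y j)) / fv w (y i)) :=
        lam_eq hr v (hs1 _ hvS) x hP0 (hs2 _ hvS x hP0) w hvw i
      have hlt : fv w (y i) < fv w (y j) := (fv_lt_ext v w hvw _ _).2 hij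
      have hpos : 0 < lamL (a i) x w := by
        rw [hlam]
        refine Real.log_pos ?_
        rw [one_lt_div ((fv w).pos (hyne i))]
        exact hlt.trans_le (le_sup (fv w) y j)
      by_cases hiJ : i ∈ J
      · left
        rw [Set.Finite.mem_toFinset]
        exact ⟨hwS, i, hiJ, hpos⟩
      · right
        obtain ⟨m, hm⟩ := hint w hwS i
        have hm1 : 1 ≤ m := by
          by_contra hc
          have : m = 0 := by omega
          rw [hm, this, Nat.cast_zero, zero_mul, zero_mul] at hpos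
          exact lt_irrefl _ hpos
        have h5 : Real.log (Ideal.absNorm w.asIdeal) ≤
            1 / (e i : ℝ) * Real.log ((⨆ j, fv w (y j)) / fv w (y i)) := by
          rw [← hlam, hm]
          have h0 : 0 ≤ Real.log (Ideal.absNorm w.asIdeal : ℝ) := Real.log_natCast_nonneg _
          have hm1' : (1 : ℝ) ≤ m := by exact_mod_cast hm1
          have he' := (he0 i).ne'
          have : 1 / (e i : ℝ) * (m * e i * Real.log (Ideal.absNorm w.asIdeal)) =
              m * Real.log (Ideal.absNorm w.asIdeal) := by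
            field_simp
          rw [this]
          nlinarith
        refine h5.trans ?_
        exact Finset.single_le_sum
          (f := fun i => 1 / (e i : ℝ) * Real.log ((⨆ j, fv w (y j)) / fv w (y i)))
          (fun i _ => hterm i) (Finset.mem_compl.2 hiJ)
    · intro W _
      rw [Finset.sum_comm]
      refine Finset.sum_le_sum fun i _ => ?_
      rw [← Finset.mul_sum]
      exact mul_le_mul_of_nonneg_left (sum_single_le y hyne i W) (by positivity)
  refine ⟨h1.subset hsub, le_trans ?_ h2⟩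
  exact_mod_cast Set.ncard_le_ncard hsub h1

end main

end Pool.Agent.TH905.VF
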