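import Pool.Agent.TH905.VF.Rel
import Pool.Agent.H691R3.Places
import Pool.Agent.Helper259.HtExt

set_option autoImplicit false

/-!
Local heights with respect to the coordinate hyperplanes.
-/

namespace Pool.Agent.TH905.VF

open NumberField IsDedekindDomain Height Pool.Agent.H691R3

section one

variable {L : Type*} [Field L] [NumberField L]

lemma fv_lt_iff (v : HeightOneSpectrum (𝓞 L)) (a b : L) :
    fv v a < fv v b ↔ v.valuation L a < v.valuation L b := by
  have h : ∀ x : L, fv v x = (WithZeroMulInt.toNNReal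
      (NumberField.HeightOneSpectrum.absNorm_ne_zero v) (v.valuation L x) : ℝ) := fun x =>
    FinitePlace.norm_embedding' (v := v) (x := x)
  rw [h, h, NNReal.coe_lt_coe]
  exact (WithZeroMulInt.toNNReal_strictMono
    (NumberField.HeightOneSpectrum.one_lt_absNorm_nnreal v)).lt_iff_lt

/-- the sum of the local heights with respect to the coordinate hyperplanes, for an absolute
value `f` -/
noncomputable def loc {q : ℕ} (f : AbsoluteValue L ℝ) (y : Fin q → L) : ℝ :=
  ∑ i, Real.log ((⨆ j, f (y j)) / f (y i))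

lemma le_sup {q : ℕ} (f : AbsoluteValue L ℝ) (y : Fin q → L) (i : Fin q) :
    f (y i) ≤ ⨆ j, f (y j) :=
  le_ciSup (f := fun j => f (y j)) (Set.finite_range _).bddAbove i

lemma sup_pos {q : ℕ} (f : AbsoluteValue L ℝ) (y : Fin q → L) (i : Fin q) (h : y i ≠ 0) :
    0 < ⨆ j, f (y j) := (f.pos h).trans_le (le_sup f y i)

lemma term_nonneg {q : ℕ} (f : AbsoluteValue L ℝ) (y : Fin q → L) (hy : ∀ i, y i ≠ 0)
    (i : Fin q) : 0 ≤ Real.log ((⨆ j, f (y j)) / f (y i)) :=
  Real.log_nonneg ((one_le_div (f.pos (hy i))).mpr (le_sup f y i))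

lemma loc_nonneg {q : ℕ} (f : AbsoluteValue L ℝ) (y : Fin q → L) (hy : ∀ i, y i ≠ 0) :
    0 ≤ loc f y := Finset.sum_nonneg fun i _ => term_nonneg f y hy i

lemma loc_ge {q : ℕ} (w : HeightOneSpectrum (𝓞 L)) (y : Fin q → L) (hy : ∀ i, y i ≠ 0)
    (i j : Fin q) (h : fv w (y i) < fv w (y j)) :
    Real.log (Ideal.absNorm w.asIdeal) ≤ loc (fv w) y := by
  have h1 : Real.log ((⨆ j, fv w (y j)) / fv w (y i)) ≤ loc (fv w) y :=
    Finset.single_le_sum (f := fun i => Real.log ((⨆ j, fv w (y j)) / fv w (y i)))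
      (fun i _ => term_nonneg (fv w) y hy i) (Finset.mem_univ i)
  refine le_trans ?_ h1
  have hi := (fv w).pos (hy i)
  have hj := (fv w).pos (hy j)
  have h2 : Real.log (fv w (y j) / fv w (y i)) ≤ Real.log ((⨆ j, fv w (y j)) / fv w (y i)) :=
    Real.log_le_log (div_pos hj hi) (div_le_div_of_nonneg_right (le_sup _ y j) hi.le)
  refine le_trans ?_ h2
  obtain ⟨a, ha⟩ := log_fv w (hy i)
  obtain ⟨b, hb⟩ := log_fv w (hy j)
  have h3 := Real.log_lt_log hi h
  rw [Real.log_div hj.ne' hi.ne', ha, hb]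
  rw [ha, hb] at h3
  have hN := log_Nv_pos w
  have h4 : a < b := by
    by_contra hc
    push Not at hc
    have : (b : ℝ) ≤ a := by exact_mod_cast hc
    nlinarith
  have h5 : (1 : ℝ) ≤ (b : ℝ) - a := by
    have : a + 1 ≤ b := h4
    have : ((a + 1 : ℤ) : ℝ) ≤ b := by exact_mod_cast this
    push_cast at this
    linarith
  have h6 : Real.log (Ideal.absNorm w.asIdeal) = Real.log (Nv w) := rfl
  rw [h6]
  nlinarith

/-- the height in terms of a finite set of primes -/
lemma logHeight_eq_sum {q : ℕ} (y : Fin q → L) (hy : ∀ i, y i ≠ 0) (hq : 0 < q)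
    (T : Finset (HeightOneSpectrum (𝓞 L))) (hT : ∀ v, v ∉ T → ∀ i, fv v (y i) = 1) :
    logHeight y = ∑ w : InfinitePlace L, (w.mult : ℝ) * Real.log (⨆ j, w.1 (y j)) +
      ∑ v ∈ T, Real.log (⨆ j, fv v (y j)) := by
  have hne : Nonempty (Fin q) := ⟨⟨0, hq⟩⟩
  have hy0 : y ≠ 0 := fun h => hy ⟨0, hq⟩ (by rw [h]; rfl)
  have h := NumberField.mulHeight_eq (K := L) hy0
  have h1 : ∏ᶠ w : FinitePlace L, ⨆ i, w (y i) =
      ∏ᶠ v : HeightOneSpectrum (𝓞 L), ⨆ i, fv v (y i) := by
    rw [← finprod_comp_equiv (FinitePlace.equivHeightOneSpectrum (K := L)).symm]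
    rfl
  have h2 : ∏ᶠ v : HeightOneSpectrum (𝓞 L), ⨆ i, fv v (y i) = ∏ v ∈ T, ⨆ i, fv v (y i) := by
    refine finprod_eq_prod_of_mulSupport_subset _ ?_
    intro v hv
    by_contra hc
    rw [Finset.mem_coe] at hc
    apply hv
    have : (fun i => fv v (y i)) = fun _ => (1 : ℝ) := funext fun i => hT v hc i
    show (⨆ i, fv v (y i)) = 1
    rw [this, ciSup_const]
  rw [h1, h2] at h
  rw [logHeight_eq_log_mulHeight, h, Real.log_mul, Real.log_prod, Real.log_prod]
  · congr 1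
    refine Finset.sum_congr rfl fun w _ => ?_
    rw [Real.log_pow]
    rfl
  · intro v _
    exact (sup_pos (fv v) y ⟨0, hq⟩ (hy _)).ne'
  · intro w _
    exact (pow_pos (sup_pos w.1 y ⟨0, hq⟩ (hy _)) _).ne'
  · exact (Finset.prod_pos fun w _ => pow_pos (sup_pos w.1 y ⟨0, hq⟩ (hy _)) _).ne'
  · exact (Finset.prod_pos fun v _ => sup_pos (fv v) y ⟨0, hq⟩ (hy _)).ne'

lemma product_formula {x : L} (hx : x ≠ 0) (T : Finset (HeightOneSpectrum (𝓞 L)))
    (hT : ∀ v, v ∉ T → fv v x = 1) :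
    ∑ w : InfinitePlace L, (w.mult : ℝ) * Real.log (w.1 x) + ∑ v ∈ T, Real.log (fv v x) = 0 := by
  have h := log_product_formula hx
  rw [finsum_eq_sum_of_support_subset (s := T)] at h
  · exact h
  · intro v hv
    by_contra hc
    rw [Finset.mem_coe] at hc
    apply hv
    show Real.log (fv v x) = 0
    rw [hT v hc, Real.log_one]

/-- a finite set of primes outside of which all `y i` are units -/
lemma exists_supp {q : ℕ} (y : Fin q → L) (hy : ∀ i, y i ≠ 0) :
    ∃ T : Finset (HeightOneSpectrum (𝓞 L)), ∀ v, v ∉ T → ∀ i, fv v (y i) = 1 := by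
  classical
  refine ⟨Finset.univ.biUnion fun i => (fv_support_finite (hy i)).toFinset, fun v hv i => ?_⟩
  by_contra hc
  apply hv
  rw [Finset.mem_biUnion]
  exact ⟨i, Finset.mem_univ i, (Set.Finite.mem_toFinset _).2 hc⟩

lemma loc_eq {q : ℕ} (f : AbsoluteValue L ℝ) (y : Fin q → L) (hy : ∀ i, y i ≠ 0) :
    loc f y = q * Real.log (⨆ j, f (y j)) - ∑ i, Real.log (f (y i)) := by
  unfold loc
  have h : ∀ i, Real.log ((⨆ j, f (y j)) / f (y i)) =
      Real.log (⨆ j, f (y j)) - Real.log (f (y i)) := fun i =>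
    Real.log_div (sup_pos f y i (hy i)).ne' (f.pos (hy i)).ne'
  rw [Finset.sum_congr rfl fun i _ => h i, Finset.sum_sub_distrib]
  simp

/-- the sum of all local heights -/
lemma sum_loc {q : ℕ} (y : Fin q → L) (hy : ∀ i, y i ≠ 0) (hq : 0 < q)
    (T : Finset (HeightOneSpectrum (𝓞 L))) (hT : ∀ v, v ∉ T → ∀ i, fv v (y i) = 1) :
    ∑ w : InfinitePlace L, (w.mult : ℝ) * loc w.1 y + ∑ v ∈ T, loc (fv v) y =
      q * logHeight y := by
  rw [logHeight_eq_sum y hy hq T hT]
  have h1 : ∑ w : InfinitePlace L, (w.mult : ℝ) * loc w.1 y =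
      q * ∑ w : InfinitePlace L, (w.mult : ℝ) * Real.log (⨆ j, w.1 (y j)) -
        ∑ i, ∑ w : InfinitePlace L, (w.mult : ℝ) * Real.log (w.1 (y i)) := by
    rw [Finset.sum_comm, Finset.mul_sum, ← Finset.sum_sub_distrib]
    refine Finset.sum_congr rfl fun w _ => ?_
    rw [loc_eq w.1 y hy, ← Finset.mul_sum]
    ring
  have h2 : ∑ v ∈ T, loc (fv v) y = q * ∑ v ∈ T, Real.log (⨆ j, fv v (y j)) -
      ∑ i, ∑ v ∈ T, Real.log (fv v (y i)) := by
    rw [Finset.sum_comm, Finset.mul_sum, ← Finset.sum_sub_distrib]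
    refine Finset.sum_congr rfl fun v _ => ?_
    rw [loc_eq (fv v) y hy]
  have h3 : ∑ i, ∑ w : InfinitePlace L, (w.mult : ℝ) * Real.log (w.1 (y i)) +
      ∑ i, ∑ v ∈ T, Real.log (fv v (y i)) = 0 := by
    rw [← Finset.sum_add_distrib]
    exact Finset.sum_eq_zero fun i _ => product_formula (hy i) T fun v hv => hT v hv i
  rw [h1, h2]
  linear_combination -h3

end one

section two

variable {k L : Type*} [Field k] [NumberField k] [Field L] [NumberField L] [Algebra k L]

lemma fv_lt_ext (v : HeightOneSpectrum (𝓞 k)) (w : HeightOneSpectrum (𝓞 L))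
    (hw : w.asIdeal.LiesOver v.asIdeal) (a b : k) :
    fv w (algebraMap k L a) < fv w (algebraMap k L b) ↔ fv v a < fv v b := by
  have he : v.asIdeal.ramificationIdx' w.asIdeal ≠ 0 :=
    Ideal.IsDedekindDomain.ramificationIdx'_ne_zero_of_liesOver w.asIdeal v.ne_bot
  rw [fv_lt_iff, fv_lt_iff, ← HeightOneSpectrum.valuation_liesOver L v w,
    ← HeightOneSpectrum.valuation_liesOver L v w]
  exact pow_lt_pow_iff_left₀ zero_le zero_le he

/-- **The key inequality.** Let `y i ^ m = t * x i`, `x i ∈ k`, `y i ∈ L`. Then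
`[L : k] (log |disc k| + ∑_{v ∈ R} log N(v)) + (local heights of y at ∞ and in U) ≤ log |disc L| + q h(y)`
for every finite set `R` of primes of `k` at which the `x i` do not have the same absolute value and
every finite set `U` of primes of `L` not above primes in `R`. -/
theorem key {q : ℕ} (hq : 0 < q) (m : ℕ) (hm : m ≠ 0) (x : Fin q → k) (y : Fin q → L)
    (hy : ∀ i, y i ≠ 0) (t : L) (ht : t ≠ 0) (h : ∀ i, y i ^ m = t * algebraMap k L (x i))
    (R : Finset (HeightOneSpectrum (𝓞 k))) (hR : ∀ v ∈ R, ∃ i j, fv v (x i) < fv v (x j))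
    (U : Finset (HeightOneSpectrum (𝓞 L)))
    (hU : ∀ w ∈ U, ∀ v ∈ R, ¬ w.asIdeal.LiesOver v.asIdeal) :
    (Module.finrank k L : ℝ) * (Real.log |(discr k : ℝ)| +
        ∑ v ∈ R, Real.log (Ideal.absNorm v.asIdeal)) +
      (∑ w : InfinitePlace L, (w.mult : ℝ) * loc w.1 y + ∑ w ∈ U, loc (fv w) y) ≤
      Real.log |(discr L : ℝ)| + q * logHeight y := by
  classical
  obtain ⟨W, hW1, hW2⟩ := rel (k := k) (L := L) R
  obtain ⟨T, hT⟩ := exists_supp y hy
  have hdisj : Disjoint U W := by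
    rw [Finset.disjoint_left]
    intro w hwU hwW
    obtain ⟨v, hv, hvw⟩ := hW1 w hwW
    exact hU w hwU v hv hvw
  have h1 := sum_loc y hy hq (T ∪ (U ∪ W)) fun v hv i => hT v (fun hc => hv
    (Finset.mem_union_left _ hc)) i
  have h2 : ∑ w ∈ U, loc (fv w) y + ∑ w ∈ W, loc (fv w) y ≤
      ∑ v ∈ T ∪ (U ∪ W), loc (fv v) y := by
    rw [← Finset.sum_union hdisj]
    exact Finset.sum_le_sum_of_subset_of_nonneg Finset.subset_union_right
      fun v _ _ => loc_nonneg _ y hy
  have h3 : ∑ w ∈ W, Real.log (Ideal.absNorm w.asIdeal) ≤ ∑ w ∈ W, loc (fv w) y := by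
    refine Finset.sum_le_sum fun w hw => ?_
    obtain ⟨v, hv, hvw⟩ := hW1 w hw
    obtain ⟨i, j, hij⟩ := hR v hv
    refine loc_ge w y hy i j ?_
    have h4 := (fv_lt_ext v w hvw (x i) (x j)).2 hij
    have h5 : fv w (y i) ^ m < fv w (y j) ^ m := by
      rw [← map_pow, ← map_pow, h, h, map_mul, map_mul]
      exact mul_lt_mul_of_pos_left h4 ((fv w).pos ht)
    exact lt_of_pow_lt_pow_left₀ m ((fv w).nonneg _) h5
  linarith

/-- the height of `y` in terms of the height of `x` -/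
lemma height_pow {q : ℕ} (m : ℕ) (x : Fin q → k) (y : Fin q → L) (t : L) (ht : t ≠ 0)
    (h : ∀ i, y i ^ m = t * algebraMap k L (x i)) :
    (m : ℝ) * logHeight y = Module.finrank k L * logHeight x := by
  rw [← logHeight_pow, ← Pool.Agent.Helper259.HtExt.logHeight_ext (L := L) x]
  have : y ^ m = t • fun i => algebraMap k L (x i) := by
    funext i
    rw [Pi.pow_apply, h i, Pi.smul_apply, smul_eq_mul]
  rw [this, logHeight_smul_eq_logHeight _ ht]

end two

end Pool.Agent.TH905.VF
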