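import Pool.Agent.TH905.VF.Core
import Pool.Agent.TH905.VF.AC.KeyG
import Pool.Agent.W976.AC.EX
import Pool.Agent.W460.AC.NORM
import Pool.Agent.W597.AC.LOC
import Pool.Agent.W193.AC.FINQ
import Pool.Agent.W398.AC.DIM
import Pool.Agent.W131.AC.GROW
import Pool.Agent.W989.AC.MULT
import Pool.Agent.W410.AC.HTG
import Pool.Agent.TH905.VF.AC.LOCP
import Pool.Agent.TH905.VF.AC.SUMP

set_option autoImplicit false

/-!
The fibres of a function on a curve, for the points above the elements of a number field.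
-/

namespace Pool.Agent.TH905.VF

open NumberField IsDedekindDomain Height Pool.Agent.H691R3 Polynomial
open Pool.Agent.W223.AC (tt)
open Pool.Agent.TH905.VF.AC (NearP lamF lamI)

theorem nbp' : Pool.Agent.TH905.VF.AC.StmtNBP :=
  Pool.Agent.TH905.VF.AC.nbp (Pool.Agent.W976.AC.EX.t Pool.Agent.W398.AC.DIM.t
    Pool.Agent.W193.AC.FINQ.t Pool.Agent.W989.AC.MULT.t) Pool.Agent.TH905.VF.AC.LOCP.t
    (Pool.Agent.W410.AC.t Pool.Agent.W131.AC.t) Pool.Agent.TH905.VF.AC.SUMP.t
    Pool.Agent.W460.AC.t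

variable {K : Type} [Field K] [NumberField K]

lemma log_height_ext' (L : Type) [Field L] [NumberField L] [Algebra K L] (x : K) :
    Real.log (mulHeight₁ (algebraMap K L x)) = Module.finrank K L * logHeight₁ x := by
  have h := Pool.Agent.Helper259.HtExt.logHeight_ext (L := L) ![x, 1]
  have h2 : (fun i => algebraMap K L (![x, 1] i)) = ![algebraMap K L x, 1] := by
    funext i
    fin_cases i <;> simp
  rw [h2] at h
  rw [logHeight₁_eq_logHeight, ← h, ← logHeight₁_eq_logHeight]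
  rfl

lemma nat_mem_finite (M : ℕ) (hM : M ≠ 0) :
    {v : HeightOneSpectrum (𝓞 K) | (M : 𝓞 K) ∈ v.asIdeal}.Finite := by
  have h0 : ((M : ℕ) : K) ≠ 0 := by exact_mod_cast hM
  refine (Pool.Agent.W223.AC.val_finite _ h0).subset ?_
  intro v hv
  have h3 : v.valuation K (((M : ℕ) : 𝓞 K) : K) < 1 := (v.valuation_lt_one_iff_mem _).mpr hv
  have h4 : (((M : ℕ) : 𝓞 K) : K) = ((M : ℕ) : K) := by simp
  rwa [h4] at h3

omit [NumberField K] in
lemma nat_mem_over {L : Type} [Field L] [NumberField L] [Algebra K L] (M : ℕ)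
    (v : HeightOneSpectrum (𝓞 K)) (w : HeightOneSpectrum (𝓞 L)) (h : w.asIdeal.LiesOver v.asIdeal)
    (hv : (M : 𝓞 K) ∉ v.asIdeal) : (M : 𝓞 L) ∉ w.asIdeal := by
  intro h1
  apply hv
  rw [h.over, Ideal.mem_under]
  simpa using h1

lemma fv_le_one_of_den (v : HeightOneSpectrum (𝓞 K)) (a : ℚ)
    (hv : ((a.den : ℕ) : 𝓞 K) ∉ v.asIdeal) : fv v (a : K) ≤ 1 := by
  have h1 := Pool.Agent.W223.AC.val_nat_eq_one v _ hv
  have h2 : fv v ((a.den : ℕ) : K) = 1 := by
    apply le_antisymm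
    · rw [← (fv v).map_one, ← not_lt, fv_lt_iff, map_one, h1]
      exact lt_irrefl _
    · rw [← (fv v).map_one, ← not_lt, fv_lt_iff, map_one, h1]
      exact lt_irrefl _
  have h3 : (a : K) * ((a.den : ℕ) : K) = ((a.num : ℤ) : K) := by
    have := Rat.mul_den_eq_num a
    exact_mod_cast this
  have h4 : fv v ((a.num : ℤ) : K) ≤ 1 := Pool.Agent.W125.CV.fv_int v a.num
  rw [← h3, map_mul, h2, mul_one] at h4
  exact h4

/-- Points near a fibre. -/
lemma near_fibre (v : HeightOneSpectrum (𝓞 K)) (a : ℚ) (x : K) (hv : fv v (a : K) ≤ 1)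
    (h : fv v (x - a) < max (fv v x) 1) : fv v x ≤ 1 ∧ fv v (x - a) < 1 := by
  have h1 : fv v x ≤ 1 := by
    by_contra hc
    push Not at hc
    have h2 := fv_na v (x - a) (a : K)
    rw [sub_add_cancel] at h2
    rw [max_eq_left hc.le] at h
    rcases le_max_iff.1 h2 with h3 | h3
    · exact absurd h (not_lt.2 h3)
    · linarith
  rw [max_eq_right h1] at h
  exact ⟨h1, h⟩

theorem curve_key (K : Type) [Field K] [NumberField K] (A : Type) [CommRing A] [IsDedekindDomain A]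
    [Algebra ℚ A] [Algebra ℚ[X] A] [IsScalarTower ℚ ℚ[X] A] [Module.Finite ℚ[X] A]
    [FaithfulSMul ℚ[X] A] {q : ℕ} (a : Fin q → ℚ) (u : Fin q → ℕ) (y : ∀ j, Fin (u j + 1) → A)
    (hy0 : ∀ j, y j 0 = tt A - algebraMap ℚ[X] A (C (a j)))
    (hyr : ∀ j i, y j i ∈ (Ideal.span {tt A - algebraMap ℚ[X] A (C (a j))}).radical)
    (ε : ℝ) (hε : 0 < ε) :
    ∃ (T : Finset (HeightOneSpectrum (𝓞 K))) (c : ℝ), 0 ≤ c ∧
      ∀ (L : Type) [Field L] [NumberField L] [Algebra K L] (φ : A →+* L) (x : K),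
        φ (tt A) = algebraMap K L x → (∀ j, x ≠ (a j : K)) →
        (∀ (v : HeightOneSpectrum (𝓞 K)) (w : HeightOneSpectrum (𝓞 L)), v ∉ T →
          w.asIdeal.LiesOver v.asIdeal →
          (∃ j, fv v (x - (a j : K)) < max (fv v x) 1) → ∃ j, NearP (y j) φ w) ∧
        ∀ j, φ (y j 0) ≠ 0 ∧ {w : HeightOneSpectrum (𝓞 L) | lamF (y j) φ w ≠ 0}.Finite ∧
          (∑ᶠ w : HeightOneSpectrum (𝓞 L), lamF (y j) φ w) +
            ∑ w : InfinitePlace L, (w.mult : ℝ) * lamI (y j) φ w ≤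
          (Module.finrank K L : ℝ) *
            (((Module.finrank ℚ (A ⧸ Ideal.span (Set.range (y j))) : ℝ) /
              Module.finrank ℚ[X] A + ε) * logHeight₁ x + c) := by
  classical
  have hNB' := fun j => nbp' A (a j) (u j) (y j) (hy0 j) ε hε
  choose C₁ G₁ hC₁ hG₁ hNB'' using hNB'
  have hNE := fun k => Pool.Agent.TH905.VF.AC.nearN Pool.Agent.W989.AC.MULT.t Pool.Agent.W597.AC.t A
    (tt A - algebraMap ℚ[X] A (C (a k))) q u y {k} (by
      rw [Finset.prod_singleton, Ideal.span_le]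
      rintro _ ⟨i, rfl⟩
      exact hyr k i)
  choose M₂ hM₂ hNE' using hNE
  -- the heights at the zeros of `G₁`
  have hfin : ∀ j, {x : K | aeval x (G₁ j) = 0}.Finite := by
    intro j
    refine (Polynomial.rootSet_finite (G₁ j) K).subset fun x hx => ?_
    exact (Polynomial.mem_rootSet_of_ne (hG₁ j)).mpr hx
  have hC₂ : ∀ j, ∃ c₂ : ℝ, 0 ≤ c₂ ∧ ∀ x : K, aeval x (G₁ j) = 0 →
      logHeight₁ (x - (a j : K)) ≤ c₂ := by
    intro j
    obtain ⟨c₂, hc₂⟩ := ((hfin j).image fun x => logHeight₁ (x - (a j : K))).bddAbove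
    refine ⟨max c₂ 0, le_max_right _ _, fun x hx => le_trans (hc₂ ⟨x, hx, rfl⟩) (le_max_left _ _)⟩
  choose C₂ hC₂0 hC₂ using hC₂
  set M : ℕ := ∏ k, (M₂ k * (a k).den) with hM
  have hM0 : M ≠ 0 := Finset.prod_ne_zero_iff.mpr fun k _ => mul_ne_zero (hM₂ k) (a k).den_nz
  refine ⟨(nat_mem_finite (K := K) M hM0).toFinset,
    ∑ j, (Module.finrank ℚ K * C₁ j + C₂ j),
    Finset.sum_nonneg fun j _ => add_nonneg (mul_nonneg (Nat.cast_nonneg _) (hC₁ j)) (hC₂0 j), ?_⟩
  intro L _ _ _ φ x hφ hne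
  have hφa : ∀ k, φ (tt A - algebraMap ℚ[X] A (C (a k))) = algebraMap K L (x - (a k : K)) := by
    intro k
    rw [map_sub, map_sub, hφ, map_ratCast]
    congr 1
    exact eq_ratCast (φ.comp ((algebraMap ℚ[X] A).comp C)) (a k)
  have hz0 : ∀ l, φ (y l 0) ≠ 0 := by
    intro l
    rw [hy0 l, hφa, _root_.map_ne_zero]
    exact sub_ne_zero.mpr (hne l)
  refine ⟨?_, ?_⟩
  · rintro v w hv hvw ⟨k, hk⟩
    rw [Set.Finite.mem_toFinset] at hv
    have hMv : (M : 𝓞 K) ∉ v.asIdeal := hv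
    have hdiv : M₂ k * (a k).den ∣ M :=
      Finset.dvd_prod_of_mem (fun k => M₂ k * (a k).den) (Finset.mem_univ k)
    have hdv : (((a k).den : ℕ) : 𝓞 K) ∉ v.asIdeal :=
      Pool.Agent.W223.AC.not_mem_of_dvd ((Dvd.intro_left _ rfl).trans hdiv) hMv
    have hM2v : ((M₂ k : ℕ) : 𝓞 K) ∉ v.asIdeal :=
      Pool.Agent.W223.AC.not_mem_of_dvd ((Dvd.intro _ rfl).trans hdiv) hMv
    obtain ⟨h1, h2⟩ := near_fibre v (a k) x (fv_le_one_of_den v (a k) hdv) hk
    have h3 : w.valuation L (φ (tt A)) ≤ 1 := by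
      rw [hφ, ← not_lt]
      intro h3
      have h4 : w.valuation L (1 : L) < w.valuation L (algebraMap K L x) := by rwa [map_one]
      rw [← fv_lt_iff, ← map_one (algebraMap K L), fv_lt_ext v w hvw, map_one] at h4
      linarith
    have h4 : w.valuation L (φ (tt A - algebraMap ℚ[X] A (C (a k)))) < 1 := by
      rw [hφa k]
      have h5 : fv v (x - (a k : K)) < fv v 1 := by rwa [map_one]
      rw [← fv_lt_ext v w hvw, fv_lt_iff, map_one, map_one] at h5
      exact h5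
    obtain ⟨l, -, h5⟩ := hNE' k L φ w (nat_mem_over _ v w hvw hM2v) h3 h4
    exact ⟨l, h3, h5⟩
  · intro j
    refine ⟨hz0 j, ?_⟩
    have hKL : (Module.finrank ℚ L : ℝ) = Module.finrank K L * Module.finrank ℚ K := by
      rw [mul_comm]
      exact_mod_cast (Module.finrank_mul_finrank ℚ K L).symm
    have hLn : (0 : ℝ) ≤ Module.finrank K L := Nat.cast_nonneg _
    have hcj : Module.finrank ℚ K * C₁ j + C₂ j ≤ ∑ j, (Module.finrank ℚ K * C₁ j + C₂ j) :=
      Finset.single_le_sum (f := fun j => (Module.finrank ℚ K : ℝ) * C₁ j + C₂ j)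
        (fun j _ => add_nonneg (mul_nonneg (Nat.cast_nonneg _) (hC₁ j)) (hC₂0 j))
        (Finset.mem_univ j)
    have hh : Real.log (Height.mulHeight₁ (φ (tt A))) = Module.finrank K L * logHeight₁ x := by
      rw [hφ]
      exact log_height_ext' L x
    have hcj1 : Module.finrank ℚ K * C₁ j ≤ ∑ j, (Module.finrank ℚ K * C₁ j + C₂ j) := by
      linarith [hC₂0 j]
    have hcj2 : C₂ j ≤ ∑ j, (Module.finrank ℚ K * C₁ j + C₂ j) := by
      have : 0 ≤ (Module.finrank ℚ K : ℝ) * C₁ j := mul_nonneg (Nat.cast_nonneg _) (hC₁ j)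
      linarith
    by_cases hG : aeval x (G₁ j) = 0
    · -- finitely many `x`
      obtain ⟨h1, h2⟩ := Pool.Agent.TH905.VF.AC.SUMP.t L (φ (y j 0)) 1 1 1 (lamF (y j) φ)
        (lamI (y j) φ) (hz0 j) one_ne_zero le_rfl le_rfl
        (fun v => Pool.Agent.TH905.VF.AC.lamF_nonneg (y j) φ v)
        (by
          intro v hv
          have h2 := Pool.Agent.TH905.VF.AC.sup_aux
            (fun i => Pool.Agent.W125.CV.fv v (φ (y j i)))
            ((Pool.Agent.W125.CV.fv v).pos (hz0 j)) hv 0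
          rw [Nat.cast_one, Nat.cast_one, map_one, mul_one, one_mul]
          exact h2)
        (fun w => Pool.Agent.TH905.VF.AC.lamI_nonneg (y j) φ w)
        (by
          intro w hw
          have h2 := Pool.Agent.TH905.VF.AC.sup_aux (fun i => w (φ (y j i)))
            ((InfinitePlace.pos_iff).mpr (hz0 j)) hw 0
          rw [Nat.cast_one, one_mul, one_mul]
          exact h2)
      refine ⟨h1, ?_⟩
      have h3 : Real.log (Height.mulHeight₁ (φ (y j 0))) =
          Module.finrank K L * logHeight₁ (x - (a j : K)) := by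
        rw [hy0 j, hφa j]
        exact log_height_ext' L _
      rw [h3, Nat.cast_one, one_mul, Real.log_one, add_zero, mul_zero, add_zero] at h2
      refine h2.trans (mul_le_mul_of_nonneg_left ?_ hLn)
      have h4 : 0 ≤ ((Module.finrank ℚ (A ⧸ Ideal.span (Set.range (y j))) : ℝ) /
              Module.finrank ℚ[X] A + ε) * logHeight₁ x :=
        mul_nonneg (by positivity) (zero_le_logHeight₁ x)
      linarith [hC₂ j x hG]
    · obtain ⟨h1, h2⟩ := hNB'' j L φ (by
        rw [hφ, aeval_algebraMap_apply]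
        intro h
        rw [map_eq_zero] at h
        exact hG h) (hz0 j)
      refine ⟨h1, h2.trans ?_⟩
      rw [hh, hKL]
      nlinarith [mul_le_mul_of_nonneg_left hcj1 hLn]

end Pool.Agent.TH905.VF
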