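import Pool.Agent.TH905.VF.Stk
import Pool.Agent.TH905.VF.KumMono

set_option autoImplicit false

/-!
Local degrees.
-/

namespace Pool.Agent.TH905.VF

open NumberField IsDedekindDomain Height Pool.Agent.H691R3
open scoped Classical

section

variable {k L : Type*} [Field k] [NumberField k] [Field L] [NumberField L] [Algebra k L]

/-- the local degree -/
noncomputable def ldeg (v : HeightOneSpectrum (𝓞 k)) (w : HeightOneSpectrum (𝓞 L)) : ℕ :=
  v.asIdeal.ramificationIdx' w.asIdeal * v.asIdeal.inertiaDeg' w.asIdeal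

lemma toNNReal_pow_base {e e' : NNReal} (he : e ≠ 0) (he' : e' ≠ 0) (f : ℕ) (h : e' = e ^ f)
    (x : WithZero (Multiplicative ℤ)) :
    WithZeroMulInt.toNNReal he' x = WithZeroMulInt.toNNReal he x ^ (f : ℤ) ∨ x = 0 := by
  by_cases hx : x = 0
  · exact Or.inr hx
  · left
    rw [WithZeroMulInt.toNNReal_neg_apply he' hx, WithZeroMulInt.toNNReal_neg_apply he hx, h,
      ← zpow_natCast, ← zpow_mul, ← zpow_mul, mul_comm]

/-- the absolute value of an element of `k` at a prime of `L` -/
lemma log_fv_ext (v : HeightOneSpectrum (𝓞 k)) (w : HeightOneSpectrum (𝓞 L))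
    (hw : w.asIdeal.LiesOver v.asIdeal) (z : k) :
    Real.log (fv w (algebraMap k L z)) = ldeg v w * Real.log (fv v z) := by
  by_cases hz : z = 0
  · subst hz
    simp
  have hz' : v.valuation k z ≠ 0 := (Valuation.ne_zero_iff _).2 hz
  have hN : (Ideal.absNorm w.asIdeal : NNReal) = (Ideal.absNorm v.asIdeal : NNReal) ^
      (v.asIdeal.inertiaDeg' w.asIdeal) := by
    have := Ideal.absNorm_eq_pow_inertiaDeg'_of_liesOver w.asIdeal v.asIdeal v.isPrime v.ne_bot
    rw [this]
    push_cast
    rfl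
  have h1 : fv w (algebraMap k L z) = fv v z ^ (ldeg v w) := by
    have e1 : fv w (algebraMap k L z) = (WithZeroMulInt.toNNReal
        (NumberField.HeightOneSpectrum.absNorm_ne_zero w) (w.valuation L (algebraMap k L z)) : ℝ) :=
      FinitePlace.norm_embedding' (v := w) (x := algebraMap k L z)
    have e2 : fv v z = (WithZeroMulInt.toNNReal
        (NumberField.HeightOneSpectrum.absNorm_ne_zero v) (v.valuation k z) : ℝ) :=
      FinitePlace.norm_embedding' (v := v) (x := z)
    rw [e1, e2, ← HeightOneSpectrum.valuation_liesOver L v w, map_pow]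
    rcases toNNReal_pow_base (NumberField.HeightOneSpectrum.absNorm_ne_zero v)
      (NumberField.HeightOneSpectrum.absNorm_ne_zero w) _ hN (v.valuation k z) with h3 | h3
    · rw [h3]
      unfold ldeg
      push_cast
      rw [zpow_natCast, ← pow_mul, mul_comm]
    · exact absurd h3 hz'
  rw [h1, Real.log_pow]

/-- the local degrees of the primes above `v` add up to at most the degree -/
lemma sum_ldeg_le (v : HeightOneSpectrum (𝓞 k)) (W : Finset (HeightOneSpectrum (𝓞 L)))
    (hW : ∀ w ∈ W, w.asIdeal.LiesOver v.asIdeal) :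
    (∑ w ∈ W, (ldeg v w : ℝ)) ≤ Module.finrank k L := by
  have hmax : v.asIdeal.IsMaximal := v.isMaximal
  have h1 := Ideal.sum_ramification_inertia (𝓞 L) k L (p := v.asIdeal) v.ne_bot
  have h2 : ∑ w ∈ W, ldeg v w ≤ Module.finrank k L := by
    rw [← h1]
    have e1 : ∑ w ∈ W, ldeg v w = ∑ P ∈ W.image HeightOneSpectrum.asIdeal,
        v.asIdeal.ramificationIdx' P * v.asIdeal.inertiaDeg' P := by
      rw [Finset.sum_image]
      · rfl
      · intro a _ b _ hab
        exact HeightOneSpectrum.ext hab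
    rw [e1]
    refine Finset.sum_le_sum_of_subset ?_
    intro P hP
    obtain ⟨w, hw, rfl⟩ := Finset.mem_image.1 hP
    exact (IsDedekindDomain.mem_primesOverFinset_iff v.ne_bot _).2 ⟨w.isPrime, hW w hw⟩
  exact_mod_cast h2

lemma comp_ext {r : ℕ} (v : HeightOneSpectrum (𝓞 k)) (w : HeightOneSpectrum (𝓞 L))
    (hw : w.asIdeal.LiesOver v.asIdeal) (l : Fin r → k) (hl : ∀ i, l i ≠ 0)
    (F : Finset (Fin r)) :
    comp (fv w) (fun i => algebraMap k L (l i)) F = ldeg v w * comp (fv v) l F := by
  have hc : (0 : ℝ) ≤ ldeg v w := Nat.cast_nonneg _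
  have h1 : ∀ i, lc (fv w) (fun i => algebraMap k L (l i)) i = ldeg v w * lc (fv v) l i := by
    intro i
    obtain ⟨j0, hj0⟩ := sup_att' (Fin.pos i) (fv v) l
    have hs : (⨆ j, fv w (algebraMap k L (l j))) = fv w (algebraMap k L (l j0)) := by
      have : Nonempty (Fin r) := ⟨i⟩
      refine le_antisymm (ciSup_le fun j => ?_) (le_sup (fv w) (fun j => algebraMap k L (l j)) j0)
      refine fv_le_ext v w hw _ _ ?_
      rw [← hj0]
      exact le_sup (fv v) l j
    unfold lc
    rw [hs, hj0, Real.log_div ((fv w).pos ((map_ne_zero _).2 (hl j0))).ne'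
      ((fv w).pos ((map_ne_zero _).2 (hl i))).ne', Real.log_div ((fv v).pos (hl j0)).ne'
      ((fv v).pos (hl i)).ne', log_fv_ext v w hw, log_fv_ext v w hw]
    ring
  unfold comp
  simp only [h1]
  rw [← Real.mul_iInf_of_nonneg hc, ← Real.mul_iSup_of_nonneg hc, ← mul_sub,
    mul_max_of_nonneg _ _ hc, mul_zero]

/-- the sum over the primes above `R` -/
lemma sum_comp_le {r : ℕ} (R : Finset (HeightOneSpectrum (𝓞 k)))
    (W : Finset (HeightOneSpectrum (𝓞 L)))
    (hW : ∀ w ∈ W, ∃ v ∈ R, w.asIdeal.LiesOver v.asIdeal) (l : Fin r → k) (hl : ∀ i, l i ≠ 0)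
    (F : Finset (Fin r)) :
    ∑ w ∈ W, comp (fv w) (fun i => algebraMap k L (l i)) F ≤
      Module.finrank k L * ∑ v ∈ R, comp (fv v) l F := by
  have h1 : ∑ w ∈ W, comp (fv w) (fun i => algebraMap k L (l i)) F ≤
      ∑ v ∈ R, ∑ w ∈ W with w.asIdeal.LiesOver v.asIdeal,
        comp (fv w) (fun i => algebraMap k L (l i)) F := by
    have e1 : ∑ w ∈ W, comp (fv w) (fun i => algebraMap k L (l i)) F ≤
        ∑ w ∈ W, ∑ v ∈ R, if w.asIdeal.LiesOver v.asIdeal then
          comp (fv w) (fun i => algebraMap k L (l i)) F else 0 := by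
      refine Finset.sum_le_sum fun w hw => ?_
      obtain ⟨v, hv, hvw⟩ := hW w hw
      have h2 := Finset.single_le_sum (s := R) (f := fun v : HeightOneSpectrum (𝓞 k) =>
        if w.asIdeal.LiesOver v.asIdeal then
          comp (fv w) (fun i => algebraMap k L (l i)) F else 0) (fun u _ => by
            by_cases h : w.asIdeal.LiesOver u.asIdeal
            · rw [if_pos h]; exact le_max_left _ _
            · rw [if_neg h]) hv
      rw [if_pos hvw] at h2
      exact h2
    refine e1.trans (le_of_eq ?_)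
    rw [Finset.sum_comm]
    refine Finset.sum_congr rfl fun v _ => ?_
    rw [Finset.sum_filter]
  refine h1.trans ?_
  rw [Finset.mul_sum]
  refine Finset.sum_le_sum fun v _ => ?_
  have h2 : ∑ w ∈ W with w.asIdeal.LiesOver v.asIdeal,
      comp (fv w) (fun i => algebraMap k L (l i)) F =
      (∑ w ∈ W with w.asIdeal.LiesOver v.asIdeal, (ldeg v w : ℝ)) * comp (fv v) l F := by
    rw [Finset.sum_mul]
    exact Finset.sum_congr rfl fun w hw => comp_ext v w (Finset.mem_filter.1 hw).2 l hl F
  rw [h2]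
  exact mul_le_mul_of_nonneg_right
    (sum_ldeg_le v _ fun w hw => (Finset.mem_filter.1 hw).2) (le_max_left _ _)

end

section flats

variable {k : Type*} [Field k] [NumberField k] {n r : ℕ}

open Pool.Agent.Results.MP_9ec3f0_nt.HyperplaneArrangements (lin)

/-- Outside a finite set of primes, the forms with small values at a point are those of a flat. -/
lemma exists_S1 (a : Fin r → Fin (n + 1) → k) :
    ∃ S₁ : Finset (HeightOneSpectrum (𝓞 k)), ∀ v ∉ S₁, ∀ (x : Fin (n + 1) → k) (θ : ℝ), 0 ≤ θ →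
      ∀ F : Finset (Fin r), (∀ j ∈ F, fv v (lin (a j) x) ≤ θ) →
      ∀ i, a i ∈ Submodule.span k (a '' (F : Set (Fin r))) → fv v (lin (a i) x) ≤ θ := by
  have hc : ∀ (F : Finset (Fin r)) (i : Fin r), ∃ c : Fin r → k,
      a i ∈ Submodule.span k (a '' (F : Set (Fin r))) → ∑ j ∈ F, c j • a j = a i := by
    intro F i
    by_cases h : a i ∈ Submodule.span k (a '' (F : Set (Fin r)))
    · obtain ⟨c, hc⟩ := (Submodule.mem_span_image_finset_iff_exists_fun' k).1 h
      exact ⟨c, fun _ => hc⟩
    · exact ⟨0, fun h' => absurd h' h⟩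
  choose c hc using hc
  have hfin : ∀ z : k, {v : HeightOneSpectrum (𝓞 k) | ¬ fv v z ≤ 1}.Finite := by
    intro z
    by_cases hz : z = 0
    · refine Set.Finite.subset Set.finite_empty ?_
      intro v hv
      apply hv
      rw [hz, map_zero]
      exact zero_le_one
    · refine (fv_support_finite hz).subset fun v hv h => hv ?_
      rw [h]
  refine ⟨Finset.univ.biUnion fun F => Finset.univ.biUnion fun i => Finset.univ.biUnion fun j =>
    (hfin (c F i j)).toFinset, ?_⟩
  intro v hv x θ hθ F hF i hi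
  have hv1 : ∀ j, fv v (c F i j) ≤ 1 := by
    intro j
    by_contra h
    apply hv
    rw [Finset.mem_biUnion]
    refine ⟨F, Finset.mem_univ F, ?_⟩
    rw [Finset.mem_biUnion]
    refine ⟨i, Finset.mem_univ i, ?_⟩
    rw [Finset.mem_biUnion]
    exact ⟨j, Finset.mem_univ j, (Set.Finite.mem_toFinset _).2 h⟩
  have h2 : lin (a i) x = ∑ j ∈ F, c F i j * lin (a j) x := by
    have h3 : ∑ j ∈ F, c F i j * lin (a j) x = ∑ l, (∑ j ∈ F, c F i j • a j) l * x l := by
      unfold lin
      simp only [Finset.mul_sum, Finset.sum_apply, Pi.smul_apply, smul_eq_mul, Finset.sum_mul]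
      rw [Finset.sum_comm]
      refine Finset.sum_congr rfl fun j _ => Finset.sum_congr rfl fun i _ => ?_
      ring
    rw [h3, hc F i hi]
    rfl
  rw [h2]
  have h3 : IsNonarchimedean (fv v) := fun a b => fv_na v a b
  by_cases hne : F.Nonempty
  · obtain ⟨j, hjF, hj⟩ := h3.finset_image_add_of_nonempty (fun j => c F i j * lin (a j) x) hne
    refine hj.trans ?_
    rw [map_mul]
    calc fv v (c F i j) * fv v (lin (a j) x) ≤ 1 * θ :=
          mul_le_mul (hv1 j) (hF j hjF) ((fv v).nonneg _) zero_le_one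
      _ = θ := one_mul θ
  · rw [Finset.not_nonempty_iff_eq_empty.1 hne, Finset.sum_empty, map_zero]
    exact hθ

end flats

section loc

variable {L : Type*} [Field L]

/-- the level set below a non-maximal value has positive multiplicity -/
lemma comp_pos {r : ℕ} (f : AbsoluteValue L ℝ) (y : Fin r → L) (hy : ∀ i, y i ≠ 0) (i0 j0 : Fin r)
    (h : f (y i0) < f (y j0)) :
    0 < comp f y (Finset.univ.filter fun i => f (y i) ≤ f (y i0)) := by
  set F := Finset.univ.filter fun i => f (y i) ≤ f (y i0) with hF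
  have hi0 : i0 ∈ F := Finset.mem_filter.2 ⟨Finset.mem_univ _, le_refl _⟩
  have hj0 : j0 ∉ F := fun hc => absurd (Finset.mem_filter.1 hc).2 (not_le.2 h)
  have : Nonempty F := ⟨⟨i0, hi0⟩⟩
  have : Nonempty {i // i ∉ F} := ⟨⟨j0, hj0⟩⟩
  have : Nonempty (Fin r) := ⟨i0⟩
  have hs0 : ∀ i, 0 < (⨆ j, f (y j)) / f (y i) := fun i =>
    div_pos ((f.pos (hy i0)).trans_le (le_ciSup (f := fun j => f (y j))
      (Set.finite_range _).bddAbove i0)) (f.pos (hy i))
  have h1 : lc f y i0 ≤ ⨅ i : F, lc f y i := by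
    refine le_ciInf fun i => ?_
    have h2 := (Finset.mem_filter.1 i.2).2
    unfold lc
    refine Real.log_le_log (hs0 i0) ?_
    refine div_le_div_of_nonneg_left ?_ (f.pos (hy i)) h2
    exact Real.iSup_nonneg fun j => f.nonneg _
  have h2 : (⨆ i : {i // i ∉ F}, lc f y i) < lc f y i0 := by
    obtain ⟨i, hi⟩ := exists_eq_ciSup_of_finite (f := fun i : {i // i ∉ F} => lc f y i)
    rw [← hi]
    have h3 : f (y i0) < f (y i) := by
      by_contra hc
      push Not at hc
      exact i.2 (Finset.mem_filter.2 ⟨Finset.mem_univ _, hc⟩)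
    unfold lc
    refine Real.log_lt_log (hs0 i) ?_
    refine div_lt_div_of_pos_left ?_ (f.pos (hy i0)) h3
    exact (f.pos (hy i0)).trans_le (le_ciSup (f := fun j => f (y j))
      (Set.finite_range _).bddAbove i0)
  unfold comp
  refine lt_max_of_lt_right ?_
  linarith

end loc

end Pool.Agent.TH905.VF
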