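import Mathlib

set_option autoImplicit false

/-!
The discriminant in an extension of number fields.
-/

namespace Pool.Agent.TH905.VF

open NumberField IsDedekindDomain

section

variable {k L : Type*} [Field k] [NumberField k] [Field L] [NumberField L] [Algebra k L]

/-- For a finite set `V` of primes of `k`:
`[L : k] (log |disc k| + ∑_{v ∈ V} log N(v)) ≤ log |disc L| + ∑_w log N(w)`, the last sum over the
primes `w` of `L` above the primes in `V`. -/
theorem rel (V : Finset (HeightOneSpectrum (𝓞 k))) :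
    ∃ W : Finset (HeightOneSpectrum (𝓞 L)),
      (∀ w ∈ W, ∃ v ∈ V, w.asIdeal.LiesOver v.asIdeal) ∧
      (Module.finrank k L : ℝ) * (Real.log |(discr k : ℝ)| +
        ∑ v ∈ V, Real.log (Ideal.absNorm v.asIdeal)) ≤
      Real.log |(discr L : ℝ)| + ∑ w ∈ W, Real.log (Ideal.absNorm w.asIdeal) := by
  classical
  have hmax : ∀ v : HeightOneSpectrum (𝓞 k), v.asIdeal.IsMaximal := fun v => v.isMaximal
  -- the primes above `v`
  let I : HeightOneSpectrum (𝓞 k) → Finset (Ideal (𝓞 L)) := fun v =>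
    (v.asIdeal.primesOver (𝓞 L)).toFinset
  have hI : ∀ v Q, Q ∈ I v ↔ Q.IsPrime ∧ Q.LiesOver v.asIdeal := by
    intro v Q
    show Q ∈ (v.asIdeal.primesOver (𝓞 L)).toFinset ↔ _
    rw [Set.mem_toFinset]
    rfl
  have hbot : ∀ v Q, Q ∈ I v → Q ≠ ⊥ := by
    intro v Q hQ
    obtain ⟨h1, h2⟩ := (hI v Q).1 hQ
    exact Ideal.ne_bot_of_liesOver_of_ne_bot v.ne_bot Q
  have hdisj : ∀ v ∈ V, ∀ v' ∈ V, v ≠ v' → Disjoint (I v) (I v') := by
    intro v _ v' _ hvv
    rw [Finset.disjoint_left]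
    intro Q hQ hQ'
    have h1 := ((hI v Q).1 hQ).2.over
    have h2 := ((hI v' Q).1 hQ').2.over
    exact hvv (HeightOneSpectrum.ext (h1.trans h2.symm))
  set Z := V.biUnion I with hZ
  have hZbot : ∀ Q ∈ Z, Q.IsPrime ∧ Q ≠ ⊥ := by
    intro Q hQ
    rw [hZ, Finset.mem_biUnion] at hQ
    obtain ⟨v, _, hQ⟩ := hQ
    exact ⟨((hI v Q).1 hQ).1, hbot v Q hQ⟩
  have hlog0 : ∀ Q : Ideal (𝓞 L), 0 ≤ Real.log (Ideal.absNorm Q) := fun Q =>
    Real.log_natCast_nonneg _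
  -- the set `W`
  set W : Finset (HeightOneSpectrum (𝓞 L)) :=
    Z.attach.image (fun Q => ⟨Q.1, (hZbot Q.1 Q.2).1, (hZbot Q.1 Q.2).2⟩) with hW
  have hWsum : ∑ w ∈ W, Real.log (Ideal.absNorm w.asIdeal) =
      ∑ Q ∈ Z, Real.log (Ideal.absNorm Q) := by
    rw [hW, Finset.sum_image, ← Finset.sum_attach Z]
    intro Q _ Q' _ h
    exact Subtype.ext (congrArg HeightOneSpectrum.asIdeal h)
  refine ⟨W, ?_, ?_⟩
  · intro w hw
    rw [hW, Finset.mem_image] at hw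
    obtain ⟨⟨Q, hQ⟩, _, rfl⟩ := hw
    obtain ⟨v, hv, hQ'⟩ := Finset.mem_biUnion.1 hQ
    exact ⟨v, hv, ((hI v Q).1 hQ').2⟩
  -- factorisation
  have hmap : ∀ v : HeightOneSpectrum (𝓞 k), Ideal.map (algebraMap (𝓞 k) (𝓞 L)) v.asIdeal =
      ∏ Q ∈ I v, Q ^ Q.ramificationIdx (𝓞 k) := by
    intro v
    have := hmax v
    exact Ideal.map_algebraMap_eq_finsetProd_pow v.ne_bot
  have hfr : Module.finrank (𝓞 k) (𝓞 L) = Module.finrank k L :=
    (IsFractionRing.finrank_eq (𝓞 k) k (𝓞 L) L).symm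
  have s2 : ∀ v : HeightOneSpectrum (𝓞 k),
      (Module.finrank k L : ℝ) * Real.log (Ideal.absNorm v.asIdeal) =
      ∑ Q ∈ I v, (Q.ramificationIdx (𝓞 k) : ℝ) * Real.log (Ideal.absNorm Q) := by
    intro v
    have h1 := Ideal.absNorm_algebraMap (𝓞 k) (𝓞 L) v.asIdeal
    rw [hmap v, map_prod, hfr] at h1
    have h2 : (∏ Q ∈ I v, ((Ideal.absNorm Q : ℝ)) ^ Q.ramificationIdx (𝓞 k)) =
        (Ideal.absNorm v.asIdeal : ℝ) ^ Module.finrank k L := by
      have h3 := congrArg (fun n : ℕ => (n : ℝ)) h1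
      simp only [Nat.cast_prod, Nat.cast_pow, map_pow] at h3
      exact h3
    rw [← Real.log_pow, ← h2, Real.log_prod]
    · refine Finset.sum_congr rfl fun Q _ => ?_
      rw [Real.log_pow]
    · intro Q hQ
      refine pow_ne_zero _ ?_
      rw [Nat.cast_ne_zero]
      exact Ideal.absNorm_eq_zero_iff.not.2 (hbot v Q hQ)
  have s3 : (Module.finrank k L : ℝ) * ∑ v ∈ V, Real.log (Ideal.absNorm v.asIdeal) =
      ∑ Q ∈ Z, (Q.ramificationIdx (𝓞 k) : ℝ) * Real.log (Ideal.absNorm Q) := by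
    rw [Finset.mul_sum, hZ, Finset.sum_biUnion hdisj]
    exact Finset.sum_congr rfl fun v _ => s2 v
  -- the different
  have hdvd : (∏ Q ∈ Z, Q ^ (Q.ramificationIdx (𝓞 k) - 1)) ∣ differentIdeal (𝓞 k) (𝓞 L) := by
    refine Finset.prod_dvd_of_coprime ?_ ?_
    · intro Q hQ Q' hQ' hne
      have m1 : Q.IsMaximal := (hZbot Q hQ).1.isMaximal (hZbot Q hQ).2
      have m2 : Q'.IsMaximal := (hZbot Q' hQ').1.isMaximal (hZbot Q' hQ').2
      exact (Ideal.isCoprime_of_isMaximal hne).pow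
    · intro Q hQ
      rw [hZ, Finset.mem_biUnion] at hQ
      obtain ⟨v, -, hQ⟩ := hQ
      have := hmax v
      refine pow_sub_one_dvd_differentIdeal (𝓞 k) (p := v.asIdeal) Q _ v.ne_bot ?_
      rw [hmap v]
      exact Finset.dvd_prod_of_mem _ hQ
  have hdisc := NumberField.natAbs_discr_eq_absNorm_differentIdeal_mul_natAbs_discr_pow k (𝓞 k) L
    (𝓞 L)
  have hdiff0 : Ideal.absNorm (differentIdeal (𝓞 k) (𝓞 L)) ≠ 0 := by
    intro h
    rw [h, zero_mul] at hdisc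
    exact NumberField.discr_ne_zero L (Int.natAbs_eq_zero.1 hdisc)
  have s4 : ∑ Q ∈ Z, ((Q.ramificationIdx (𝓞 k) - 1 : ℕ) : ℝ) * Real.log (Ideal.absNorm Q) ≤
      Real.log (Ideal.absNorm (differentIdeal (𝓞 k) (𝓞 L))) := by
    have h1 := Ideal.absNorm_dvd_absNorm_of_le (Ideal.dvd_iff_le.1 hdvd)
    have h2 := Nat.le_of_dvd (Nat.pos_of_ne_zero hdiff0) h1
    rw [map_prod] at h2
    have h3 : Real.log ((∏ Q ∈ Z, Ideal.absNorm (Q ^ (Q.ramificationIdx (𝓞 k) - 1)) : ℕ) : ℝ) ≤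
        Real.log (Ideal.absNorm (differentIdeal (𝓞 k) (𝓞 L))) := by
      refine Real.log_le_log ?_ (by exact_mod_cast h2)
      rw [Nat.cast_pos]
      refine Finset.prod_pos fun Q hQ => ?_
      rw [map_pow]
      refine pow_pos (Nat.pos_of_ne_zero ?_) _
      exact Ideal.absNorm_eq_zero_iff.not.2 (hZbot Q hQ).2
    refine le_trans (le_of_eq ?_) h3
    push_cast
    rw [Real.log_prod]
    · refine Finset.sum_congr rfl fun Q _ => ?_
      rw [map_pow, Nat.cast_pow, Real.log_pow]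
    · intro Q hQ
      rw [Nat.cast_ne_zero, map_pow]
      exact pow_ne_zero _ (Ideal.absNorm_eq_zero_iff.not.2 (hZbot Q hQ).2)
  have s5 : Real.log |(discr L : ℝ)| = Real.log (Ideal.absNorm (differentIdeal (𝓞 k) (𝓞 L))) +
      Module.finrank k L * Real.log |(discr k : ℝ)| := by
    have e1 : |(discr L : ℝ)| = ((discr L).natAbs : ℝ) := by
      rw [← Int.cast_abs, Int.abs_eq_natAbs]
      simp
    have e2 : |(discr k : ℝ)| = ((discr k).natAbs : ℝ) := by
      rw [← Int.cast_abs, Int.abs_eq_natAbs]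
      simp
    rw [e1, e2, hdisc]
    push_cast
    rw [Real.log_mul (by exact_mod_cast hdiff0) ?_, Real.log_pow]
    refine pow_ne_zero _ ?_
    have := NumberField.discr_ne_zero k
    exact_mod_cast Int.natAbs_ne_zero.2 this
  rw [hWsum, mul_add, s3, s5]
  have s6 : ∑ Q ∈ Z, (Q.ramificationIdx (𝓞 k) : ℝ) * Real.log (Ideal.absNorm Q) ≤
      ∑ Q ∈ Z, ((Q.ramificationIdx (𝓞 k) - 1 : ℕ) : ℝ) * Real.log (Ideal.absNorm Q) +
        ∑ Q ∈ Z, Real.log (Ideal.absNorm Q) := by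
    rw [← Finset.sum_add_distrib]
    refine Finset.sum_le_sum fun Q _ => ?_
    have h1 : (Q.ramificationIdx (𝓞 k) : ℝ) ≤ ((Q.ramificationIdx (𝓞 k) - 1 : ℕ) : ℝ) + 1 := by
      exact_mod_cast (by omega : Q.ramificationIdx (𝓞 k) ≤ (Q.ramificationIdx (𝓞 k) - 1) + 1)
    have := mul_le_mul_of_nonneg_right h1 (hlog0 Q)
    linarith
  linarith

end

end Pool.Agent.TH905.VF
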